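import Mathlib
import Pool.Agent.Lib.MP_9c48c1_an.Defs

set_option autoImplicit false

/-! Basic facts on the `L^p` quantities of a vector field `g` on `ℝ^n`. -/

namespace Pool.Agent.Lib.MP_9c48c1_an_h27

open MeasureTheory Set Filter Topology Pool.Agent.Lib.MP_9c48c1_an

variable {n : ℕ} {p : ℝ}

/-- `∫ |⟨g, ξ⟩|^p`. -/
noncomputable def NN (p : ℝ) (g : E n → E n) (ξ : E n) : ℝ := ∫ x, |inner ℝ (g x) ξ| ^ p

lemma dirNorm_eq' (g : E n → E n) (ξ : E n) : dirNorm p g ξ = NN p g ξ ^ (1 / p) := rfl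

lemma NN_nonneg (g : E n → E n) (ξ : E n) : 0 ≤ NN p g ξ :=
  integral_nonneg fun _ => Real.rpow_nonneg (abs_nonneg _) _

lemma q_ne_zero (hp : 0 < p) : ENNReal.ofReal p ≠ 0 := by simpa using hp

lemma q_toReal (hp : 0 < p) : (ENNReal.ofReal p).toReal = p := ENNReal.toReal_ofReal hp.le

lemma integrable_rpow {V : Type*} [NormedAddCommGroup V] {F : E n → V} (hp : 0 < p)
    (hF : MemLp F (ENNReal.ofReal p)) : Integrable fun x => ‖F x‖ ^ p := by
  have h := hF.integrable_norm_rpow (q_ne_zero hp) ENNReal.ofReal_ne_top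
  rwa [q_toReal hp] at h

lemma eLpNorm_toReal {V : Type*} [NormedAddCommGroup V] {F : E n → V} (hp : 0 < p)
    (hF : MemLp F (ENNReal.ofReal p)) :
    (eLpNorm F (ENNReal.ofReal p) volume).toReal = (∫ x, ‖F x‖ ^ p) ^ (1 / p) := by
  rw [hF.eLpNorm_eq_integral_rpow_norm (q_ne_zero hp) ENNReal.ofReal_ne_top, q_toReal hp,
    ENNReal.toReal_ofReal (Real.rpow_nonneg
      (integral_nonneg fun _ => Real.rpow_nonneg (norm_nonneg _) _) _), one_div]

/-- The function `x ↦ ⟨g x, ξ⟩` is in `L^p`. -/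
lemma memLp_inner {g : E n → E n} (hg : MemLp g (ENNReal.ofReal p)) (ξ : E n) :
    MemLp (fun x => (inner ℝ (g x) ξ : ℝ)) (ENNReal.ofReal p) := by
  refine hg.of_le_mul (c := ‖ξ‖) ?_ ?_
  · exact hg.1.inner_const
  · filter_upwards with x
    rw [mul_comm]
    exact norm_inner_le_norm _ _

lemma dirNorm_toReal (hp : 0 < p) {g : E n → E n} (hg : MemLp g (ENNReal.ofReal p)) (ξ : E n) :
    dirNorm p g ξ = (eLpNorm (fun x => (inner ℝ (g x) ξ : ℝ)) (ENNReal.ofReal p) volume).toReal := by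
  rw [eLpNorm_toReal hp (memLp_inner hg ξ)]
  rfl

lemma eLpNorm_inner_le {g : E n → E n} (ξ : E n) :
    eLpNorm (fun x => (inner ℝ (g x) ξ : ℝ)) (ENNReal.ofReal p) volume ≤
      ENNReal.ofReal ‖ξ‖ * eLpNorm g (ENNReal.ofReal p) volume := by
  refine eLpNorm_le_mul_eLpNorm_of_ae_le_mul (c := ‖ξ‖) ?_ _
  filter_upwards with x
  rw [mul_comm]
  exact norm_inner_le_norm _ _

lemma gradNorm_toReal (hp : 0 < p) {g : E n → E n} (hg : MemLp g (ENNReal.ofReal p)) :
    gradNorm p g = (eLpNorm g (ENNReal.ofReal p) volume).toReal := by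
  rw [eLpNorm_toReal hp hg]
  rfl

lemma lpNorm_toReal (hp : 0 < p) {f : E n → ℝ} (hf : MemLp f (ENNReal.ofReal p)) :
    lpNorm p f = (eLpNorm f (ENNReal.ofReal p) volume).toReal := by
  rw [eLpNorm_toReal hp hf]
  rfl

/-- Triangle inequality for the real valued `L^p` norm. -/
lemma toReal_sub_le {V : Type*} [NormedAddCommGroup V] (hp : 1 ≤ p) {F G : E n → V}
    (hF : MemLp F (ENNReal.ofReal p)) (hG : MemLp G (ENNReal.ofReal p)) :
    |(eLpNorm F (ENNReal.ofReal p) volume).toReal - (eLpNorm G (ENNReal.ofReal p) volume).toReal| ≤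
      (eLpNorm (F - G) (ENNReal.ofReal p) volume).toReal := by
  have hq : 1 ≤ ENNReal.ofReal p := by simpa using ENNReal.ofReal_le_ofReal hp
  have h1 : eLpNorm F (ENNReal.ofReal p) volume ≤
      eLpNorm (F - G) (ENNReal.ofReal p) volume + eLpNorm G (ENNReal.ofReal p) volume := by
    have := eLpNorm_add_le (hF.sub hG).1 hG.1 hq
    rwa [sub_add_cancel] at this
  have h2 : eLpNorm G (ENNReal.ofReal p) volume ≤
      eLpNorm (F - G) (ENNReal.ofReal p) volume + eLpNorm F (ENNReal.ofReal p) volume := by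
    have := eLpNorm_sub_le hF.1 (hF.sub hG).1 hq
    rw [sub_sub_cancel] at this
    rwa [add_comm] at this
  have f1 := (hF.sub hG).2.ne
  have f2 := hF.2.ne
  have f3 := hG.2.ne
  have h1' := ENNReal.toReal_mono (ENNReal.add_ne_top.2 ⟨f1, f3⟩) h1
  have h2' := ENNReal.toReal_mono (ENNReal.add_ne_top.2 ⟨f1, f2⟩) h2
  rw [ENNReal.toReal_add f1 f3] at h1'
  rw [ENNReal.toReal_add f1 f2] at h2'
  rw [abs_le]
  constructor <;> linarith

lemma dirNorm_sub_le (hp : 1 ≤ p) {g h : E n → E n} (hg : MemLp g (ENNReal.ofReal p))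
    (hh : MemLp h (ENNReal.ofReal p)) (ξ : E n) :
    |dirNorm p g ξ - dirNorm p h ξ| ≤ ‖ξ‖ * gradNorm p (g - h) := by
  have hp0 : 0 < p := by linarith
  rw [dirNorm_toReal hp0 hg, dirNorm_toReal hp0 hh, gradNorm_toReal hp0 (hg.sub hh)]
  refine (toReal_sub_le hp (memLp_inner hg ξ) (memLp_inner hh ξ)).trans ?_
  have h1 : ((fun x => (inner ℝ (g x) ξ : ℝ)) - fun x => (inner ℝ (h x) ξ : ℝ)) =
      fun x => (inner ℝ ((g - h) x) ξ : ℝ) := by
    funext x
    simp [inner_sub_left]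
  rw [h1]
  have h2 := eLpNorm_inner_le (p := p) (g := g - h) ξ
  have h3 := ENNReal.toReal_mono (ENNReal.mul_ne_top ENNReal.ofReal_ne_top (hg.sub hh).2.ne) h2
  rwa [ENNReal.toReal_mul, ENNReal.toReal_ofReal (norm_nonneg _)] at h3

lemma gradNorm_nonneg (g : E n → E n) : 0 ≤ gradNorm p g :=
  Real.rpow_nonneg (integral_nonneg fun _ => Real.rpow_nonneg (norm_nonneg _) _) _

lemma lpNorm_nonneg (f : E n → ℝ) : 0 ≤ lpNorm p f :=
  Real.rpow_nonneg (integral_nonneg fun _ => Real.rpow_nonneg (abs_nonneg _) _) _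

lemma dirNorm_nonneg (g : E n → E n) (ξ : E n) : 0 ≤ dirNorm p g ξ :=
  Real.rpow_nonneg (NN_nonneg _ _) _

lemma dirNorm_lip (hp : 1 ≤ p) {g : E n → E n} (hg : MemLp g (ENNReal.ofReal p)) (ξ η : E n) :
    |dirNorm p g ξ - dirNorm p g η| ≤ gradNorm p g * ‖ξ - η‖ := by
  have hp0 : 0 < p := by linarith
  rw [dirNorm_toReal hp0 hg, dirNorm_toReal hp0 hg, gradNorm_toReal hp0 hg]
  refine (toReal_sub_le hp (memLp_inner hg ξ) (memLp_inner hg η)).trans ?_
  have h1 : ((fun x => (inner ℝ (g x) ξ : ℝ)) - fun x => (inner ℝ (g x) η : ℝ)) =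
      fun x => (inner ℝ (g x) (ξ - η) : ℝ) := by
    funext x
    simp [inner_sub_right]
  rw [h1]
  have h2 := eLpNorm_inner_le (p := p) (g := g) (ξ - η)
  have h3 := ENNReal.toReal_mono (ENNReal.mul_ne_top ENNReal.ofReal_ne_top hg.2.ne) h2
  rw [ENNReal.toReal_mul, ENNReal.toReal_ofReal (norm_nonneg _)] at h3
  linarith

lemma dirNorm_continuous (hp : 1 ≤ p) {g : E n → E n} (hg : MemLp g (ENNReal.ofReal p)) :
    Continuous fun ξ : E n => dirNorm p g ξ := by
  refine LipschitzWith.continuous (K := (gradNorm p g).toNNReal) ?_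
  refine LipschitzWith.of_dist_le_mul fun ξ η => ?_
  rw [Real.dist_eq, dist_eq_norm, Real.coe_toNNReal _ (gradNorm_nonneg _)]
  exact dirNorm_lip hp hg ξ η

lemma dirNorm_rpow (hp : 0 < p) (g : E n → E n) (ξ : E n) :
    dirNorm p g ξ ^ p = NN p g ξ := by
  rw [dirNorm_eq', ← Real.rpow_mul (NN_nonneg _ _), one_div_mul_cancel hp.ne', Real.rpow_one]

lemma NN_continuous (hp : 1 ≤ p) {g : E n → E n} (hg : MemLp g (ENNReal.ofReal p)) :
    Continuous fun ξ : E n => NN p g ξ := by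
  have hp0 : 0 < p := by linarith
  simp_rw [← dirNorm_rpow hp0]
  exact (dirNorm_continuous hp hg).rpow_const fun _ => Or.inr hp0.le

lemma dirNorm_pow_neg (g : E n → E n) (ξ : E n) :
    dirNorm p g ξ ^ (-(n : ℝ)) = NN p g ξ ^ (-((n : ℝ) / p)) := by
  rw [dirNorm_eq', ← Real.rpow_mul (NN_nonneg _ _)]
  congr 1
  ring

/-- A positive lower bound on the unit sphere. -/
lemma exists_lower (hp : 1 ≤ p) {g : E n → E n} (hg : MemLp g (ENNReal.ofReal p))
    (hpos : ∀ ξ : E n, ‖ξ‖ = 1 → 0 < dirNorm p g ξ) :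
    ∃ m > 0, ∀ ξ : E n, ‖ξ‖ = 1 → m ≤ dirNorm p g ξ := by
  have hc : IsCompact (Metric.sphere (0 : E n) 1) := isCompact_sphere _ _
  rcases (Metric.sphere (0 : E n) 1).eq_empty_or_nonempty with h | h
  · refine ⟨1, one_pos, fun ξ hξ => ?_⟩
    have : ξ ∈ Metric.sphere (0 : E n) 1 := by simpa using hξ
    rw [h] at this
    exact absurd this (Set.notMem_empty _)
  · obtain ⟨ξ₀, h₀, hmin⟩ := hc.exists_isMinOn h (dirNorm_continuous hp hg).continuousOn
    refine ⟨dirNorm p g ξ₀, hpos _ (by simpa using h₀), fun ξ hξ => ?_⟩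
    exact hmin (show ξ ∈ Metric.sphere (0 : E n) 1 by simpa using hξ)

end Pool.Agent.Lib.MP_9c48c1_an_h27
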