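import Mathlib
import Pool.Agent.Lib.MP_9c48c1_an.Defs
import Pool.Agent.Lib.MP_9c48c1_an_h27.Basic

set_option autoImplicit false

/-! Continuity of the affine energy under `L^p` convergence. -/

namespace Pool.Agent.Lib.MP_9c48c1_an_h27

open MeasureTheory Set Filter Topology Pool.Agent.Lib.MP_9c48c1_an

variable {n : ℕ} {p : ℝ}

/-- `∫_{S^{n-1}} ‖∇_ξ f‖_p^(-n) dξ`. -/
noncomputable def ZZ (p : ℝ) (g : E n → E n) : ℝ :=
  ∫ ξ : Metric.sphere (0 : E n) 1, NN p g ξ ^ (-((n : ℝ) / p)) ∂(volume : Measure (E n)).toSphere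

lemma affEnergy_eq (g : E n → E n) : affEnergy p g = cnp n p * ZZ p g ^ (-(1 / (n : ℝ))) := by
  unfold affEnergy ZZ
  simp only [dirNorm_pow_neg]

lemma norm_sphere (ξ : Metric.sphere (0 : E n) 1) : ‖(ξ : E n)‖ = 1 := by
  have := ξ.2
  rwa [mem_sphere_zero_iff_norm] at this

/-- The nondegeneracy of the field `g`. -/
def NonDeg (p : ℝ) (g : E n → E n) : Prop := ∀ ξ : E n, ‖ξ‖ = 1 → 0 < dirNorm p g ξ

lemma NN_pos_of {g : E n → E n} (hp : 0 < p) {ξ : E n} (h : 0 < dirNorm p g ξ) :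
    0 < NN p g ξ := by
  rw [← dirNorm_rpow hp]
  exact Real.rpow_pos_of_pos h _

lemma sphere_univ_pos (hn : 0 < n) : (volume : Measure (E n)).toSphere univ ≠ 0 := by
  have hdim : Module.finrank ℝ (E n) = n := by simp
  have : Nontrivial (E n) := Module.nontrivial_of_finrank_pos (R := ℝ) (by rw [hdim]; exact hn)
  rw [Measure.toSphere_apply_univ, hdim]
  refine mul_ne_zero (by exact_mod_cast hn.ne') ?_
  exact (Metric.measure_ball_pos volume (0 : E n) one_pos).ne'

lemma ZZ_integrand_continuous (hp : 1 ≤ p) {g : E n → E n} (hg : MemLp g (ENNReal.ofReal p))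
    (hnd : NonDeg p g) :
    Continuous fun ξ : Metric.sphere (0 : E n) 1 => NN p g ξ ^ (-((n : ℝ) / p)) := by
  have hp0 : 0 < p := by linarith
  refine ((NN_continuous hp hg).comp continuous_subtype_val).rpow_const fun ξ => Or.inl ?_
  exact (NN_pos_of hp0 (hnd _ (norm_sphere ξ))).ne'

lemma ZZ_integrable (hp : 1 ≤ p) {g : E n → E n} (hg : MemLp g (ENNReal.ofReal p))
    (hnd : NonDeg p g) :
    Integrable (fun ξ : Metric.sphere (0 : E n) 1 => NN p g ξ ^ (-((n : ℝ) / p)))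
      (volume : Measure (E n)).toSphere := by
  have h := ZZ_integrand_continuous hp hg hnd
  exact h.integrable_of_hasCompactSupport (HasCompactSupport.of_compactSpace _)

lemma ZZ_pos (hn : 0 < n) (hp : 1 ≤ p) {g : E n → E n} (hg : MemLp g (ENNReal.ofReal p))
    (hnd : NonDeg p g) : 0 < ZZ p g := by
  have hp0 : 0 < p := by linarith
  unfold ZZ
  rw [integral_pos_iff_support_of_nonneg
    (fun ξ => Real.rpow_nonneg (NN_nonneg _ _) _) (ZZ_integrable hp hg hnd)]
  have h1 : Function.support (fun ξ : Metric.sphere (0 : E n) 1 =>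
      NN p g ξ ^ (-((n : ℝ) / p))) = univ := by
    ext ξ
    simp only [Function.mem_support, mem_univ, iff_true]
    exact (Real.rpow_pos_of_pos (NN_pos_of hp0 (hnd _ (norm_sphere ξ))) _).ne'
  rw [h1]
  exact pos_iff_ne_zero.2 (sphere_univ_pos hn)

lemma ZZ_tendsto (hp : 1 ≤ p) {g : E n → E n} (hg : MemLp g (ENNReal.ofReal p))
    (hnd : NonDeg p g) {ι : Type*} {l : Filter ι} [l.IsCountablyGenerated] {G : ι → E n → E n}
    (hG : ∀ᶠ k in l, MemLp (G k) (ENNReal.ofReal p))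
    (hlim : Tendsto (fun k => gradNorm p (G k - g)) l (𝓝 0)) :
    Tendsto (fun k => ZZ p (G k)) l (𝓝 (ZZ p g)) := by
  have hp0 : 0 < p := by linarith
  obtain ⟨m, hm, hmle⟩ := exists_lower hp hg hnd
  have hev : ∀ᶠ k in l, gradNorm p (G k - g) < m / 2 := (tendsto_order.1 hlim).2 _ (by positivity)
  have hdn : ∀ ξ : E n, ‖ξ‖ = 1 → Tendsto (fun k => dirNorm p (G k) ξ) l (𝓝 (dirNorm p g ξ)) := by
    intro ξ hξ
    rw [tendsto_iff_norm_sub_tendsto_zero]
    refine squeeze_zero' (Eventually.of_forall fun _ => norm_nonneg _) ?_ hlim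
    filter_upwards [hG] with k hk
    have := dirNorm_sub_le hp hk hg ξ
    rw [hξ, one_mul] at this
    exact this
  have hlow : ∀ᶠ k in l, ∀ ξ : E n, ‖ξ‖ = 1 → m / 2 ≤ dirNorm p (G k) ξ := by
    filter_upwards [hG, hev] with k hk hk2 ξ hξ
    have h1 := dirNorm_sub_le hp hk hg ξ
    rw [hξ, one_mul] at h1
    have h2 := abs_le.1 h1
    have h3 := hmle ξ hξ
    linarith
  unfold ZZ
  refine tendsto_integral_filter_of_dominated_convergence (fun _ => (m / 2) ^ (-(n : ℝ))) ?_ ?_ ?_ ?_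
  · filter_upwards [hG, hlow] with k hk hk2
    refine (ZZ_integrand_continuous hp hk ?_).aestronglyMeasurable
    intro ξ hξ
    exact lt_of_lt_of_le (by positivity) (hk2 ξ hξ)
  · filter_upwards [hG, hlow] with k hk hk2
    refine Eventually.of_forall fun ξ => ?_
    rw [← dirNorm_pow_neg, Real.norm_eq_abs, abs_of_nonneg (Real.rpow_nonneg (dirNorm_nonneg _ _) _)]
    exact Real.rpow_le_rpow_of_nonpos (by positivity) (hk2 _ (norm_sphere ξ)) (by simp)
  · exact integrable_const _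
  · refine Eventually.of_forall fun ξ => ?_
    simp only [← dirNorm_pow_neg]
    have h0 : 0 < dirNorm p g (ξ : E n) := hnd _ (norm_sphere ξ)
    exact (hdn _ (norm_sphere ξ)).rpow_const (Or.inl h0.ne')

lemma affEnergy_tendsto (hn : 0 < n) (hp : 1 ≤ p) {g : E n → E n} (hg : MemLp g (ENNReal.ofReal p))
    (hnd : NonDeg p g) {ι : Type*} {l : Filter ι} [l.IsCountablyGenerated] {G : ι → E n → E n}
    (hG : ∀ᶠ k in l, MemLp (G k) (ENNReal.ofReal p))
    (hlim : Tendsto (fun k => gradNorm p (G k - g)) l (𝓝 0)) :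
    Tendsto (fun k => affEnergy p (G k)) l (𝓝 (affEnergy p g)) := by
  simp only [affEnergy_eq]
  refine Tendsto.const_mul _ ?_
  exact (ZZ_tendsto hp hg hnd hG hlim).rpow_const (Or.inl (ZZ_pos hn hp hg hnd).ne')

end Pool.Agent.Lib.MP_9c48c1_an_h27
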