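import Mathlib
import Pool.Agent.Lib.MP_9c48c1_an.Defs
import Pool.Agent.Lib.MP_9c48c1_an_h27.Basic

set_option autoImplicit false

/-! A Poincaré inequality in one direction. -/

namespace Pool.Agent.Lib.MP_9c48c1_an_h27

open MeasureTheory Set Filter Topology Pool.Agent.Lib.MP_9c48c1_an

variable {n : ℕ} {p : ℝ}

lemma inner_gradient (f : E n → ℝ) (x v : E n) : inner ℝ (gradient f x) v = fderiv ℝ f x v := by
  simp [gradient, InnerProductSpace.toDual_symm_apply]

lemma gradient_cont {f : E n → ℝ} (hf : ContDiff ℝ 1 f) : Continuous (gradient f) := by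
  unfold gradient
  exact (InnerProductSpace.toDual ℝ (E n)).symm.continuous.comp (hf.continuous_fderiv one_ne_zero)

lemma gradient_hcs {f : E n → ℝ} (hcs : HasCompactSupport f) : HasCompactSupport (gradient f) := by
  have h : HasCompactSupport (fderiv ℝ f) := hcs.fderiv ℝ
  exact h.comp_left (g := (InnerProductSpace.toDual ℝ (E n)).symm) (map_zero _)

/-- The derivative along a line. -/
lemma hasDerivAt_line {u : E n → ℝ} (hu : ContDiff ℝ 1 u) (x ξ : E n) (t : ℝ) :
    HasDerivAt (fun t : ℝ => u (x + t • ξ)) (inner ℝ (gradient u (x + t • ξ)) ξ) t := by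
  have h1 : HasFDerivAt u (fderiv ℝ u (x + t • ξ)) (x + t • ξ) :=
    (hu.differentiable one_ne_zero _).hasFDerivAt
  have h2 : HasDerivAt (fun t : ℝ => x + t • ξ) ξ t := by
    simpa using ((hasDerivAt_id t).smul_const ξ).const_add x
  have h3 := h1.comp_hasDerivAt t h2
  rw [inner_gradient]
  exact h3

lemma jensen_interval (hp : 1 ≤ p) {S : ℝ} (hS : 0 < S) {h : ℝ → ℝ} (hc : Continuous h)
    (h0 : ∀ t, 0 ≤ h t) :
    (∫ t in Icc (0 : ℝ) S, h t) ^ p ≤ S ^ (p - 1) * ∫ t in Icc (0 : ℝ) S, h t ^ p := by
  have hp0 : 0 ≤ p := by linarith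
  have hvol : (volume : Measure ℝ) (Icc 0 S) = ENNReal.ofReal S := by simp
  have h1 := (convexOn_rpow hp).map_set_average_le (t := Icc (0 : ℝ) S) (f := h)
    (μ := (volume : Measure ℝ)) (Real.continuous_rpow_const hp0).continuousOn isClosed_Ici
    (by rw [hvol]; simpa using hS) (by rw [hvol]; exact ENNReal.ofReal_ne_top)
    (Eventually.of_forall fun t => h0 t) (hc.continuousOn.integrableOn_Icc)
    ((Continuous.rpow_const hc fun _ => Or.inr hp0).continuousOn.integrableOn_Icc)
  rw [setAverage_eq, setAverage_eq] at h1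
  have hr : (volume : Measure ℝ).real (Icc 0 S) = S := by
    simp [Measure.real, hS.le]
  rw [hr, smul_eq_mul, smul_eq_mul, Real.mul_rpow (by positivity)
    (integral_nonneg fun t => h0 t), Real.inv_rpow hS.le] at h1
  have hSp : 0 < S ^ p := Real.rpow_pos_of_pos hS p
  have h2 : (∫ t in Icc (0 : ℝ) S, h t) ^ p ≤ S ^ p * (S⁻¹ * ∫ t in Icc (0 : ℝ) S, h t ^ p) := by
    have := mul_le_mul_of_nonneg_left h1 hSp.le
    rwa [← mul_assoc, mul_inv_cancel₀ hSp.ne', one_mul] at this
  refine h2.trans (le_of_eq ?_)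
  rw [Real.rpow_sub_one hS.ne']
  field_simp

/-- Poincaré inequality in the direction `ξ`. -/
lemma poincare (hp : 1 ≤ p) {R : ℝ} (hR : 0 ≤ R) {u : E n → ℝ} (hu : ContDiff ℝ 1 u)
    (hs : tsupport u ⊆ Metric.closedBall 0 R) {ξ : E n} (hξ : ‖ξ‖ = 1) :
    ∫ x, |u x| ^ p ≤ (2 * R + 1) ^ p * NN p (gradient u) ξ := by
  have hp0 : 0 < p := by linarith
  have hS : (0 : ℝ) < 2 * R + 1 := by linarith
  obtain ⟨S, hSdef⟩ : ∃ S, S = 2 * R + 1 := ⟨_, rfl⟩
  rw [← hSdef] at hS ⊢
  have hcs : HasCompactSupport u := by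
    refine HasCompactSupport.of_support_subset_isCompact (isCompact_closedBall (0 : E n) R) ?_
    exact (subset_tsupport u).trans hs
  have hzero : ∀ x : E n, R < ‖x‖ → u x = 0 := by
    intro x hx
    by_contra h
    have := hs (subset_tsupport u h)
    rw [mem_closedBall_zero_iff] at this
    linarith
  obtain ⟨F, hF⟩ : ∃ F : E n → ℝ, F = fun x => |inner ℝ (gradient u x) ξ| ^ p := ⟨_, rfl⟩
  have hgc := gradient_cont hu
  have hFc : Continuous F := by
    rw [hF]
    exact Continuous.rpow_const (hgc.inner continuous_const).abs fun _ => Or.inr hp0.le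
  have hFcs : HasCompactSupport F := by
    rw [hF]
    exact (gradient_hcs hcs).comp_left (g := fun v : E n => |inner ℝ v ξ| ^ p)
      (by simp [Real.zero_rpow hp0.ne'])
  have hFi : Integrable F := hFc.integrable_of_hasCompactSupport hFcs
  have hF0 : ∀ x, 0 ≤ F x := fun x => by rw [hF]; exact Real.rpow_nonneg (abs_nonneg _) _
  -- pointwise bound
  have hpt : ∀ x, |u x| ^ p ≤ S ^ (p - 1) * ∫ t in Icc (0 : ℝ) S, F (x - S • ξ + t • ξ) := by
    intro x
    by_cases hx : R < ‖x‖
    · rw [hzero x hx, abs_zero, Real.zero_rpow hp0.ne']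
      exact mul_nonneg (Real.rpow_nonneg hS.le _) (integral_nonneg fun t => hF0 _)
    · push Not at hx
      have h1 : u (x - S • ξ) = 0 := by
        refine hzero _ ?_
        have : ‖S • ξ‖ = S := by rw [norm_smul, hξ, mul_one, Real.norm_of_nonneg hS.le]
        have h2 := norm_sub_norm_le (S • ξ) x
        rw [norm_sub_rev] at h2
        rw [this] at h2
        linarith
      have hder := fun t : ℝ => hasDerivAt_line hu (x - S • ξ) ξ t
      have hcont : Continuous fun t : ℝ => (inner ℝ (gradient u (x - S • ξ + t • ξ)) ξ : ℝ) :=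
        (hgc.comp (by fun_prop)).inner continuous_const
      have h2 := intervalIntegral.integral_eq_sub_of_hasDerivAt (a := 0) (b := S)
        (fun t _ => hder t) (hcont.intervalIntegrable _ _)
      have h3 : x - S • ξ + S • ξ = x := by abel
      rw [h3, zero_smul, add_zero, h1, sub_zero] at h2
      have h4 : |u x| ≤ ∫ t in Icc (0 : ℝ) S, |(inner ℝ (gradient u (x - S • ξ + t • ξ)) ξ : ℝ)| := by
        rw [← h2, intervalIntegral.integral_of_le hS.le, ← integral_Icc_eq_integral_Ioc]
        exact abs_integral_le_integral_abs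
      refine (Real.rpow_le_rpow (abs_nonneg _) h4 hp0.le).trans ?_
      refine (jensen_interval hp hS hcont.abs fun t => abs_nonneg _).trans ?_
      rw [hF]
  -- integrate
  have hprod : Integrable (fun q : E n × ℝ => F (q.1 - S • ξ + q.2 • ξ))
      ((volume : Measure (E n)).prod (volume.restrict (Icc (0 : ℝ) S))) := by
    rw [integrable_prod_iff' (Continuous.aestronglyMeasurable (by fun_prop))]
    constructor
    · refine Eventually.of_forall fun t => ?_
      have := hFi.comp_add_right (-(S • ξ) + t • ξ)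
      refine this.congr (Eventually.of_forall fun x => ?_)
      simp only
      congr 1
      abel
    · have : (fun t : ℝ => ∫ x : E n, ‖F (x - S • ξ + t • ξ)‖) = fun _ => ∫ x, ‖F x‖ := by
        funext t
        rw [← integral_add_right_eq_self (fun x => ‖F x‖) (-(S • ξ) + t • ξ)]
        refine integral_congr_ae (Eventually.of_forall fun x => ?_)
        simp only
        congr 2
        abel
      simp only [this]
      exact integrable_const _
  have hint2 : Integrable fun x : E n => ∫ t in Icc (0 : ℝ) S, F (x - S • ξ + t • ξ) :=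
    hprod.integral_prod_left
  have hui : Integrable fun x => |u x| ^ p := by
    refine Continuous.integrable_of_hasCompactSupport
      (Continuous.rpow_const hu.continuous.abs fun _ => Or.inr hp0.le) ?_
    exact hcs.comp_left (g := fun v : ℝ => |v| ^ p) (by simp [Real.zero_rpow hp0.ne'])
  have h5 : ∫ x, |u x| ^ p ≤ ∫ x : E n, S ^ (p - 1) * ∫ t in Icc (0 : ℝ) S, F (x - S • ξ + t • ξ) :=
    integral_mono hui (hint2.const_mul _) hpt
  refine h5.trans (le_of_eq ?_)
  rw [integral_const_mul]
  have h6 : ∫ x : E n, ∫ t in Icc (0 : ℝ) S, F (x - S • ξ + t • ξ) = S * ∫ x, F x := by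
    rw [integral_integral_swap hprod]
    have : ∀ t : ℝ, ∫ x : E n, F (x - S • ξ + t • ξ) = ∫ x, F x := by
      intro t
      rw [← integral_add_right_eq_self F (-(S • ξ) + t • ξ)]
      refine integral_congr_ae (Eventually.of_forall fun x => ?_)
      simp only
      congr 1
      abel
    simp only [this]
    rw [integral_const]
    simp [Measure.real, hS.le]
  rw [h6]
  unfold NN
  rw [hF, ← mul_assoc, ← Real.rpow_add_one hS.ne']
  congr 2
  ring

end Pool.Agent.Lib.MP_9c48c1_an_h27
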