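import Mathlib
import Pool.Agent.Lib.MP_9c48c1_an.Defs
import Pool.Agent.Lib.MP_9c48c1_an_h27.Basic
import Pool.Agent.Lib.MP_9c48c1_an_h27.Conv
import Pool.Agent.Lib.MP_9c48c1_an_h27.Poinc

set_option autoImplicit false

/-! The space `W^{1,p}_0` and the extension of the inequality to it. -/

namespace Pool.Agent.Lib.MP_9c48c1_an_h27

open MeasureTheory Set Filter Topology Pool.Agent.Lib.MP_9c48c1_an

variable {n : ℕ} {p : ℝ} {Ω : Set (E n)}

lemma adm_hcs (hΩ : Bornology.IsBounded Ω) {u : E n → ℝ} (hu : Adm Ω u) : HasCompactSupport u :=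
  Metric.isCompact_of_isClosed_isBounded (isClosed_tsupport _) (hΩ.subset hu.2)

lemma adm_memLp' (hΩ : Bornology.IsBounded Ω) {u : E n → ℝ} (hu : Adm Ω u) (q : ENNReal) :
    MemLp u q := hu.1.continuous.memLp_of_hasCompactSupport (adm_hcs hΩ hu)

lemma adm_grad_memLp' (hΩ : Bornology.IsBounded Ω) {u : E n → ℝ} (hu : Adm Ω u) (q : ENNReal) :
    MemLp (gradient u) q :=
  (gradient_cont hu.1).memLp_of_hasCompactSupport (gradient_hcs (adm_hcs hΩ hu))

lemma gradient_add_smul {u φ : E n → ℝ} (hu : ContDiff ℝ 1 u) (hφ : ContDiff ℝ 1 φ) (t : ℝ) :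
    gradient (u + t • φ) = gradient u + t • gradient φ := by
  funext x
  have h1 : DifferentiableAt ℝ u x := hu.differentiable one_ne_zero x
  have h2 : DifferentiableAt ℝ φ x := hφ.differentiable one_ne_zero x
  have h3 : fderiv ℝ (u + t • φ) x = fderiv ℝ u x + t • fderiv ℝ φ x := by
    rw [fderiv_add h1 (h2.const_smul t), fderiv_const_smul h2]
  simp only [gradient, h3, map_add, map_smul, Pi.add_apply, Pi.smul_apply]

lemma adm_add_smul {u φ : E n → ℝ} (hu : Adm Ω u) (hφ : Adm Ω φ) (t : ℝ) :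
    Adm Ω (u + t • φ) := by
  refine ⟨hu.1.add (hφ.1.const_smul t), ?_⟩
  refine (tsupport_add u (t • φ)).trans (union_subset hu.2 ?_)
  refine (closure_mono ?_).trans hφ.2
  intro x hx
  simp only [Function.mem_support, Pi.smul_apply, smul_eq_mul] at hx ⊢
  exact right_ne_zero_of_mul hx

lemma memW0_add {f : E n → ℝ} {g : E n → E n} (hΩ : Bornology.IsBounded Ω)
    (h : MemW0 p Ω f g) {φ : E n → ℝ} (hφ : Adm Ω φ) (t : ℝ) :
    MemW0 p Ω (f + t • φ) (g + t • gradient φ) := by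
  obtain ⟨hf, hg, u, hu, h1, h2⟩ := h
  refine ⟨hf.add ((adm_memLp' hΩ hφ _).const_smul t),
    hg.add ((adm_grad_memLp' hΩ hφ _).const_smul t), fun k => u k + t • φ,
    fun k => adm_add_smul (hu k) hφ t, ?_, ?_⟩
  · refine h1.congr fun k => ?_
    rw [add_sub_add_right_eq_sub]
  · refine h2.congr fun k => ?_
    rw [gradient_add_smul (hu k).1 hφ.1, add_sub_add_right_eq_sub]

/-- Real valued convergence of the approximating sequence. -/
lemma memW0_seq (hp : 1 ≤ p) (hΩ : Bornology.IsBounded Ω) {f : E n → ℝ} {g : E n → E n}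
    (h : MemW0 p Ω f g) :
    ∃ u : ℕ → E n → ℝ, (∀ k, Adm Ω (u k)) ∧
      Tendsto (fun k => lpNorm p (u k - f)) atTop (𝓝 0) ∧
      Tendsto (fun k => gradNorm p (gradient (u k) - g)) atTop (𝓝 0) ∧
      Tendsto (fun k => lpNorm p (u k)) atTop (𝓝 (lpNorm p f)) ∧
      Tendsto (fun k => gradNorm p (gradient (u k))) atTop (𝓝 (gradNorm p g)) := by
  have hp0 : 0 < p := by linarith
  obtain ⟨hf, hg, u, hu, h1, h2⟩ := h
  have hmu := fun k => adm_memLp' hΩ (hu k) (ENNReal.ofReal p)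
  have hmg := fun k => adm_grad_memLp' hΩ (hu k) (ENNReal.ofReal p)
  have e1 : Tendsto (fun k => lpNorm p (u k - f)) atTop (𝓝 0) := by
    have := (ENNReal.tendsto_toReal ENNReal.zero_ne_top).comp h1
    rw [ENNReal.toReal_zero] at this
    refine this.congr fun k => ?_
    rw [Function.comp_apply, ← lpNorm_toReal hp0 ((hmu k).sub hf)]
  have e2 : Tendsto (fun k => gradNorm p (gradient (u k) - g)) atTop (𝓝 0) := by
    have := (ENNReal.tendsto_toReal ENNReal.zero_ne_top).comp h2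
    rw [ENNReal.toReal_zero] at this
    refine this.congr fun k => ?_
    rw [Function.comp_apply, ← gradNorm_toReal hp0 ((hmg k).sub hg)]
  refine ⟨u, hu, e1, e2, ?_, ?_⟩
  · rw [tendsto_iff_norm_sub_tendsto_zero]
    refine squeeze_zero (fun _ => norm_nonneg _) (fun k => ?_) e1
    rw [lpNorm_toReal hp0 (hmu k), lpNorm_toReal hp0 hf, lpNorm_toReal hp0 ((hmu k).sub hf)]
    exact toReal_sub_le hp (hmu k) hf
  · rw [tendsto_iff_norm_sub_tendsto_zero]
    refine squeeze_zero (fun _ => norm_nonneg _) (fun k => ?_) e2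
    rw [gradNorm_toReal hp0 (hmg k), gradNorm_toReal hp0 hg, gradNorm_toReal hp0 ((hmg k).sub hg)]
    exact toReal_sub_le hp (hmg k) hg

lemma dirNorm_seq (hp : 1 ≤ p) {g : E n → E n} (hg : MemLp g (ENNReal.ofReal p))
    {G : ℕ → E n → E n} (hG : ∀ k, MemLp (G k) (ENNReal.ofReal p))
    (hlim : Tendsto (fun k => gradNorm p (G k - g)) atTop (𝓝 0)) (ξ : E n) :
    Tendsto (fun k => dirNorm p (G k) ξ) atTop (𝓝 (dirNorm p g ξ)) := by
  rw [tendsto_iff_norm_sub_tendsto_zero]
  refine squeeze_zero (fun _ => norm_nonneg _) (fun k => dirNorm_sub_le hp (hG k) hg ξ) ?_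
  simpa using hlim.const_mul ‖ξ‖

/-- Poincaré inequality in `W^{1,p}_0`. -/
lemma poincare_W0 (hp : 1 ≤ p) (hΩ : Bornology.IsBounded Ω) :
    ∃ C : ℝ, 0 < C ∧ ∀ (f : E n → ℝ) (g : E n → E n), MemW0 p Ω f g →
      ∀ ξ : E n, ‖ξ‖ = 1 → lpNorm p f ≤ C * dirNorm p g ξ := by
  have hp0 : 0 < p := by linarith
  obtain ⟨R, hR⟩ := hΩ.subset_closedBall (0 : E n)
  obtain ⟨R', hR'⟩ : ∃ R', R' = max R 0 := ⟨_, rfl⟩
  have hR0 : 0 ≤ R' := hR' ▸ le_max_right _ _
  have hsub : Ω ⊆ Metric.closedBall 0 R' :=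
    hR.trans (Metric.closedBall_subset_closedBall (hR' ▸ le_max_left _ _))
  refine ⟨2 * R' + 1, by linarith, fun f g h ξ hξ => ?_⟩
  obtain ⟨u, hu, e1, e2, e3, e4⟩ := memW0_seq hp hΩ h
  have hmg := fun k => adm_grad_memLp' hΩ (hu k) (ENNReal.ofReal p)
  have e5 := dirNorm_seq hp h.2.1 hmg e2 ξ
  refine le_of_tendsto_of_tendsto' e3 (e5.const_mul (2 * R' + 1)) fun k => ?_
  have h1 := poincare hp hR0 (hu k).1 ((hu k).2.trans hsub) hξ
  have hS : (0 : ℝ) ≤ 2 * R' + 1 := by linarith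
  have h2 := Real.rpow_le_rpow (integral_nonneg fun x => Real.rpow_nonneg (abs_nonneg _) _) h1
    (show 0 ≤ 1 / p by positivity)
  rw [Real.mul_rpow (Real.rpow_nonneg hS _) (NN_nonneg _ _), ← Real.rpow_mul hS,
    mul_one_div_cancel hp0.ne', Real.rpow_one] at h2
  exact h2

lemma lpNorm_pos (hp : 1 ≤ p) {f : E n → ℝ} (hf : MemLp f (ENNReal.ofReal p))
    (h0 : ¬ f =ᵐ[volume] 0) : 0 < lpNorm p f := by
  have hp0 : 0 < p := by linarith
  rw [lpNorm_toReal hp0 hf]
  refine ENNReal.toReal_pos ?_ hf.2.ne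
  intro h
  rw [eLpNorm_eq_zero_iff hf.1 (q_ne_zero hp0)] at h
  exact h0 h

lemma nonDeg_W0 (hp : 1 ≤ p) (hΩ : Bornology.IsBounded Ω) {f : E n → ℝ} {g : E n → E n}
    (h : MemW0 p Ω f g) (h0 : ¬ f =ᵐ[volume] 0) : NonDeg p g := by
  obtain ⟨C, hC, hle⟩ := poincare_W0 (n := n) hp hΩ
  intro ξ hξ
  have h1 := hle f g h ξ hξ
  have h2 := lpNorm_pos hp h.1 h0
  by_contra h3
  push Not at h3
  have h4 := dirNorm_nonneg (p := p) g ξ
  have h5 : dirNorm p g ξ = 0 := le_antisymm h3 h4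
  rw [h5, mul_zero] at h1
  linarith

/-- The inequality extends to nonzero functions of `W^{1,p}_0`. -/
lemma ineq_W0 (hn : 0 < n) (hp : 1 ≤ p) (hΩ : Bornology.IsBounded Ω) {A : ℝ}
    (hA : ∀ u : E n → ℝ, Adm Ω u → A * rhs p u (gradient u) ≤ affEnergy p (gradient u))
    {f : E n → ℝ} {g : E n → E n} (h : MemW0 p Ω f g) (hnd : NonDeg p g) :
    A * rhs p f g ≤ affEnergy p g := by
  have hp0 : 0 < p := by linarith
  obtain ⟨u, hu, e1, e2, e3, e4⟩ := memW0_seq hp hΩ h
  have hmg := fun k => adm_grad_memLp' hΩ (hu k) (ENNReal.ofReal p)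
  have e5 := affEnergy_tendsto hn hp h.2.1 hnd (Eventually.of_forall hmg) e2
  have hn1 : (1 : ℝ) ≤ n := by exact_mod_cast hn
  have e6 : Tendsto (fun k => rhs p (u k) (gradient (u k))) atTop (𝓝 (rhs p f g)) := by
    unfold rhs
    refine Tendsto.mul ?_ ?_
    · exact e3.rpow_const (Or.inr (div_nonneg (by linarith) (by linarith)))
    · exact e4.rpow_const (Or.inr (by positivity))
  exact le_of_tendsto_of_tendsto' (e6.const_mul A) e5 fun k => hA _ (hu k)

/-- The weak gradient identity. -/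
lemma weak_gradient (hp : 1 ≤ p) (hΩ : Bornology.IsBounded Ω) {f : E n → ℝ} {g : E n → E n}
    (h : MemW0 p Ω f g) {φ : E n → ℝ} (hφ : ContDiff ℝ 1 φ) (hφc : HasCompactSupport φ) (v : E n) :
    ∫ x, f x * fderiv ℝ φ x v = -∫ x, inner ℝ (g x) v * φ x := by
  have hp0 : 0 < p := by linarith
  have hq1 : 1 ≤ ENNReal.ofReal p := by simpa using ENNReal.ofReal_le_ofReal hp
  obtain ⟨hf, hg, u, hu, h1, h2⟩ := h
  have hmu := fun k => adm_memLp' hΩ (hu k) (ENNReal.ofReal p)
  have hmg := fun k => adm_grad_memLp' hΩ (hu k) (ENNReal.ofReal p)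
  -- identity for the approximating functions
  have hid : ∀ k, ∫ x, u k x * fderiv ℝ φ x v = -∫ x, inner ℝ (gradient (u k) x) v * φ x := by
    intro k
    simp only [inner_gradient]
    rw [integral_mul_fderiv_eq_neg_fderiv_mul_of_integrable]
    · exact ((((hu k).1.continuous_fderiv one_ne_zero).clm_apply continuous_const).mul
        hφ.continuous).integrable_of_hasCompactSupport (hφc.mul_left)
    · exact ((hu k).1.continuous.mul
        ((hφ.continuous_fderiv one_ne_zero).clm_apply continuous_const)).integrable_of_hasCompactSupport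
        ((adm_hcs hΩ (hu k)).mul_right)
    · exact ((hu k).1.continuous.mul hφ.continuous).integrable_of_hasCompactSupport (hφc.mul_left)
    · exact fun x _ => (hu k).1.differentiable one_ne_zero x
    · exact fun x _ => hφ.differentiable one_ne_zero x
  -- the conjugate exponent
  have hconj : ∃ q : ENNReal, ENNReal.HolderConjugate (ENNReal.ofReal p) q := by
    refine ⟨(1 - (ENNReal.ofReal p)⁻¹)⁻¹, ?_⟩
    refine ENNReal.holderConjugate_iff.2 ?_
    rw [inv_inv]
    refine add_tsub_cancel_of_le ?_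
    rwa [ENNReal.inv_le_one]
  obtain ⟨q, hq⟩ := hconj
  have hψ : ∀ {ψ : E n → ℝ}, Continuous ψ → HasCompactSupport ψ → MemLp ψ q :=
    fun hc hs => hc.memLp_of_hasCompactSupport hs
  have key : ∀ {w : ℕ → E n → ℝ} {w0 ψ : E n → ℝ}, (∀ k, MemLp (w k) (ENNReal.ofReal p)) →
      MemLp w0 (ENNReal.ofReal p) → MemLp ψ q →
      Tendsto (fun k => eLpNorm (w k - w0) (ENNReal.ofReal p) volume) atTop (𝓝 0) →
      Tendsto (fun k => ∫ x, w k x * ψ x) atTop (𝓝 (∫ x, w0 x * ψ x)) := by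
    intro w w0 ψ hw hw0 hψ' hlim
    have hi : ∀ k, Integrable fun x => w k x * ψ x := fun k => (hw k).integrable_mul hψ'
    have hi0 : Integrable fun x => w0 x * ψ x := hw0.integrable_mul hψ'
    rw [tendsto_iff_norm_sub_tendsto_zero]
    have hb : ∀ k, ‖(∫ x, w k x * ψ x) - ∫ x, w0 x * ψ x‖ ≤
        (eLpNorm (w k - w0) (ENNReal.ofReal p) volume * eLpNorm ψ q volume).toReal := by
      intro k
      rw [← integral_sub (hi k) hi0]
      have h5 : (fun x => w k x * ψ x - w0 x * ψ x) = fun x => (w k - w0) x • ψ x := by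
        funext x; simp [sub_mul]
      rw [h5]
      have h6 := eLpNorm_smul_le_mul_eLpNorm (p := ENNReal.ofReal p) (q := q) (r := 1)
        (μ := volume) hψ'.1 ((hw k).sub hw0).1
      refine (norm_integral_le_lintegral_norm _).trans ?_
      have h7 : (∫⁻ x, ENNReal.ofReal ‖(w k - w0) x • ψ x‖) =
          eLpNorm ((w k - w0) • ψ) 1 volume := by
        rw [eLpNorm_one_eq_lintegral_enorm]
        refine lintegral_congr fun x => ?_
        rw [ofReal_norm]
        rfl
      rw [h7]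
      exact ENNReal.toReal_mono (ENNReal.mul_ne_top ((hw k).sub hw0).2.ne hψ'.2.ne) h6
    refine squeeze_zero (fun _ => norm_nonneg _) hb ?_
    have h8 : Tendsto (fun k => eLpNorm (w k - w0) (ENNReal.ofReal p) volume * eLpNorm ψ q volume)
        atTop (𝓝 0) := by
      have := ENNReal.Tendsto.mul_const hlim (Or.inr hψ'.2.ne) (b := eLpNorm ψ q volume)
      simpa using this
    have := (ENNReal.tendsto_toReal ENNReal.zero_ne_top).comp h8
    rwa [ENNReal.toReal_zero] at this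
  have a1 : Tendsto (fun k => ∫ x, u k x * fderiv ℝ φ x v) atTop
      (𝓝 (∫ x, f x * fderiv ℝ φ x v)) := by
    refine key hmu hf (hψ ?_ ?_) h1
    · exact (hφ.continuous_fderiv one_ne_zero).clm_apply continuous_const
    · exact (hφc.fderiv ℝ).comp_left (g := fun L : E n →L[ℝ] ℝ => L v) (by simp)
  have a2 : Tendsto (fun k => ∫ x, inner ℝ (gradient (u k) x) v * φ x) atTop
      (𝓝 (∫ x, inner ℝ (g x) v * φ x)) := by
    refine key (fun k => memLp_inner (hmg k) v) (memLp_inner hg v) (hψ hφ.continuous hφc) ?_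
    have h9 : ∀ k, eLpNorm ((fun x => (inner ℝ (gradient (u k) x) v : ℝ)) -
        fun x => (inner ℝ (g x) v : ℝ)) (ENNReal.ofReal p) volume ≤
        ENNReal.ofReal ‖v‖ * eLpNorm (gradient (u k) - g) (ENNReal.ofReal p) volume := by
      intro k
      have h10 : ((fun x => (inner ℝ (gradient (u k) x) v : ℝ)) -
        fun x => (inner ℝ (g x) v : ℝ)) = fun x => (inner ℝ ((gradient (u k) - g) x) v : ℝ) := by
        funext x; simp [inner_sub_left]
      rw [h10]
      exact eLpNorm_inner_le v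
    refine tendsto_of_tendsto_of_tendsto_of_le_of_le tendsto_const_nhds ?_ (fun _ => zero_le) h9
    have := ENNReal.Tendsto.const_mul h2 (Or.inr (ENNReal.ofReal_ne_top (r := ‖v‖)))
    simpa using this
  have a3 := tendsto_nhds_unique (a1.congr hid) a2.neg
  exact a3

end Pool.Agent.Lib.MP_9c48c1_an_h27
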