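import Mathlib
import Pool.Agent.Lib.MP_9c48c1_an.Defs
import Pool.Agent.Lib.MP_9c48c1_an_h27.Wz

set_option autoImplicit false

/-! Derivatives of the `L^p` quantities along a line of functions. -/

namespace Pool.Agent.Lib.MP_9c48c1_an_h27

open MeasureTheory Set Filter Topology Pool.Agent.Lib.MP_9c48c1_an

variable {n : ℕ} {p : ℝ}

section general

variable {V : Type*} [NormedAddCommGroup V] [InnerProductSpace ℝ V]

lemma hasDerivAt_norm_line (hp : 1 < p) (a b : V) (t : ℝ) :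
    HasDerivAt (fun t : ℝ => ‖a + t • b‖ ^ p)
      (p * ‖a + t • b‖ ^ (p - 2) * inner ℝ (a + t • b) b) t := by
  have h1 := hasFDerivAt_norm_rpow (a + t • b) hp
  have h2 : HasDerivAt (fun t : ℝ => a + t • b) b t := by
    simpa using ((hasDerivAt_id t).smul_const b).const_add a
  exact (h1.comp_hasDerivAt t h2).congr_deriv rfl

lemma deriv_bound (hp : 1 < p) (a b : V) {t c : ℝ} (hc : 1 ≤ c) (ht : |t| ≤ c) :
    ‖p * ‖a + t • b‖ ^ (p - 2) * inner ℝ (a + t • b) b‖ ≤ p * (‖a‖ + c * ‖b‖) ^ p := by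
  obtain ⟨v, hv⟩ : ∃ v, v = a + t • b := ⟨_, rfl⟩
  rw [← hv]
  have hvn : ‖v‖ ≤ ‖a‖ + c * ‖b‖ := by
    rw [hv]
    refine (norm_add_le _ _).trans ?_
    rw [norm_smul, Real.norm_eq_abs]
    have := mul_le_mul_of_nonneg_right ht (norm_nonneg b)
    linarith
  have hbn : ‖b‖ ≤ ‖a‖ + c * ‖b‖ := by
    have h1 : ‖b‖ ≤ c * ‖b‖ := by
      have := mul_le_mul_of_nonneg_right hc (norm_nonneg b)
      linarith
    have := norm_nonneg a
    linarith
  have hW : 0 ≤ ‖a‖ + c * ‖b‖ := (norm_nonneg _).trans hbn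
  have h1 : ‖p * ‖v‖ ^ (p - 2) * inner ℝ v b‖ ≤ p * (‖v‖ ^ (p - 1) * ‖b‖) := by
    rw [norm_mul, norm_mul, Real.norm_of_nonneg (by linarith : (0 : ℝ) ≤ p),
      Real.norm_of_nonneg (Real.rpow_nonneg (norm_nonneg _) _), mul_assoc]
    refine mul_le_mul_of_nonneg_left ?_ (by linarith)
    by_cases h0 : v = 0
    · rw [h0]
      simp only [norm_zero, inner_zero_left, mul_zero]
      positivity
    · have hv0 : 0 < ‖v‖ := norm_pos_iff.2 h0
      have h2 : ‖(inner ℝ v b : ℝ)‖ ≤ ‖v‖ * ‖b‖ := norm_inner_le_norm v b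
      calc ‖v‖ ^ (p - 2) * ‖(inner ℝ v b : ℝ)‖ ≤ ‖v‖ ^ (p - 2) * (‖v‖ * ‖b‖) :=
            mul_le_mul_of_nonneg_left h2 (Real.rpow_nonneg (norm_nonneg _) _)
        _ = ‖v‖ ^ (p - 1) * ‖b‖ := by
            rw [← mul_assoc, ← Real.rpow_add_one hv0.ne']
            congr 2
            ring
  refine h1.trans ?_
  refine mul_le_mul_of_nonneg_left ?_ (by linarith)
  have h3 : ‖v‖ ^ (p - 1) ≤ (‖a‖ + c * ‖b‖) ^ (p - 1) :=
    Real.rpow_le_rpow (norm_nonneg _) hvn (by linarith)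
  rcases hW.eq_or_lt with h | h
  · have hb0 : ‖b‖ = 0 := le_antisymm (h ▸ hbn) (norm_nonneg _)
    rw [hb0, mul_zero]
    rw [hb0, mul_zero] at hW
    exact Real.rpow_nonneg (by simp) _
  · calc ‖v‖ ^ (p - 1) * ‖b‖ ≤ (‖a‖ + c * ‖b‖) ^ (p - 1) * (‖a‖ + c * ‖b‖) :=
          mul_le_mul h3 hbn (norm_nonneg _) (Real.rpow_nonneg hW _)
      _ = (‖a‖ + c * ‖b‖) ^ p := by
          rw [← Real.rpow_add_one h.ne']
          congr 1
          ring

omit [InnerProductSpace ℝ V] in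
lemma bound_integrable (hp : 1 ≤ p) {F W : E n → V} (hF : MemLp F (ENNReal.ofReal p))
    (hW : MemLp W (ENNReal.ofReal p)) (c : ℝ) :
    Integrable fun x => p * (‖F x‖ + c * ‖W x‖) ^ p := by
  by_cases hc : 0 ≤ c
  · have h1 : MemLp (fun x => ‖F x‖ + c * ‖W x‖) (ENNReal.ofReal p) :=
      hF.norm.add (hW.norm.const_mul c)
    have h2 := integrable_rpow (by linarith) h1
    refine (h2.const_mul p).congr (Eventually.of_forall fun x => ?_)
    simp only
    rw [Real.norm_of_nonneg (by positivity)]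
  · have h1 : MemLp (fun x => ‖F x‖ + c * ‖W x‖) (ENNReal.ofReal p) :=
      hF.norm.add (hW.norm.const_mul c)
    have h2 := integrable_rpow (by linarith) h1
    have h3 := h2.const_mul p
    refine h3.mono ?_ ?_
    · exact (((h1.1.aemeasurable.pow_const p).const_mul p)).aestronglyMeasurable
    · refine Eventually.of_forall fun x => ?_
      rw [norm_mul, norm_mul]
      refine mul_le_mul_of_nonneg_left ?_ (norm_nonneg _)
      rw [Real.norm_eq_abs, Real.norm_eq_abs,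
        abs_of_nonneg (Real.rpow_nonneg (norm_nonneg _) _), Real.norm_eq_abs]
      exact Real.abs_rpow_le_abs_rpow _ _

lemma hasDerivAt_integral_norm (hp : 1 < p) {F W : E n → V} (hF : MemLp F (ENNReal.ofReal p))
    (hW : MemLp W (ENNReal.ofReal p)) (t₀ : ℝ) :
    HasDerivAt (fun t : ℝ => ∫ x, ‖F x + t • W x‖ ^ p)
      (∫ x, p * ‖F x + t₀ • W x‖ ^ (p - 2) * inner ℝ (F x + t₀ • W x) (W x)) t₀ := by
  have hp0 : 0 < p := by linarith
  have hm : ∀ t : ℝ, AEStronglyMeasurable (fun x => F x + t • W x) volume :=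
    fun t => hF.1.add (hW.1.const_smul t)
  refine (hasDerivAt_integral_of_dominated_loc_of_deriv_le (μ := volume)
    (F := fun (t : ℝ) x => ‖F x + t • W x‖ ^ p)
    (F' := fun (t : ℝ) x => p * ‖F x + t • W x‖ ^ (p - 2) * inner ℝ (F x + t • W x) (W x))
    (bound := fun x => p * (‖F x‖ + (|t₀| + 1) * ‖W x‖) ^ p) (Metric.ball_mem_nhds t₀ one_pos)
    ?_ ?_ ?_ ?_ ?_ ?_).2
  · exact Eventually.of_forall fun t => ((hm t).norm.aemeasurable.pow_const p).aestronglyMeasurable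
  · exact integrable_rpow hp0 (hF.add (hW.const_smul t₀))
  · refine AEStronglyMeasurable.mul ?_ ((hm t₀).inner hW.1)
    exact (((hm t₀).norm.aemeasurable.pow_const (p - 2)).const_mul p).aestronglyMeasurable
  · refine Eventually.of_forall fun x t ht => ?_
    refine deriv_bound hp (F x) (W x) (by linarith [abs_nonneg t₀]) ?_
    rw [Metric.mem_ball, Real.dist_eq] at ht
    have := abs_sub_abs_le_abs_sub t t₀
    linarith
  · exact bound_integrable hp.le hF hW _
  · exact Eventually.of_forall fun x t _ => hasDerivAt_norm_line hp (F x) (W x) t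

end general

/-- The function `|t|^(p-2) t`. -/
noncomputable def psi (p t : ℝ) : ℝ := |t| ^ (p - 2) * t

lemma psi_continuous (hp : 1 < p) : Continuous (psi p) := by
  have h1 : ContDiff ℝ 1 (fun x : ℝ => ‖x‖ ^ p) := contDiff_norm_rpow hp
  have h2 := h1.continuous_deriv le_rfl
  have h3 : deriv (fun x : ℝ => ‖x‖ ^ p) = fun x => p * psi p x := by
    funext x
    rw [(hasDerivAt_norm_rpow x hp).deriv]
    unfold psi
    rw [Real.norm_eq_abs, mul_assoc]
  rw [h3] at h2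
  have h4 : psi p = fun x => p⁻¹ * (p * psi p x) := by
    funext x
    rw [← mul_assoc, inv_mul_cancel₀ (by linarith : p ≠ 0), one_mul]
  rw [h4]
  exact h2.const_mul _

lemma abs_psi (hp : 1 < p) (t : ℝ) : |psi p t| = |t| ^ (p - 1) := by
  unfold psi
  rw [abs_mul, abs_of_nonneg (Real.rpow_nonneg (abs_nonneg _) _)]
  by_cases h : t = 0
  · rw [h, abs_zero, mul_zero, Real.zero_rpow (by linarith)]
  · rw [← Real.rpow_add_one (abs_pos.2 h).ne']
    congr 1
    ring

/-- `∫ |⟨g, ξ⟩|^(p-2) ⟨g, ξ⟩ ⟨w, ξ⟩`. -/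
noncomputable def DD (p : ℝ) (g w : E n → E n) (ξ : E n) : ℝ :=
  ∫ x, psi p (inner ℝ (g x) ξ) * inner ℝ (w x) ξ

lemma NN_hasDerivAt (hp : 1 < p) {g w : E n → E n} (hg : MemLp g (ENNReal.ofReal p))
    (hw : MemLp w (ENNReal.ofReal p)) (ξ : E n) (t : ℝ) :
    HasDerivAt (fun t : ℝ => NN p (g + t • w) ξ) (p * DD p (g + t • w) w ξ) t := by
  have h := hasDerivAt_integral_norm hp (memLp_inner hg ξ) (memLp_inner hw ξ) t
  have h1 : (fun t : ℝ => NN p (g + t • w) ξ) =
      fun t : ℝ => ∫ x, ‖(inner ℝ (g x) ξ : ℝ) + t • (inner ℝ (w x) ξ : ℝ)‖ ^ p := by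
    funext t
    unfold NN
    refine integral_congr_ae (Eventually.of_forall fun x => ?_)
    simp [inner_add_left, inner_smul_left, Real.norm_eq_abs]
  have h2 : (p * DD p (g + t • w) w ξ) =
      ∫ x, p * ‖(inner ℝ (g x) ξ : ℝ) + t • (inner ℝ (w x) ξ : ℝ)‖ ^ (p - 2) *
        inner ℝ ((inner ℝ (g x) ξ : ℝ) + t • (inner ℝ (w x) ξ : ℝ)) (inner ℝ (w x) ξ : ℝ) := by
    unfold DD
    rw [← integral_const_mul]
    refine integral_congr_ae (Eventually.of_forall fun x => ?_)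
    simp [inner_add_left, inner_smul_left, Real.norm_eq_abs, psi]
    ring
  rw [h1, h2]
  exact h

/-- A uniform bound for the derivative. -/
lemma DD_bound (hp : 1 < p) {g w : E n → E n} (hg : MemLp g (ENNReal.ofReal p))
    (hw : MemLp w (ENNReal.ofReal p)) {ξ : E n} (hξ : ‖ξ‖ = 1) {t : ℝ} (ht : |t| ≤ 1) :
    |p * DD p (g + t • w) w ξ| ≤ ∫ x, p * (‖g x‖ + 1 * ‖w x‖) ^ p := by
  have h2 : (p * DD p (g + t • w) w ξ) =
      ∫ x, p * ‖(inner ℝ (g x) ξ : ℝ) + t • (inner ℝ (w x) ξ : ℝ)‖ ^ (p - 2) *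
        inner ℝ ((inner ℝ (g x) ξ : ℝ) + t • (inner ℝ (w x) ξ : ℝ)) (inner ℝ (w x) ξ : ℝ) := by
    unfold DD
    rw [← integral_const_mul]
    refine integral_congr_ae (Eventually.of_forall fun x => ?_)
    simp [inner_add_left, inner_smul_left, Real.norm_eq_abs, psi]
    ring
  rw [h2, ← Real.norm_eq_abs]
  refine (norm_integral_le_integral_norm _).trans ?_
  refine integral_mono_of_nonneg (Eventually.of_forall fun _ => norm_nonneg _)
    (bound_integrable hp.le hg hw 1) (Eventually.of_forall fun x => ?_)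
  refine (deriv_bound hp _ _ le_rfl ht).trans ?_
  refine mul_le_mul_of_nonneg_left ?_ (by linarith)
  have e1 : ‖(inner ℝ (g x) ξ : ℝ)‖ ≤ ‖g x‖ := by
    have := norm_inner_le_norm (𝕜 := ℝ) (g x) ξ
    rwa [hξ, mul_one] at this
  have e2 : ‖(inner ℝ (w x) ξ : ℝ)‖ ≤ ‖w x‖ := by
    have := norm_inner_le_norm (𝕜 := ℝ) (w x) ξ
    rwa [hξ, mul_one] at this
  refine Real.rpow_le_rpow (by positivity) (by linarith) (by linarith)

lemma DD_continuous (hp : 1 < p) {g w : E n → E n} (hg : MemLp g (ENNReal.ofReal p))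
    (hw : MemLp w (ENNReal.ofReal p)) :
    Continuous fun ξ : Metric.sphere (0 : E n) 1 => DD p g w ξ := by
  refine continuous_of_dominated (bound := fun x => p * (‖g x‖ + 1 * ‖w x‖) ^ p) ?_ ?_ ?_ ?_
  · intro ξ
    refine AEStronglyMeasurable.mul ?_ hw.1.inner_const
    exact (psi_continuous hp).comp_aestronglyMeasurable hg.1.inner_const
  · intro ξ
    refine Eventually.of_forall fun x => ?_
    have h := deriv_bound hp (inner ℝ (g x) (ξ : E n) : ℝ) (inner ℝ (w x) (ξ : E n) : ℝ)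
      (t := 0) (c := 1) le_rfl (by simp)
    rw [zero_smul, add_zero] at h
    have e1 : ‖(inner ℝ (g x) (ξ : E n) : ℝ)‖ ≤ ‖g x‖ := by
      have := norm_inner_le_norm (𝕜 := ℝ) (g x) (ξ : E n)
      rwa [norm_sphere ξ, mul_one] at this
    have e2 : ‖(inner ℝ (w x) (ξ : E n) : ℝ)‖ ≤ ‖w x‖ := by
      have := norm_inner_le_norm (𝕜 := ℝ) (w x) (ξ : E n)
      rwa [norm_sphere ξ, mul_one] at this
    have h3 : ‖psi p (inner ℝ (g x) (ξ : E n)) * (inner ℝ (w x) (ξ : E n) : ℝ)‖ ≤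
        ‖p * ‖(inner ℝ (g x) (ξ : E n) : ℝ)‖ ^ (p - 2) *
          inner ℝ (inner ℝ (g x) (ξ : E n) : ℝ) (inner ℝ (w x) (ξ : E n) : ℝ)‖ := by
      have h4 : p * ‖(inner ℝ (g x) (ξ : E n) : ℝ)‖ ^ (p - 2) *
          inner ℝ (inner ℝ (g x) (ξ : E n) : ℝ) (inner ℝ (w x) (ξ : E n) : ℝ) =
          p * (psi p (inner ℝ (g x) (ξ : E n)) * (inner ℝ (w x) (ξ : E n) : ℝ)) := by
        simp [psi, Real.norm_eq_abs]
        ring
      rw [h4, norm_mul p, Real.norm_of_nonneg (by linarith : (0 : ℝ) ≤ p)]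
      have := norm_nonneg (psi p (inner ℝ (g x) (ξ : E n)) * (inner ℝ (w x) (ξ : E n) : ℝ))
      nlinarith
    refine h3.trans (h.trans ?_)
    refine mul_le_mul_of_nonneg_left ?_ (by linarith)
    exact Real.rpow_le_rpow (by positivity) (by linarith) (by linarith)
  · exact bound_integrable hp.le hg hw 1
  · refine Eventually.of_forall fun x => ?_
    have hc : Continuous fun ξ : Metric.sphere (0 : E n) 1 => (inner ℝ (g x) (ξ : E n) : ℝ) :=
      continuous_const.inner continuous_subtype_val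
    exact ((psi_continuous hp).comp hc).mul (continuous_const.inner continuous_subtype_val)

end Pool.Agent.Lib.MP_9c48c1_an_h27
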