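import Mathlib
import Pool.Agent.Lib.MP_9c48c1_an.Defs
import Pool.Agent.Lib.MP_9c48c1_an_h27.Deriv

set_option autoImplicit false

/-! The Euler-Lagrange equation of an extremal function. -/

namespace Pool.Agent.Lib.MP_9c48c1_an_h27

open MeasureTheory Set Filter Topology Pool.Agent.Lib.MP_9c48c1_an

variable {n : ℕ} {p : ℝ}

lemma lower_line (hp : 1 ≤ p) {g w : E n → E n} (hg : MemLp g (ENNReal.ofReal p))
    (hw : MemLp w (ENNReal.ofReal p)) (hnd : NonDeg p g) :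
    ∃ m > 0, ∃ δ > 0, δ ≤ 1 ∧ ∀ t : ℝ, |t| < δ → ∀ ξ : E n, ‖ξ‖ = 1 →
      m ≤ dirNorm p (g + t • w) ξ := by
  obtain ⟨m, hm, hmle⟩ := exists_lower hp hg hnd
  have hp0 : 0 < p := by linarith
  obtain ⟨G, hG⟩ : ∃ G, G = gradNorm p w := ⟨_, rfl⟩
  have hG0 : 0 ≤ G := hG ▸ gradNorm_nonneg w
  refine ⟨m / 2, by positivity, min 1 (m / (2 * (G + 1))), by positivity, min_le_left _ _, ?_⟩
  intro t ht ξ hξ
  have h1 := dirNorm_sub_le hp (hg.add (hw.const_smul t)) hg ξ
  rw [hξ, one_mul, add_sub_cancel_left] at h1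
  have h2 : gradNorm p (t • w) = |t| * G := by
    rw [gradNorm_toReal hp0 (hw.const_smul t), eLpNorm_const_smul, ENNReal.toReal_mul,
      ← gradNorm_toReal hp0 hw, hG]
    simp
  rw [h2] at h1
  have h3 : |t| * G ≤ m / 2 := by
    have h4 : |t| ≤ m / (2 * (G + 1)) := (ht.le).trans (min_le_right _ _)
    calc |t| * G ≤ m / (2 * (G + 1)) * (G + 1) :=
          mul_le_mul h4 (by linarith) hG0 (by positivity)
      _ = m / 2 := by field_simp
  have h5 := abs_le.1 h1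
  have h6 := hmle ξ hξ
  linarith

lemma ZZ_hasDerivAt (hp : 1 < p) {g w : E n → E n} (hg : MemLp g (ENNReal.ofReal p))
    (hw : MemLp w (ENNReal.ofReal p)) (hnd : NonDeg p g) :
    HasDerivAt (fun t : ℝ => ZZ p (g + t • w))
      (∫ ξ : Metric.sphere (0 : E n) 1, p * DD p g w ξ * (-((n : ℝ) / p)) *
        NN p g ξ ^ (-((n : ℝ) / p) - 1) ∂(volume : Measure (E n)).toSphere) 0 := by
  have hp0 : 0 < p := by linarith
  obtain ⟨m, hm, δ, hδ, hδ1, hlow⟩ := lower_line hp.le hg hw hnd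
  have hnp : 0 ≤ (n : ℝ) / p := by positivity
  have hmem : ∀ t : ℝ, MemLp (g + t • w) (ENNReal.ofReal p) := fun t => hg.add (hw.const_smul t)
  have hNN : ∀ t : ℝ, |t| < δ → ∀ ξ : E n, ‖ξ‖ = 1 → m ^ p ≤ NN p (g + t • w) ξ := by
    intro t ht ξ hξ
    rw [← dirNorm_rpow hp0]
    exact Real.rpow_le_rpow hm.le (hlow t ht ξ hξ) hp0.le
  have hmp : 0 < m ^ p := Real.rpow_pos_of_pos hm p
  have hnd' : ∀ t : ℝ, |t| < δ → NonDeg p (g + t • w) :=
    fun t ht ξ hξ => lt_of_lt_of_le hm (hlow t ht ξ hξ)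
  have hball : ∀ {t : ℝ}, t ∈ Metric.ball (0 : ℝ) δ → |t| < δ := by
    intro t ht
    simpa [Real.dist_eq] using ht
  have hev : ∀ᶠ t : ℝ in 𝓝 0, |t| < δ := by
    filter_upwards [Metric.ball_mem_nhds (0 : ℝ) hδ] with t ht using hball ht
  have key := hasDerivAt_integral_of_dominated_loc_of_deriv_le
    (μ := (volume : Measure (E n)).toSphere) (x₀ := (0 : ℝ))
    (F := fun (t : ℝ) (ξ : Metric.sphere (0 : E n) 1) => NN p (g + t • w) ξ ^ (-((n : ℝ) / p)))
    (F' := fun (t : ℝ) (ξ : Metric.sphere (0 : E n) 1) => p * DD p (g + t • w) w ξ *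
      (-((n : ℝ) / p)) * NN p (g + t • w) ξ ^ (-((n : ℝ) / p) - 1))
    (bound := fun _ => (∫ x, p * (‖g x‖ + 1 * ‖w x‖) ^ p) * ((n : ℝ) / p) *
      (m ^ p) ^ (-((n : ℝ) / p) - 1)) (Metric.ball_mem_nhds (0 : ℝ) hδ) ?_ ?_ ?_ ?_ ?_ ?_
  · have h := key.2
    simp only [zero_smul, add_zero] at h
    exact h
  · filter_upwards [hev] with t ht
    exact (ZZ_integrand_continuous hp.le (hmem t) (hnd' t ht)).aestronglyMeasurable
  · exact ZZ_integrable hp.le (hmem 0) (hnd' 0 (by simpa using hδ))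
  · refine Continuous.aestronglyMeasurable ?_
    refine ((DD_continuous hp (hmem 0) hw).const_mul p).mul continuous_const |>.mul ?_
    refine ((NN_continuous hp.le (hmem 0)).comp continuous_subtype_val).rpow_const fun ξ =>
      Or.inl ?_
    exact (lt_of_lt_of_le hmp (hNN 0 (by simpa using hδ) _ (norm_sphere ξ))).ne'
  · refine Eventually.of_forall fun ξ t ht => ?_
    have ht' := hball ht
    have h1 := DD_bound hp hg hw (norm_sphere ξ) (ht'.le.trans hδ1)
    have h2 := hNN t ht' _ (norm_sphere ξ)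
    rw [norm_mul, norm_mul, norm_neg, Real.norm_eq_abs, Real.norm_of_nonneg hnp,
      Real.norm_of_nonneg (Real.rpow_nonneg (NN_nonneg _ _) _)]
    refine mul_le_mul (mul_le_mul_of_nonneg_right h1 hnp) ?_
      (Real.rpow_nonneg (NN_nonneg _ _) _) ?_
    · exact Real.rpow_le_rpow_of_nonpos hmp h2 (by linarith)
    · exact mul_nonneg ((abs_nonneg _).trans h1) hnp
  · exact integrable_const _
  · refine Eventually.of_forall fun ξ t ht => ?_
    have ht' := hball ht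
    have h2 := hNN t ht' _ (norm_sphere ξ)
    exact (NN_hasDerivAt hp hg hw ξ t).rpow_const (Or.inl (lt_of_lt_of_le hmp h2).ne')

/-- `∫ |f|^(p-2) f φ`. -/
noncomputable def FF (p : ℝ) (f φ : E n → ℝ) : ℝ := ∫ x, psi p (f x) * φ x

/-- `∫ |g|^(p-2) ⟨g, w⟩`. -/
noncomputable def GG (p : ℝ) (g w : E n → E n) : ℝ := ∫ x, ‖g x‖ ^ (p - 2) * inner ℝ (g x) (w x)

lemma omega_pos' {k : ℝ} (hk : 0 ≤ k) : 0 < omega k := by
  unfold omega
  have h1 : 0 < Real.Gamma (1 + k / 2) := Real.Gamma_pos_of_pos (by positivity)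
  have h2 : 0 < Real.pi ^ (k / 2) := Real.rpow_pos_of_pos Real.pi_pos _
  positivity

lemma cnp_pos (hn : 0 < n) (hp : 1 ≤ p) : 0 < cnp n p := by
  have hn1 : (1 : ℝ) ≤ n := by exact_mod_cast hn
  have h1 : 0 < omega (n : ℝ) := omega_pos' (by linarith)
  have h2 : 0 < omega (p - 1) := omega_pos' (by linarith)
  have h3 : 0 < omega ((n : ℝ) + p - 2) := omega_pos' (by linarith)
  unfold cnp
  have h4 : 0 < (n : ℝ) * omega n * omega (p - 1) / (2 * omega (n + p - 2)) := by positivity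
  have h5 : 0 < (n : ℝ) * omega n := by positivity
  exact mul_pos (Real.rpow_pos_of_pos h4 _) (Real.rpow_pos_of_pos h5 _)

/-- **The Euler-Lagrange equation.** -/
theorem euler_lagrange (hn : 0 < n) (hp : 1 < p) {Ω : Set (E n)} (hΩ : Bornology.IsBounded Ω)
    {A : ℝ} (hA : ∀ u : E n → ℝ, Adm Ω u → A * rhs p u (gradient u) ≤ affEnergy p (gradient u))
    {f : E n → ℝ} {g : E n → E n} (h : MemW0 p Ω f g) (h0 : ¬ f =ᵐ[volume] 0)
    (heq : affEnergy p g = A * rhs p f g) {φ : E n → ℝ} (hφ : Adm Ω φ) :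
    (n : ℝ) * (∫ ξ : Metric.sphere (0 : E n) 1, DD p g (gradient φ) ξ *
        NN p g ξ ^ (-((n : ℝ) / p) - 1) ∂(volume : Measure (E n)).toSphere) / ZZ p g =
      ((n : ℝ) - 1) * FF p f φ / (∫ x, |f x| ^ p) + GG p g (gradient φ) / (∫ x, ‖g x‖ ^ p) := by
  have hp0 : 0 < p := by linarith
  have hn0 : (0 : ℝ) < n := by exact_mod_cast hn
  have hnd := nonDeg_W0 hp.le hΩ h h0
  have hf := h.1
  have hg := h.2.1
  have hφm := adm_memLp' hΩ hφ (ENNReal.ofReal p)
  have hw := adm_grad_memLp' hΩ hφ (ENNReal.ofReal p)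
  obtain ⟨w, hwdef⟩ : ∃ w, w = gradient φ := ⟨_, rfl⟩
  rw [← hwdef] at hw ⊢
  obtain ⟨m, hm, δ, hδ, hδ1, hlow⟩ := lower_line hp.le hg hw hnd
  -- the three derivatives
  have dZ := ZZ_hasDerivAt hp hg hw hnd
  have dA : HasDerivAt (fun t : ℝ => ∫ x, |(f + t • φ) x| ^ p) (p * FF p f φ) 0 := by
    have h1 := hasDerivAt_integral_norm hp hf hφm 0
    refine h1.congr_deriv ?_
    unfold FF
    rw [← integral_const_mul]
    refine integral_congr_ae (Eventually.of_forall fun x => ?_)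
    simp [psi, Real.norm_eq_abs]
    ring
  have dB : HasDerivAt (fun t : ℝ => ∫ x, ‖(g + t • w) x‖ ^ p) (p * GG p g w) 0 := by
    have h1 := hasDerivAt_integral_norm hp hg hw 0
    refine h1.congr_deriv ?_
    unfold GG
    rw [← integral_const_mul]
    refine integral_congr_ae (Eventually.of_forall fun x => ?_)
    simp only [zero_smul, add_zero]
    ring
  -- positivity at `0`
  have hZ0 : 0 < ZZ p g := ZZ_pos hn hp.le hg hnd
  have ha0 : 0 < ∫ x, |f x| ^ p := by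
    have h1 := lpNorm_pos hp.le hf h0
    unfold MP_9c48c1_an.lpNorm at h1
    by_contra h2
    have h3 : 0 ≤ ∫ x, |f x| ^ p := integral_nonneg fun _ => Real.rpow_nonneg (abs_nonneg _) _
    have h4 : ∫ x, |f x| ^ p = 0 := le_antisymm (not_lt.1 h2) h3
    rw [h4, Real.zero_rpow (by positivity)] at h1
    exact lt_irrefl _ h1
  have hb0 : 0 < ∫ x, ‖g x‖ ^ p := by
    have : Nontrivial (E n) := Module.nontrivial_of_finrank_pos (R := ℝ) (by simpa using hn)
    obtain ⟨ξ, hξ⟩ := exists_norm_eq (E n) (zero_le_one)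
    have h1 := hnd ξ hξ
    have h2 : dirNorm p g ξ ≤ gradNorm p g := by
      rw [dirNorm_toReal hp0 hg, gradNorm_toReal hp0 hg]
      refine ENNReal.toReal_mono hg.2.ne ?_
      have := eLpNorm_inner_le (p := p) (g := g) ξ
      rwa [hξ, ENNReal.ofReal_one, one_mul] at this
    have h3 : 0 < gradNorm p g := lt_of_lt_of_le h1 h2
    unfold gradNorm at h3
    by_contra h4
    have h5 : 0 ≤ ∫ x, ‖g x‖ ^ p := integral_nonneg fun _ => Real.rpow_nonneg (norm_nonneg _) _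
    have h6 : ∫ x, ‖g x‖ ^ p = 0 := le_antisymm (not_lt.1 h4) h5
    rw [h6, Real.zero_rpow (by positivity)] at h3
    exact lt_irrefl _ h3
  have hc := cnp_pos hn hp.le
  -- `A > 0`
  have hE0 : 0 < affEnergy p g := by
    rw [affEnergy_eq]
    exact mul_pos hc (Real.rpow_pos_of_pos hZ0 _)
  have hrhs : 0 ≤ rhs p f g := mul_nonneg (Real.rpow_nonneg (lpNorm_nonneg _) _)
    (Real.rpow_nonneg (gradNorm_nonneg _) _)
  have hApos : 0 < A := by
    rw [heq] at hE0
    by_contra h2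
    push Not at h2
    have := mul_nonpos_of_nonpos_of_nonneg h2 hrhs
    linarith
  -- the logarithmic function
  obtain ⟨L, hL⟩ : ∃ L : ℝ → ℝ, L = fun t => -(1 / (n : ℝ)) * Real.log (ZZ p (g + t • w)) -
    (1 / p * (((n : ℝ) - 1) / n)) * Real.log (∫ x, |(f + t • φ) x| ^ p) -
    (1 / p * (1 / (n : ℝ))) * Real.log (∫ x, ‖(g + t • w) x‖ ^ p) := ⟨_, rfl⟩
  have hdL : HasDerivAt L (-(1 / (n : ℝ)) * ((∫ ξ : Metric.sphere (0 : E n) 1, p * DD p g w ξ *
        (-((n : ℝ) / p)) * NN p g ξ ^ (-((n : ℝ) / p) - 1) ∂(volume : Measure (E n)).toSphere) /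
          ZZ p g) - (1 / p * (((n : ℝ) - 1) / n)) * (p * FF p f φ / (∫ x, |f x| ^ p)) -
          (1 / p * (1 / (n : ℝ))) * (p * GG p g w / (∫ x, ‖g x‖ ^ p))) 0 := by
    rw [hL]
    refine HasDerivAt.sub (HasDerivAt.sub (HasDerivAt.const_mul _ ?_) (HasDerivAt.const_mul _ ?_))
      (HasDerivAt.const_mul _ ?_)
    · have := dZ.log (by simpa using hZ0.ne')
      simpa using this
    · have := dA.log (by simpa using ha0.ne')
      simpa using this
    · have := dB.log (by simpa using hb0.ne')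
      simpa using this
  -- logarithm of both sides
  have hlog : ∀ (f' : E n → ℝ) (g' : E n → E n), 0 < ∫ x, |f' x| ^ p → 0 < ∫ x, ‖g' x‖ ^ p →
      Real.log (A * rhs p f' g') = Real.log A + (1 / p * (((n : ℝ) - 1) / n)) *
        Real.log (∫ x, |f' x| ^ p) + (1 / p * (1 / (n : ℝ))) * Real.log (∫ x, ‖g' x‖ ^ p) := by
    intro f' g' ha hb
    unfold rhs MP_9c48c1_an.lpNorm gradNorm
    rw [← Real.rpow_mul ha.le, ← Real.rpow_mul hb.le, ← mul_assoc,
      Real.log_mul (mul_pos hApos (Real.rpow_pos_of_pos ha _)).ne' (Real.rpow_pos_of_pos hb _).ne',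
      Real.log_mul hApos.ne' (Real.rpow_pos_of_pos ha _).ne', Real.log_rpow ha, Real.log_rpow hb]
  have hlogE : ∀ g' : E n → E n, 0 < ZZ p g' → Real.log (affEnergy p g') =
      Real.log (cnp n p) - (1 / (n : ℝ)) * Real.log (ZZ p g') := by
    intro g' hz
    rw [affEnergy_eq, Real.log_mul hc.ne' (Real.rpow_pos_of_pos hz _).ne', Real.log_rpow hz]
    ring
  have hmin : IsLocalMin L 0 := by
    have hev : ∀ᶠ t : ℝ in 𝓝 0, |t| < δ := by
      filter_upwards [Metric.ball_mem_nhds (0 : ℝ) hδ] with t ht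
      simpa [Real.dist_eq] using ht
    have hevA : ∀ᶠ t : ℝ in 𝓝 0, 0 < ∫ x, |(f + t • φ) x| ^ p :=
      dA.continuousAt.eventually (lt_mem_nhds (by simpa using ha0))
    have hevB : ∀ᶠ t : ℝ in 𝓝 0, 0 < ∫ x, ‖(g + t • w) x‖ ^ p :=
      dB.continuousAt.eventually (lt_mem_nhds (by simpa using hb0))
    filter_upwards [hev, hevA, hevB] with t ht hta htb
    have hndt : NonDeg p (g + t • w) := fun ξ hξ => lt_of_lt_of_le hm (hlow t ht ξ hξ)
    have hmt : MemW0 p Ω (f + t • φ) (g + t • w) := hwdef ▸ memW0_add hΩ h hφ t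
    have hZt := ZZ_pos hn hp.le hmt.2.1 hndt
    have hi := ineq_W0 hn hp.le hΩ hA hmt hndt
    have hrt : 0 < A * rhs p (f + t • φ) (g + t • w) := by
      refine mul_pos hApos (mul_pos (Real.rpow_pos_of_pos ?_ _) (Real.rpow_pos_of_pos ?_ _))
      · exact Real.rpow_pos_of_pos hta _
      · exact Real.rpow_pos_of_pos htb _
    have hi2 := Real.log_le_log hrt hi
    rw [hlog _ _ hta htb, hlogE _ hZt] at hi2
    have he2 := congrArg Real.log heq
    rw [hlog _ _ ha0 hb0, hlogE _ hZ0] at he2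
    rw [hL]
    simp only [zero_smul, add_zero]
    linarith
  have hzero := hmin.hasDerivAt_eq_zero hdL
  -- algebra
  have hI : (∫ ξ : Metric.sphere (0 : E n) 1, p * DD p g w ξ * (-((n : ℝ) / p)) *
      NN p g ξ ^ (-((n : ℝ) / p) - 1) ∂(volume : Measure (E n)).toSphere) =
      -(n : ℝ) * ∫ ξ : Metric.sphere (0 : E n) 1, DD p g w ξ *
        NN p g ξ ^ (-((n : ℝ) / p) - 1) ∂(volume : Measure (E n)).toSphere := by
    rw [← integral_const_mul]
    refine integral_congr_ae (Eventually.of_forall fun ξ => ?_)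
    simp only
    field_simp
  rw [hI] at hzero
  obtain ⟨I, hI'⟩ : ∃ I, I = ∫ ξ : Metric.sphere (0 : E n) 1, DD p g w ξ *
        NN p g ξ ^ (-((n : ℝ) / p) - 1) ∂(volume : Measure (E n)).toSphere := ⟨_, rfl⟩
  rw [← hI'] at hzero ⊢
  have h9 : (n : ℝ) * I / ZZ p g - (((n : ℝ) - 1) * FF p f φ / (∫ x, |f x| ^ p) +
      GG p g w / (∫ x, ‖g x‖ ^ p)) = (n : ℝ) * (-(1 / (n : ℝ)) * (-(n : ℝ) * I / ZZ p g) -
      (1 / p * (((n : ℝ) - 1) / n)) * (p * FF p f φ / (∫ x, |f x| ^ p)) -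
          (1 / p * (1 / (n : ℝ))) * (p * GG p g w / (∫ x, ‖g x‖ ^ p))) := by
    field_simp
    ring
  rw [hzero, mul_zero] at h9
  linarith

end Pool.Agent.Lib.MP_9c48c1_an_h27
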