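import Mathlib
import Pool.Agent.Lib.MP_9c48c1_an.Defs
import Pool.Agent.Lib.MP_9c48c1_an_h27.Wz

set_option autoImplicit false

/-! The weak gradient is the classical gradient where the function is `C^1`. -/

namespace Pool.Agent.Lib.MP_9c48c1_an_h27

open MeasureTheory Set Filter Topology Pool.Agent.Lib.MP_9c48c1_an

variable {n : ℕ} {p : ℝ}

lemma integrable_of_contOn {U : Set (E n)} {F φ : E n → ℝ} (hF : ContinuousOn F U)
    (hφ : Continuous φ) (hφc : HasCompactSupport φ) (hs : tsupport φ ⊆ U) :
    Integrable fun x => F x * φ x := by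
  have h1 : IntegrableOn (fun x => F x * φ x) (tsupport φ) :=
    ((hF.mono hs).mul hφ.continuousOn).integrableOn_compact hφc
  rwa [integrableOn_iff_integrable_of_support_subset] at h1
  intro x hx
  refine subset_tsupport φ ?_
  simp only [Function.mem_support] at hx ⊢
  exact right_ne_zero_of_mul hx

lemma weak_eq_grad (hp : 1 ≤ p) {Ω : Set (E n)} (hΩ : Bornology.IsBounded Ω) {f : E n → ℝ}
    {g : E n → E n} (h : MemW0 p Ω f g) {U : Set (E n)} (hU : IsOpen U)
    (hfU : ContDiffOn ℝ 1 f U) : ∀ᵐ x, x ∈ U → g x = gradient f x := by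
  have hq1 : 1 ≤ ENNReal.ofReal p := by simpa using ENNReal.ofReal_le_ofReal hp
  have hdc : ∀ v : E n, ContinuousOn (fun x => fderiv ℝ f x v) U := fun v =>
    (hfU.continuousOn_fderiv_of_isOpen hU le_rfl).clm_apply continuousOn_const
  have hcomp : ∀ i : Fin n, ∀ᵐ x, x ∈ U → (inner ℝ (g x) (EuclideanSpace.single i (1 : ℝ)) -
      fderiv ℝ f x (EuclideanSpace.single i (1 : ℝ)) : ℝ) = 0 := by
    intro i
    obtain ⟨v, hv⟩ : ∃ v : E n, v = EuclideanSpace.single i (1 : ℝ) := ⟨_, rfl⟩
    rw [← hv]
    refine hU.ae_eq_zero_of_integral_contDiff_smul_eq_zero ?_ ?_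
    · refine LocallyIntegrableOn.sub ?_ ?_
      · exact ((memLp_inner h.2.1 v).locallyIntegrable hq1).locallyIntegrableOn U
      · exact (hdc v).locallyIntegrableOn hU.measurableSet
    · intro φ hφ hφc hs
      have hφ1 : ContDiff ℝ 1 φ := hφ.of_le (by norm_cast)
      have h1 := weak_gradient hp hΩ h hφ1 hφc v
      have i1 : Integrable fun x => fderiv ℝ f x v * φ x :=
        integrable_of_contOn (hdc v) hφ.continuous hφc hs
      have i2 : Integrable fun x => f x * fderiv ℝ φ x v := by
        refine integrable_of_contOn (U := U) (φ := fun x => fderiv ℝ φ x v) hfU.continuousOn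
          ((hφ1.continuous_fderiv one_ne_zero).clm_apply continuous_const)
          ((hφc.fderiv ℝ).comp_left (g := fun L : E n →L[ℝ] ℝ => L v) (by simp)) ?_
        refine (closure_mono ?_).trans ((tsupport_fderiv_subset ℝ).trans hs)
        intro x hx
        simp only [Function.mem_support] at hx ⊢
        intro h3
        exact hx (by rw [h3]; simp)
      have i3 : Integrable fun x => f x * φ x :=
        integrable_of_contOn hfU.continuousOn hφ.continuous hφc hs
      have h2 : ∫ x, f x * fderiv ℝ φ x v = -∫ x, fderiv ℝ f x v * φ x :=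
        integral_mul_fderiv_eq_neg_fderiv_mul_of_integrable i1 i2 i3
          (fun x hx => (hfU.differentiableOn one_ne_zero).differentiableAt (hU.mem_nhds (hs hx)))
          (fun x _ => hφ1.differentiable one_ne_zero x)
      have i4 : Integrable fun x => (inner ℝ (g x) v : ℝ) * φ x := by
        have hc : ENNReal.HolderConjugate (ENNReal.ofReal p) ((1 - (ENNReal.ofReal p)⁻¹)⁻¹) := by
          refine ENNReal.holderConjugate_iff.2 ?_
          rw [inv_inv]
          refine add_tsub_cancel_of_le ?_
          rwa [ENNReal.inv_le_one]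
        have hm : MemLp φ ((1 - (ENNReal.ofReal p)⁻¹)⁻¹) :=
          hφ.continuous.memLp_of_hasCompactSupport hφc
        exact (memLp_inner h.2.1 v).integrable_mul hm
      have h3 : (fun x => φ x • ((inner ℝ (g x) v : ℝ) - fderiv ℝ f x v)) =
          fun x => (inner ℝ (g x) v : ℝ) * φ x - fderiv ℝ f x v * φ x := by
        funext x
        rw [smul_eq_mul]
        ring
      rw [h3, integral_sub i4 i1]
      linarith
  have hall := ae_all_iff.2 hcomp
  filter_upwards [hall] with x hx hxU
  ext i
  have h1 := hx i hxU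
  have h2 : (inner ℝ (gradient f x) (EuclideanSpace.single i (1 : ℝ)) : ℝ) =
      fderiv ℝ f x (EuclideanSpace.single i (1 : ℝ)) := inner_gradient _ _ _
  rw [← h2, EuclideanSpace.inner_single_right, EuclideanSpace.inner_single_right] at h1
  simp at h1
  linarith

end Pool.Agent.Lib.MP_9c48c1_an_h27
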