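import Mathlib
import Pool.Agent.Lib.MP_9c48c1_an.Defs
import Pool.Agent.Lib.MP_9c48c1_an_h27.EulerL
import Pool.Agent.Lib.MP_9c48c1_an_h27.Loc

set_option autoImplicit false

/-! The Euler-Lagrange equation tested with concentrated test functions. -/

namespace Pool.Agent.Lib.MP_9c48c1_an_h27

open MeasureTheory Set Filter Topology Pool.Agent.Lib.MP_9c48c1_an

variable {n : ℕ} {p : ℝ}

/-- The concentrated test function. -/
noncomputable def conc (x₀ : E n) (r : ℝ) (φ : E n → ℝ) : E n → ℝ := fun x => φ (r⁻¹ • (x - x₀))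

lemma conc_contDiff {φ : E n → ℝ} (hφ : ContDiff ℝ 1 φ) (x₀ : E n) (r : ℝ) :
    ContDiff ℝ 1 (conc x₀ r φ) :=
  hφ.comp ((contDiff_id.sub contDiff_const).const_smul _)

lemma conc_gradient {φ : E n → ℝ} (hφ : ContDiff ℝ 1 φ) (x₀ : E n) (r : ℝ) (x : E n) :
    gradient (conc x₀ r φ) x = r⁻¹ • gradient φ (r⁻¹ • (x - x₀)) := by
  have h1 : HasFDerivAt (fun x : E n => r⁻¹ • (x - x₀)) (r⁻¹ • ContinuousLinearMap.id ℝ (E n)) x :=
    ((hasFDerivAt_id x).sub_const x₀).const_smul r⁻¹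
  have h2 : HasFDerivAt φ (fderiv ℝ φ (r⁻¹ • (x - x₀))) (r⁻¹ • (x - x₀)) :=
    (hφ.differentiable one_ne_zero _).hasFDerivAt
  have h3 := (h2.comp x h1).fderiv
  have h4 : fderiv ℝ (conc x₀ r φ) x = r⁻¹ • fderiv ℝ φ (r⁻¹ • (x - x₀)) := by
    have : conc x₀ r φ = φ ∘ fun x : E n => r⁻¹ • (x - x₀) := rfl
    rw [this, h3]
    ext v
    simp
  simp only [gradient, h4, map_smul]

lemma conc_tsupport {φ : E n → ℝ} {R : ℝ} (hs : tsupport φ ⊆ Metric.closedBall 0 R) (x₀ : E n)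
    {r : ℝ} (hr : 0 < r) : tsupport (conc x₀ r φ) ⊆ Metric.closedBall x₀ (r * R) := by
  refine closure_minimal ?_ Metric.isClosed_closedBall
  intro x hx
  simp only [Function.mem_support, conc] at hx
  have h1 := hs (subset_tsupport φ hx)
  rw [mem_closedBall_zero_iff, norm_smul, norm_inv, Real.norm_of_nonneg hr.le] at h1
  rw [Metric.mem_closedBall, dist_eq_norm]
  rwa [inv_mul_le_iff₀ hr] at h1

lemma integral_conc (x₀ : E n) {r : ℝ} (hr : 0 < r) (H : E n → ℝ) :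
    ∫ x, H x = r ^ n * ∫ y, H (x₀ + r • y) := by
  have h1 := Measure.integral_comp_smul (volume : Measure (E n)) (fun y => H (x₀ + y)) r
  have h2 : ∫ y, H (x₀ + y) = ∫ x, H x := integral_add_left_eq_self H x₀
  rw [h1, h2]
  have hd : Module.finrank ℝ (E n) = n := by simp
  rw [hd, smul_eq_mul, abs_of_pos (by positivity), ← mul_assoc, mul_inv_cancel₀ (by positivity),
    one_mul]

lemma tsupport_gradient_sub (φ : E n → ℝ) : tsupport (gradient φ) ⊆ tsupport φ := by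
  refine (closure_mono ?_).trans (tsupport_fderiv_subset ℝ)
  intro x hx
  simp only [Function.mem_support] at hx ⊢
  intro h
  apply hx
  simp [gradient, h]

lemma ne_zero_mem_tsupport {φ : E n → ℝ} {x : E n} (h : gradient φ x ≠ 0) : x ∈ tsupport φ :=
  tsupport_gradient_sub φ (subset_tsupport _ h)

lemma DD_conc {g F : E n → E n} {x₀ : E n} {ρ R r : ℝ} (hr : 0 < r) (hrR : r * R < ρ)
    (hgF : ∀ᵐ x, x ∈ Metric.ball x₀ ρ → g x = F x) {φ : E n → ℝ} (hφ : ContDiff ℝ 1 φ)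
    (hs : tsupport φ ⊆ Metric.closedBall 0 R) (ξ : E n) :
    r * DD p g (gradient (conc x₀ r φ)) ξ =
      r ^ n * DD p (fun y => F (x₀ + r • y)) (gradient φ) ξ := by
  unfold DD
  have h1 : ∫ x, psi p (inner ℝ (g x) ξ) * inner ℝ (gradient (conc x₀ r φ) x) ξ =
      ∫ x, psi p (inner ℝ (F x) ξ) * inner ℝ (gradient (conc x₀ r φ) x) ξ := by
    refine integral_congr_ae ?_
    filter_upwards [hgF] with x hx
    by_cases h : x ∈ Metric.ball x₀ ρ
    · rw [hx h]
    · have : gradient (conc x₀ r φ) x = 0 := by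
        by_contra h2
        have h3 := conc_tsupport hs x₀ hr (ne_zero_mem_tsupport h2)
        refine h (Metric.closedBall_subset_ball ?_ h3)
        exact hrR
      rw [this, inner_zero_left, mul_zero, mul_zero]
  rw [h1, integral_conc x₀ hr, ← mul_assoc, mul_comm r, mul_assoc, ← integral_const_mul]
  congr 1
  refine integral_congr_ae (Eventually.of_forall fun y => ?_)
  simp only
  rw [conc_gradient hφ, add_sub_cancel_left, smul_smul, inv_mul_cancel₀ hr.ne', one_smul,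
    inner_smul_left]
  simp only [conj_trivial]
  field_simp

lemma GG_conc {g F : E n → E n} {x₀ : E n} {ρ R r : ℝ} (hr : 0 < r) (hrR : r * R < ρ)
    (hgF : ∀ᵐ x, x ∈ Metric.ball x₀ ρ → g x = F x) {φ : E n → ℝ} (hφ : ContDiff ℝ 1 φ)
    (hs : tsupport φ ⊆ Metric.closedBall 0 R) :
    r * GG p g (gradient (conc x₀ r φ)) = r ^ n * GG p (fun y => F (x₀ + r • y)) (gradient φ) := by
  unfold GG
  have h1 : ∫ x, ‖g x‖ ^ (p - 2) * inner ℝ (g x) (gradient (conc x₀ r φ) x) =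
      ∫ x, ‖F x‖ ^ (p - 2) * inner ℝ (F x) (gradient (conc x₀ r φ) x) := by
    refine integral_congr_ae ?_
    filter_upwards [hgF] with x hx
    by_cases h : x ∈ Metric.ball x₀ ρ
    · rw [hx h]
    · have : gradient (conc x₀ r φ) x = 0 := by
        by_contra h2
        have h3 := conc_tsupport hs x₀ hr (ne_zero_mem_tsupport h2)
        refine h (Metric.closedBall_subset_ball ?_ h3)
        exact hrR
      rw [this, inner_zero_right, mul_zero, inner_zero_right, mul_zero]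
  rw [h1, integral_conc x₀ hr, ← mul_assoc, mul_comm r, mul_assoc, ← integral_const_mul]
  congr 1
  refine integral_congr_ae (Eventually.of_forall fun y => ?_)
  simp only
  rw [conc_gradient hφ, add_sub_cancel_left, smul_smul, inv_mul_cancel₀ hr.ne', one_smul,
    inner_smul_right]
  field_simp

lemma FF_conc {f f' : E n → ℝ} {x₀ : E n} {ρ R r : ℝ} (hr : 0 < r) (hrR : r * R < ρ)
    (hff : ∀ x ∈ Metric.ball x₀ ρ, f x = f' x) {φ : E n → ℝ}
    (hs : tsupport φ ⊆ Metric.closedBall 0 R) :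
    FF p f (conc x₀ r φ) = r ^ n * FF p (fun y => f' (x₀ + r • y)) φ := by
  unfold FF
  rw [integral_conc x₀ hr]
  congr 1
  refine integral_congr_ae (Eventually.of_forall fun y => ?_)
  simp only [conc]
  rw [add_sub_cancel_left, smul_smul, inv_mul_cancel₀ hr.ne', one_smul]
  by_cases h : φ y = 0
  · rw [h, mul_zero, mul_zero]
  · rw [hff]
    have h1 := hs (subset_tsupport φ h)
    rw [mem_closedBall_zero_iff] at h1
    rw [Metric.mem_ball, dist_eq_norm, add_sub_cancel_left, norm_smul, Real.norm_of_nonneg hr.le]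
    exact (mul_le_mul_of_nonneg_left h1 hr.le).trans_lt hrR

/-- The first variation form, with the weight `ρ`. -/
noncomputable def BB (p : ℝ) (ρ : Metric.sphere (0 : E n) 1 → ℝ) (Z b : ℝ) (V w : E n → E n) : ℝ :=
  (n : ℝ) * (∫ ξ : Metric.sphere (0 : E n) 1, DD p V w ξ * ρ ξ ∂(volume : Measure (E n)).toSphere) / Z
    - GG p V w / b

theorem scaled_EL (hn : 0 < n) (hp : 1 < p) {Ω : Set (E n)} (hΩ : Bornology.IsBounded Ω)
    {A : ℝ} (hA : ∀ u : E n → ℝ, Adm Ω u → A * rhs p u (gradient u) ≤ affEnergy p (gradient u))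
    {f : E n → ℝ} {g : E n → E n} (h : MemW0 p Ω f g) (h0 : ¬ f =ᵐ[volume] 0)
    (heq : affEnergy p g = A * rhs p f g) {x₀ : E n} {ρ R r : ℝ} (hr : 0 < r) (hrR : r * R < ρ)
    (hρ : Metric.ball x₀ ρ ⊆ Ω) {f' : E n → ℝ} (hff : ∀ x ∈ Metric.ball x₀ ρ, f x = f' x)
    (hgF : ∀ᵐ x, x ∈ Metric.ball x₀ ρ → g x = gradient f' x) {φ : E n → ℝ} (hφ : ContDiff ℝ 1 φ)
    (hs : tsupport φ ⊆ Metric.closedBall 0 R) :
    BB p (fun ξ => NN p g ξ ^ (-((n : ℝ) / p) - 1)) (ZZ p g) (∫ x, ‖g x‖ ^ p)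
      (fun y => gradient f' (x₀ + r • y)) (gradient φ) =
      r * (((n : ℝ) - 1) / (∫ x, |f x| ^ p) * FF p (fun y => f' (x₀ + r • y)) φ) := by
  have hadm : Adm Ω (conc x₀ r φ) := by
    refine ⟨conc_contDiff hφ x₀ r, (conc_tsupport hs x₀ hr).trans ?_⟩
    exact (Metric.closedBall_subset_ball hrR).trans hρ
  have key := euler_lagrange hn hp hΩ hA h h0 heq hadm
  have h2 := GG_conc (p := p) hr hrR hgF hφ hs
  have h3 := FF_conc (p := p) hr hrR hff hs
  have h4 : r * (∫ ξ : Metric.sphere (0 : E n) 1, DD p g (gradient (conc x₀ r φ)) ξ *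
        NN p g ξ ^ (-((n : ℝ) / p) - 1) ∂(volume : Measure (E n)).toSphere) =
      r ^ n * ∫ ξ : Metric.sphere (0 : E n) 1,
        DD p (fun y => gradient f' (x₀ + r • y)) (gradient φ) ξ *
        NN p g ξ ^ (-((n : ℝ) / p) - 1) ∂(volume : Measure (E n)).toSphere := by
    rw [← integral_const_mul, ← integral_const_mul]
    refine integral_congr_ae (Eventually.of_forall fun ξ => ?_)
    simp only
    rw [← mul_assoc, DD_conc (p := p) hr hrR hgF hφ hs, mul_assoc]
  obtain ⟨I, hI⟩ : ∃ I, I = ∫ ξ : Metric.sphere (0 : E n) 1,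
    DD p g (gradient (conc x₀ r φ)) ξ *
        NN p g ξ ^ (-((n : ℝ) / p) - 1) ∂(volume : Measure (E n)).toSphere := ⟨_, rfl⟩
  obtain ⟨J, hJ⟩ : ∃ J, J = ∫ ξ : Metric.sphere (0 : E n) 1,
        DD p (fun y => gradient f' (x₀ + r • y)) (gradient φ) ξ *
        NN p g ξ ^ (-((n : ℝ) / p) - 1) ∂(volume : Measure (E n)).toSphere := ⟨_, rfl⟩
  unfold BB
  rw [← hI, ← hJ] at h4
  rw [← hI] at key
  rw [← hJ]
  have hrn : r ^ n ≠ 0 := (pow_pos hr n).ne'
  have e1 : J = r * I / r ^ n := by rw [h4]; field_simp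
  have e2 : GG p (fun y => gradient f' (x₀ + r • y)) (gradient φ) =
      r * GG p g (gradient (conc x₀ r φ)) / r ^ n := by rw [h2]; field_simp
  have e3 : FF p (fun y => f' (x₀ + r • y)) φ = FF p f (conc x₀ r φ) / r ^ n := by
    rw [h3]; field_simp
  rw [e1, e2, e3]
  have e4 : (n : ℝ) * (r * I / r ^ n) / ZZ p g -
      r * GG p g (gradient (conc x₀ r φ)) / r ^ n / (∫ x, ‖g x‖ ^ p) =
      r / r ^ n * ((n : ℝ) * I / ZZ p g - GG p g (gradient (conc x₀ r φ)) / (∫ x, ‖g x‖ ^ p)) := by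
    ring
  rw [e4, key]
  ring

end Pool.Agent.Lib.MP_9c48c1_an_h27
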