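import Mathlib
import Pool.Agent.Lib.MP_9c48c1_an.Defs
import Pool.Agent.Lib.MP_9c48c1_an_h27.Conv

set_option autoImplicit false

/-! The spherical integrals of `|⟨v, ξ⟩|^s`, `-1 < s`. -/

namespace Pool.Agent.Lib.MP_9c48c1_an_h27

open MeasureTheory Set Filter Topology Pool.Agent.Lib.MP_9c48c1_an

variable {n : ℕ}

lemma int_one {s : ℝ} (hs : -1 < s) : Integrable fun t : ℝ => |t| ^ s * Real.exp (-t ^ 2) := by
  have h0 : IntegrableOn (fun t : ℝ => |t| ^ s * Real.exp (-t ^ 2)) (Ioi 0) := by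
    refine (integrableOn_rpow_mul_exp_neg_mul_sq one_pos hs).congr_fun ?_ measurableSet_Ioi
    intro t ht
    simp only
    rw [abs_of_pos ht]
    congr 2
    ring
  rw [← integrableOn_univ, ← @Iio_union_Ici _ _ (0 : ℝ), integrableOn_union,
    integrableOn_Ici_iff_integrableOn_Ioi]
  refine ⟨?_, h0⟩
  rw [← (Measure.measurePreserving_neg (volume : Measure ℝ)).integrableOn_comp_preimage
      (Homeomorph.neg ℝ).measurableEmbedding]
  simp only [Function.comp_def, neg_sq, neg_preimage, neg_Iio, neg_zero, abs_neg]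
  exact h0

lemma int_coord {s : ℝ} (hs : -1 < s) (i₀ : Fin n) :
    Integrable fun x : E n => |x i₀| ^ s * Real.exp (-‖x‖ ^ 2) := by
  have h1 : Integrable (fun y : Fin n → ℝ => ∏ i, (if i = i₀ then |y i| ^ s else 1) *
      Real.exp (-(y i) ^ 2)) := by
    refine Integrable.fintype_prod (f := fun i (t : ℝ) => (if i = i₀ then |t| ^ s else 1) *
      Real.exp (-t ^ 2)) fun i => ?_
    by_cases h : i = i₀
    · simp only [h, if_true]
      exact int_one hs
    · simp only [h, if_false, one_mul]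
      have := integrable_exp_neg_mul_sq one_pos
      simpa using this
  have h2 := (PiLp.volume_preserving_ofLp (Fin n)).integrable_comp_emb
    (MeasurableEquiv.toLp 2 (Fin n → ℝ)).symm.measurableEmbedding (g := fun y : Fin n → ℝ =>
      ∏ i, (if i = i₀ then |y i| ^ s else 1) * Real.exp (-(y i) ^ 2))
  have h3 := h2.2 h1
  refine h3.congr (Eventually.of_forall fun x => ?_)
  simp only [Function.comp_apply]
  rw [Finset.prod_mul_distrib, Finset.prod_ite_eq' Finset.univ i₀]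
  simp only [Finset.mem_univ, if_true]
  rw [← Real.exp_sum, EuclideanSpace.norm_sq_eq]
  congr 2
  rw [← Finset.sum_neg_distrib]
  refine Finset.sum_congr rfl fun i _ => ?_
  rw [Real.norm_eq_abs, sq_abs]

/-- The integral over the whole space, in every direction. -/
lemma int_dir (hn : 0 < n) {s : ℝ} (hs : -1 < s) :
    ∃ I : ℝ, ∀ e : E n, ‖e‖ = 1 →
      Integrable (fun x : E n => |(inner ℝ e x : ℝ)| ^ s * Real.exp (-‖x‖ ^ 2)) ∧
      ∫ x : E n, |(inner ℝ e x : ℝ)| ^ s * Real.exp (-‖x‖ ^ 2) = I := by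
  obtain ⟨i₀⟩ : Nonempty (Fin n) := ⟨⟨0, hn⟩⟩
  refine ⟨∫ x : E n, |x i₀| ^ s * Real.exp (-‖x‖ ^ 2), fun e he => ?_⟩
  obtain ⟨e₀, he₀⟩ : ∃ e₀ : E n, e₀ = EuclideanSpace.single i₀ (1 : ℝ) := ⟨_, rfl⟩
  have hn0 : ‖e‖ = ‖e₀‖ := by rw [he, he₀]; simp
  obtain ⟨ρ, hρ⟩ : ∃ ρ : E n ≃ₗᵢ[ℝ] E n, ρ e = e₀ := ⟨_, Submodule.reflection_sub hn0⟩
  have hmp : MeasurePreserving ρ (volume : Measure (E n)) volume := ρ.measurePreserving
  have hemb : MeasurableEmbedding ρ := ρ.toHomeomorph.measurableEmbedding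
  have hfun : ∀ x : E n, |(inner ℝ e x : ℝ)| ^ s * Real.exp (-‖x‖ ^ 2) =
      |(ρ x) i₀| ^ s * Real.exp (-‖ρ x‖ ^ 2) := by
    intro x
    have h1 : (inner ℝ e x : ℝ) = (ρ x) i₀ := by
      rw [← ρ.inner_map_map e x, hρ, he₀, EuclideanSpace.inner_single_left]
      simp
    rw [h1, ρ.norm_map]
  constructor
  · have h1 := (hmp.integrable_comp_emb hemb
      (g := fun y : E n => |y i₀| ^ s * Real.exp (-‖y‖ ^ 2))).2 (int_coord hs i₀)
    refine h1.congr (Eventually.of_forall fun x => ?_)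
    exact (hfun x).symm
  · simp only [hfun]
    exact hmp.integral_comp hemb fun y : E n => |y i₀| ^ s * Real.exp (-‖y‖ ^ 2)

/-- Polar coordinates, with integrability. -/
lemma polar_int (hn : 0 < n) {φ : E n → ℝ} (hφ : Integrable φ) :
    Integrable (fun ξ : Metric.sphere (0 : E n) 1 => ∫ r in Ioi (0 : ℝ), r ^ (n - 1) * φ (r • (ξ : E n)))
      (volume : Measure (E n)).toSphere ∧
    ∫ x, φ x = ∫ ξ : Metric.sphere (0 : E n) 1, (∫ r in Ioi (0 : ℝ), r ^ (n - 1) * φ (r • (ξ : E n)))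
      ∂(volume : Measure (E n)).toSphere := by
  have hdim : Module.finrank ℝ (E n) = n := by simp
  have : Nontrivial (E n) := Module.nontrivial_of_finrank_pos (R := ℝ) (by rw [hdim]; exact hn)
  have hmp := (volume : Measure (E n)).measurePreserving_homeomorphUnitSphereProd
  have hemb := (Homeomorph.measurableEmbedding (homeomorphUnitSphereProd (E n)))
  obtain ⟨ψ, hψ⟩ : ∃ ψ : Metric.sphere (0 : E n) 1 × Ioi (0 : ℝ) → ℝ,
    ψ = fun p => φ ((p.2 : ℝ) • (p.1 : E n)) := ⟨_, rfl⟩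
  have hcomp : ∀ x : ({(0 : E n)}ᶜ : Set (E n)), ψ (homeomorphUnitSphereProd (E n) x) = φ x.1 := by
    intro x
    simp only [hψ]
    congr 1
    have hx : ‖(x : E n)‖ ≠ 0 := norm_ne_zero_iff.2 x.2
    simp [homeomorphUnitSphereProd, smul_smul, hx]
  have h1 : ∫ x, φ x = ∫ x : ({(0)}ᶜ : Set (E n)), φ x.1 ∂(Measure.comap Subtype.val volume) := by
    rw [integral_subtype_comap (measurableSet_singleton _).compl φ, restrict_compl_singleton]
  have hintsub : Integrable (fun x : ({(0 : E n)}ᶜ : Set (E n)) => φ x.1)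
      (Measure.comap Subtype.val volume) := by
    have : MeasurableEmbedding (Subtype.val : ({(0 : E n)}ᶜ : Set (E n)) → E n) :=
      MeasurableEmbedding.subtype_coe (measurableSet_singleton _).compl
    exact this.integrableOn_range_iff_comap.1 hφ.integrableOn
  have hint : Integrable ψ (((volume : Measure (E n)).toSphere).prod
      (Measure.volumeIoiPow (Module.finrank ℝ (E n) - 1))) := by
    rw [← hmp.integrable_comp_emb hemb]
    refine hintsub.congr ?_
    filter_upwards with x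
    exact (hcomp x).symm
  have hin : ∀ ξ : Metric.sphere (0 : E n) 1,
      ∫ r, ψ (ξ, r) ∂(Measure.volumeIoiPow (Module.finrank ℝ (E n) - 1)) =
        ∫ r in Ioi (0 : ℝ), r ^ (n - 1) * φ (r • (ξ : E n)) := by
    intro ξ
    simp only [hψ, Measure.volumeIoiPow, ENNReal.ofReal]
    rw [integral_withDensity_eq_integral_smul ((measurable_subtype_coe.pow_const _).real_toNNReal),
      integral_subtype_comap measurableSet_Ioi fun a : ℝ =>
        Real.toNNReal (a ^ (Module.finrank ℝ (E n) - 1)) • φ (a • (ξ : E n))]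
    refine setIntegral_congr_fun measurableSet_Ioi fun r hr => ?_
    rw [NNReal.smul_def, Real.coe_toNNReal _ (pow_nonneg (le_of_lt hr) _), hdim]
    simp
  constructor
  · refine hint.integral_prod_left.congr (Eventually.of_forall fun ξ => ?_)
    exact hin ξ
  · rw [h1]
    have h2 : ∫ x : ({(0)}ᶜ : Set (E n)), φ x.1 ∂(Measure.comap Subtype.val volume) =
        ∫ p, ψ p ∂(((volume : Measure (E n)).toSphere).prod
          (Measure.volumeIoiPow (Module.finrank ℝ (E n) - 1))) := by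
      rw [← hmp.integral_comp hemb]
      exact integral_congr_ae (by filter_upwards with x; exact (hcomp x).symm)
    rw [h2, integral_prod _ hint]
    exact integral_congr_ae (Eventually.of_forall fun ξ => hin ξ)

/-- The spherical integral of `|⟨v, ξ⟩|^s` is finite and bounded by a multiple of `‖v‖^s`. -/
lemma sph_int (hn : 2 ≤ n) {s : ℝ} (hs : -1 < s) :
    ∃ C : ℝ, 0 ≤ C ∧ ∀ v : E n, v ≠ 0 →
      Integrable (fun ξ : Metric.sphere (0 : E n) 1 => |(inner ℝ v (ξ : E n) : ℝ)| ^ s)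
        (volume : Measure (E n)).toSphere ∧
      ∫ ξ : Metric.sphere (0 : E n) 1, |(inner ℝ v (ξ : E n) : ℝ)| ^ s
        ∂(volume : Measure (E n)).toSphere ≤ C * ‖v‖ ^ s := by
  have hn0 : 0 < n := by omega
  obtain ⟨I, hI⟩ := int_dir hn0 hs
  obtain ⟨K, hK⟩ : ∃ K : ℝ, K = ∫ r in Ioi (0 : ℝ), r ^ ((n : ℝ) - 1 + s) * Real.exp (-r ^ 2) :=
    ⟨_, rfl⟩
  have hn2 : (2 : ℝ) ≤ n := by exact_mod_cast hn
  have hKi : IntegrableOn (fun r : ℝ => r ^ ((n : ℝ) - 1 + s) * Real.exp (-r ^ 2)) (Ioi 0) := by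
    have := integrableOn_rpow_mul_exp_neg_mul_sq one_pos (s := (n : ℝ) - 1 + s) (by linarith)
    refine this.congr_fun ?_ measurableSet_Ioi
    intro r _
    simp
  have hKpos : 0 < K := by
    rw [hK]
    refine (setIntegral_pos_iff_support_of_nonneg_ae ?_ hKi).2 ?_
    · filter_upwards [ae_restrict_mem measurableSet_Ioi] with r hr
      exact mul_nonneg (Real.rpow_nonneg (le_of_lt hr) _) (Real.exp_pos _).le
    · have : Function.support (fun r : ℝ => r ^ ((n : ℝ) - 1 + s) * Real.exp (-r ^ 2)) ∩ Ioi 0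
          = Ioi 0 := by
        refine inter_eq_right.2 fun r hr => ?_
        exact (mul_pos (Real.rpow_pos_of_pos hr _) (Real.exp_pos _)).ne'
      rw [this]
      simp
  have hin : ∀ (e : E n) (ξ : Metric.sphere (0 : E n) 1),
      (∫ r in Ioi (0 : ℝ), r ^ (n - 1) * (|(inner ℝ e (r • (ξ : E n)) : ℝ)| ^ s *
        Real.exp (-‖r • (ξ : E n)‖ ^ 2))) = K * |(inner ℝ e (ξ : E n) : ℝ)| ^ s := by
    intro e ξ
    rw [hK, ← integral_mul_const]
    refine setIntegral_congr_fun measurableSet_Ioi fun r hr => ?_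
    have hr0 : (0 : ℝ) < r := hr
    rw [inner_smul_right, norm_smul, norm_sphere ξ, mul_one, Real.norm_eq_abs, sq_abs, abs_mul,
      abs_of_pos hr0, Real.mul_rpow hr0.le (abs_nonneg _)]
    have h1 : r ^ ((n : ℝ) - 1 + s) = r ^ (n - 1) * r ^ s := by
      rw [Real.rpow_add hr0]
      congr 1
      rw [← Real.rpow_natCast]
      congr 1
      rw [Nat.cast_sub (by omega)]
      simp
    rw [h1]
    ring
  have hunit : ∀ e : E n, ‖e‖ = 1 →
      Integrable (fun ξ : Metric.sphere (0 : E n) 1 => |(inner ℝ e (ξ : E n) : ℝ)| ^ s)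
        (volume : Measure (E n)).toSphere ∧
      ∫ ξ : Metric.sphere (0 : E n) 1, |(inner ℝ e (ξ : E n) : ℝ)| ^ s
        ∂(volume : Measure (E n)).toSphere = I / K := by
    intro e he
    obtain ⟨h1, h2⟩ := hI e he
    obtain ⟨h3, h4⟩ := polar_int hn0 h1
    simp only [hin] at h3 h4
    rw [h2, integral_const_mul] at h4
    refine ⟨(integrable_const_mul_iff (isUnit_iff_ne_zero.2 hKpos.ne') _).1 h3, ?_⟩
    rw [h4]
    field_simp
  refine ⟨|I / K|, abs_nonneg _, fun v hv => ?_⟩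
  have hv0 : 0 < ‖v‖ := norm_pos_iff.2 hv
  obtain ⟨e, he⟩ : ∃ e : E n, e = ‖v‖⁻¹ • v := ⟨_, rfl⟩
  have hen : ‖e‖ = 1 := by
    rw [he, norm_smul, norm_inv, norm_norm, inv_mul_cancel₀ hv0.ne']
  have hve : v = ‖v‖ • e := by rw [he, smul_smul, mul_inv_cancel₀ hv0.ne', one_smul]
  have hfun : ∀ ξ : Metric.sphere (0 : E n) 1, |(inner ℝ v (ξ : E n) : ℝ)| ^ s =
      ‖v‖ ^ s * |(inner ℝ e (ξ : E n) : ℝ)| ^ s := by
    intro ξ
    conv_lhs => rw [hve]
    rw [inner_smul_left, abs_mul]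
    simp only [conj_trivial, abs_norm]
    rw [Real.mul_rpow hv0.le (abs_nonneg _)]
  obtain ⟨h1, h2⟩ := hunit e hen
  simp only [hfun]
  refine ⟨h1.const_mul _, ?_⟩
  rw [integral_const_mul, h2, mul_comm]
  exact mul_le_mul_of_nonneg_right (le_abs_self _) (Real.rpow_nonneg hv0.le _)

end Pool.Agent.Lib.MP_9c48c1_an_h27
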