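import Mathlib
import Pool.Agent.Lib.MP_9c48c1_an.Defs
import Pool.Agent.Lib.MP_9c48c1_an_h27.Scale
import Pool.Agent.Lib.MP_9c48c1_an_h27.Sph

set_option autoImplicit false

/-! Homogeneity, bounds and the Lipschitz estimate for the first variation form. -/

namespace Pool.Agent.Lib.MP_9c48c1_an_h27

open MeasureTheory Set Filter Topology Pool.Agent.Lib.MP_9c48c1_an

variable {n : ℕ} {p : ℝ}

section lip

variable {V : Type*} [NormedAddCommGroup V] [InnerProductSpace ℝ V]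

lemma rpow_aux {s : ℝ} (hs : 0 ≤ s) (hp : 1 < p) (hp2 : p < 2) : |s ^ (p - 1) - s| ≤ |s - 1| := by
  rcases hs.eq_or_lt with h | h
  · rw [← h, Real.zero_rpow (by linarith)]
    simp
  · rcases le_total s 1 with h1 | h1
    · have e1 : s ≤ s ^ (p - 1) := by
        have := Real.rpow_le_rpow_of_exponent_ge h h1 (show p - 1 ≤ 1 by linarith)
        rwa [Real.rpow_one] at this
      have e2 : s ^ (p - 1) ≤ 1 := Real.rpow_le_one hs h1 (by linarith)
      rw [abs_of_nonneg (by linarith), abs_of_nonpos (by linarith)]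
      linarith
    · have e1 : s ^ (p - 1) ≤ s := by
        have := Real.rpow_le_rpow_of_exponent_le h1 (show p - 1 ≤ 1 by linarith)
        rwa [Real.rpow_one] at this
      have e2 : 1 ≤ s ^ (p - 1) := Real.one_le_rpow h1 (by linarith)
      rw [abs_of_nonpos (by linarith), abs_of_nonneg (by linarith)]
      linarith

/-- The map `v ↦ |v|^(p-2) v` is Lipschitz away from `0` when `1 < p < 2`. -/
lemma vec_lip (hp : 1 < p) (hp2 : p < 2) (a : V) {b : V} (hb : b ≠ 0) :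
    ‖‖a‖ ^ (p - 2) • a - ‖b‖ ^ (p - 2) • b‖ ≤ 2 * ‖b‖ ^ (p - 2) * ‖a - b‖ := by
  have hb0 : 0 < ‖b‖ := norm_pos_iff.2 hb
  have hB : 0 < ‖b‖ ^ (p - 2) := Real.rpow_pos_of_pos hb0 _
  have e0 : ‖a‖ ^ (p - 2) • a - ‖b‖ ^ (p - 2) • b =
      ‖b‖ ^ (p - 2) • (a - b) + (‖a‖ ^ (p - 2) - ‖b‖ ^ (p - 2)) • a := by
    rw [smul_sub, sub_smul]; abel
  have e1 : ‖(‖a‖ ^ (p - 2) - ‖b‖ ^ (p - 2)) • a‖ ≤ ‖b‖ ^ (p - 2) * ‖a - b‖ := by
    rw [norm_smul]
    by_cases ha : a = 0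
    · rw [ha, norm_zero, mul_zero]; positivity
    have ha0 : 0 < ‖a‖ := norm_pos_iff.2 ha
    obtain ⟨s, hs⟩ : ∃ s, s = ‖a‖ / ‖b‖ := ⟨_, rfl⟩
    have hs0 : 0 < s := hs ▸ div_pos ha0 hb0
    have has : ‖a‖ = s * ‖b‖ := by rw [hs]; field_simp
    have e2 : ‖a‖ ^ (p - 2) = s ^ (p - 2) * ‖b‖ ^ (p - 2) := by
      rw [has, Real.mul_rpow hs0.le hb0.le]
    have e3 : s ^ (p - 1) = s ^ (p - 2) * s := by
      rw [← Real.rpow_add_one hs0.ne']; congr 1; ring
    have e4 : ‖‖a‖ ^ (p - 2) - ‖b‖ ^ (p - 2)‖ * ‖a‖ = ‖b‖ ^ (p - 2) * (‖b‖ * |s ^ (p - 1) - s|) := by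
      rw [e2, has, Real.norm_eq_abs]
      have : s ^ (p - 2) * ‖b‖ ^ (p - 2) - ‖b‖ ^ (p - 2) = ‖b‖ ^ (p - 2) * (s ^ (p - 2) - 1) := by
        ring
      rw [this, abs_mul, abs_of_pos hB, e3]
      have h2 : s ^ (p - 2) * s - s = (s ^ (p - 2) - 1) * s := by ring
      rw [h2, abs_mul, abs_of_pos hs0]
      ring
    rw [e4]
    refine mul_le_mul_of_nonneg_left ?_ hB.le
    have e5 := rpow_aux hs0.le hp hp2
    have e6 : ‖b‖ * |s - 1| = |‖a‖ - ‖b‖| := by
      rw [has, ← abs_of_pos hb0, ← abs_mul, abs_of_pos hb0]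
      congr 1
      ring
    calc ‖b‖ * |s ^ (p - 1) - s| ≤ ‖b‖ * |s - 1| := mul_le_mul_of_nonneg_left e5 hb0.le
      _ = |‖a‖ - ‖b‖| := e6
      _ ≤ ‖a - b‖ := abs_norm_sub_norm_le a b
  rw [e0]
  refine (norm_add_le _ _).trans ?_
  rw [norm_smul, Real.norm_of_nonneg hB.le]
  linarith

end lip

lemma psi_lip (hp : 1 < p) (hp2 : p < 2) (a : ℝ) {b : ℝ} (hb : b ≠ 0) :
    |psi p a - psi p b| ≤ 2 * |b| ^ (p - 2) * |a - b| := by
  have := vec_lip (V := ℝ) hp hp2 a hb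
  simpa [psi, Real.norm_eq_abs] using this

lemma psi_smul {c : ℝ} (hc : 0 < c) (t : ℝ) : psi p (c * t) = c ^ (p - 1) * psi p t := by
  unfold psi
  rw [abs_mul, abs_of_pos hc, Real.mul_rpow hc.le (abs_nonneg _)]
  have : c ^ (p - 1) = c ^ (p - 2) * c := by
    rw [← Real.rpow_add_one hc.ne']; congr 1; ring
  rw [this]
  ring

lemma DD_smul {c : ℝ} (hc : 0 < c) (V w : E n → E n) (ξ : E n) :
    DD p (fun y => c • V y) w ξ = c ^ (p - 1) * DD p V w ξ := by
  unfold DD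
  rw [← integral_const_mul]
  refine integral_congr_ae (Eventually.of_forall fun y => ?_)
  simp only
  rw [inner_smul_left]
  simp only [conj_trivial]
  rw [psi_smul hc]
  ring

lemma GG_smul {c : ℝ} (hc : 0 < c) (V w : E n → E n) :
    GG p (fun y => c • V y) w = c ^ (p - 1) * GG p V w := by
  unfold GG
  rw [← integral_const_mul]
  refine integral_congr_ae (Eventually.of_forall fun y => ?_)
  simp only
  rw [inner_smul_left, norm_smul, Real.norm_of_nonneg hc.le, Real.mul_rpow hc.le (norm_nonneg _)]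
  simp only [conj_trivial]
  have : c ^ (p - 1) = c ^ (p - 2) * c := by
    rw [← Real.rpow_add_one hc.ne']; congr 1; ring
  rw [this]
  ring

lemma BB_smul {ρ : Metric.sphere (0 : E n) 1 → ℝ} {Z b : ℝ} {c : ℝ} (hc : 0 < c)
    (V w : E n → E n) :
    BB p ρ Z b (fun y => c • V y) w = c ^ (p - 1) * BB p ρ Z b V w := by
  unfold BB
  rw [GG_smul hc]
  have : (∫ ξ : Metric.sphere (0 : E n) 1, DD p (fun y => c • V y) w ξ * ρ ξ
      ∂(volume : Measure (E n)).toSphere) = c ^ (p - 1) * ∫ ξ : Metric.sphere (0 : E n) 1,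
        DD p V w ξ * ρ ξ ∂(volume : Measure (E n)).toSphere := by
    rw [← integral_const_mul]
    refine integral_congr_ae (Eventually.of_forall fun ξ => ?_)
    simp only
    rw [DD_smul hc]
    ring
  rw [this]
  ring

/-- Hyperplanes are null sets of the sphere. -/
lemma sphere_null (hn : 0 < n) {v : E n} (hv : v ≠ 0) :
    ∀ᵐ ξ : Metric.sphere (0 : E n) 1 ∂(volume : Measure (E n)).toSphere,
      (inner ℝ v (ξ : E n) : ℝ) ≠ 0 := by
  obtain ⟨S, hS⟩ : ∃ S : Submodule ℝ (E n), S = (ℝ ∙ v)ᗮ := ⟨_, rfl⟩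
  have hmem : ∀ x : E n, x ∈ S ↔ (inner ℝ v x : ℝ) = 0 := by
    intro x
    rw [hS, Submodule.mem_orthogonal_singleton_iff_inner_right]
  have hSne : S ≠ ⊤ := by
    intro h
    have : v ∈ S := by rw [h]; exact Submodule.mem_top
    rw [hmem, real_inner_self_eq_norm_sq] at this
    exact hv (norm_eq_zero.1 (pow_eq_zero_iff two_ne_zero |>.1 this))
  have hnull : (volume : Measure (E n)) (S : Set (E n)) = 0 := Measure.addHaar_submodule _ S hSne
  have hmeas : MeasurableSet (S : Set (E n)) :=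
    (Submodule.closed_of_finiteDimensional S).measurableSet
  obtain ⟨φ, hφ⟩ : ∃ φ : E n → ℝ, φ = (S : Set (E n)).indicator fun x => Real.exp (-‖x‖ ^ 2) :=
    ⟨_, rfl⟩
  have hae : φ =ᵐ[volume] 0 := by
    have : ∀ᵐ x ∂(volume : Measure (E n)), x ∉ (S : Set (E n)) := by
      rw [ae_iff]; simpa using hnull
    filter_upwards [this] with x hx
    rw [hφ, indicator_of_notMem hx]
    rfl
  have hint : Integrable φ := (integrable_zero _ _ _).congr hae.symm
  obtain ⟨h1, h2⟩ := polar_int hn hint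
  have h3 : ∫ x, φ x = 0 := by rw [integral_congr_ae hae]; simp
  rw [h3] at h2
  have hnn : ∀ ξ : Metric.sphere (0 : E n) 1,
      0 ≤ ∫ r in Ioi (0 : ℝ), r ^ (n - 1) * φ (r • (ξ : E n)) := by
    intro ξ
    refine setIntegral_nonneg measurableSet_Ioi fun r hr => ?_
    refine mul_nonneg (pow_nonneg (le_of_lt hr) _) ?_
    rw [hφ]
    exact indicator_nonneg (fun _ _ => (Real.exp_pos _).le) _
  have h4 := (integral_eq_zero_iff_of_nonneg hnn h1).1 h2.symm
  filter_upwards [h4] with ξ hξ hz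
  simp only [Pi.zero_apply] at hξ
  have h5 : ∀ r ∈ Ioi (0 : ℝ), r ^ (n - 1) * φ (r • (ξ : E n)) = r ^ (n - 1) * Real.exp (-r ^ 2) := by
    intro r hr
    have hin : r • (ξ : E n) ∈ (S : Set (E n)) := by
      show r • (ξ : E n) ∈ S
      rw [hmem, inner_smul_right, hz, mul_zero]
    rw [hφ, indicator_of_mem hin, norm_smul, norm_sphere ξ, mul_one, Real.norm_eq_abs, sq_abs]
  rw [setIntegral_congr_fun measurableSet_Ioi h5] at hξ
  have hi : IntegrableOn (fun r : ℝ => r ^ (n - 1) * Real.exp (-r ^ 2)) (Ioi 0) := by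
    have := integrableOn_rpow_mul_exp_neg_mul_sq one_pos (s := ((n - 1 : ℕ) : ℝ))
      (by have : (0 : ℝ) ≤ ((n - 1 : ℕ) : ℝ) := Nat.cast_nonneg _; linarith)
    refine this.congr_fun ?_ measurableSet_Ioi
    intro r _
    simp
  have hpos : 0 < ∫ r in Ioi (0 : ℝ), r ^ (n - 1) * Real.exp (-r ^ 2) := by
    refine (setIntegral_pos_iff_support_of_nonneg_ae ?_ hi).2 ?_
    · filter_upwards [ae_restrict_mem measurableSet_Ioi] with r hr
      exact mul_nonneg (pow_nonneg (le_of_lt hr) _) (Real.exp_pos _).le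
    · have : Function.support (fun r : ℝ => r ^ (n - 1) * Real.exp (-r ^ 2)) ∩ Ioi 0
          = Ioi 0 := by
        refine inter_eq_right.2 fun r hr => ?_
        exact (mul_pos (pow_pos hr _) (Real.exp_pos _)).ne'
      rw [this]
      simp
  linarith

end Pool.Agent.Lib.MP_9c48c1_an_h27
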