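import Mathlib
import Pool.Agent.Lib.MP_9c48c1_an.Defs
import Pool.Agent.Lib.MP_9c48c1_an_h27.Lip

set_option autoImplicit false

/-! Estimates for the first variation form `BB`. -/

namespace Pool.Agent.Lib.MP_9c48c1_an_h27

open MeasureTheory Set Filter Topology Pool.Agent.Lib.MP_9c48c1_an

variable {n : ℕ} {p : ℝ}

lemma abs_inner_sphere (v : E n) (ξ : Metric.sphere (0 : E n) 1) :
    |(inner ℝ v (ξ : E n) : ℝ)| ≤ ‖v‖ := by
  have h := norm_inner_le_norm (𝕜 := ℝ) v (ξ : E n)
  rwa [norm_sphere ξ, mul_one, Real.norm_eq_abs] at h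

lemma DD_abs_le (hp : 1 < p) {V w : E n → E n} (hw : Continuous w) (hwc : HasCompactSupport w)
    {s : ℝ} (hV : ∀ y, w y ≠ 0 → ‖V y‖ ≤ s) (ξ : Metric.sphere (0 : E n) 1) :
    |DD p V w ξ| ≤ s ^ (p - 1) * ∫ y, ‖w y‖ := by
  unfold DD
  rw [← Real.norm_eq_abs, ← integral_const_mul]
  refine (norm_integral_le_integral_norm _).trans ?_
  refine integral_mono_of_nonneg (Eventually.of_forall fun _ => norm_nonneg _)
    ((hw.norm.integrable_of_hasCompactSupport hwc.norm).const_mul _)
    (Eventually.of_forall fun y => ?_)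
  simp only
  by_cases h : w y = 0
  · rw [h, inner_zero_left, mul_zero, norm_zero, norm_zero, mul_zero]
  · have hV' := hV y h
    rw [norm_mul, Real.norm_eq_abs, Real.norm_eq_abs, abs_psi hp]
    refine mul_le_mul ?_ (abs_inner_sphere _ ξ) (abs_nonneg _)
      (Real.rpow_nonneg ((norm_nonneg _).trans hV') _)
    exact Real.rpow_le_rpow (abs_nonneg _) ((abs_inner_sphere _ ξ).trans hV') (by linarith)

lemma GG_abs_le (hp : 1 < p) {V w : E n → E n} (hw : Continuous w) (hwc : HasCompactSupport w)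
    {s : ℝ} (hV : ∀ y, w y ≠ 0 → ‖V y‖ ≤ s) :
    |GG p V w| ≤ s ^ (p - 1) * ∫ y, ‖w y‖ := by
  unfold GG
  rw [← Real.norm_eq_abs, ← integral_const_mul]
  refine (norm_integral_le_integral_norm _).trans ?_
  refine integral_mono_of_nonneg (Eventually.of_forall fun _ => norm_nonneg _)
    ((hw.norm.integrable_of_hasCompactSupport hwc.norm).const_mul _)
    (Eventually.of_forall fun y => ?_)
  simp only
  by_cases h : w y = 0
  · rw [h, inner_zero_right, mul_zero, norm_zero, norm_zero, mul_zero]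
  · have hV' := hV y h
    rw [norm_mul, Real.norm_of_nonneg (Real.rpow_nonneg (norm_nonneg _) _)]
    by_cases h0 : V y = 0
    · rw [h0, inner_zero_left]
      simp only [norm_zero, mul_zero]
      exact mul_nonneg (Real.rpow_nonneg ((norm_nonneg _).trans hV') _) (norm_nonneg _)
    · have hv0 : 0 < ‖V y‖ := norm_pos_iff.2 h0
      calc ‖V y‖ ^ (p - 2) * ‖(inner ℝ (V y) (w y) : ℝ)‖
          ≤ ‖V y‖ ^ (p - 2) * (‖V y‖ * ‖w y‖) :=
            mul_le_mul_of_nonneg_left (norm_inner_le_norm _ _) (Real.rpow_nonneg (norm_nonneg _) _)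
        _ = ‖V y‖ ^ (p - 1) * ‖w y‖ := by
            rw [← mul_assoc, ← Real.rpow_add_one hv0.ne']
            congr 2
            ring
        _ ≤ s ^ (p - 1) * ‖w y‖ := by
            refine mul_le_mul_of_nonneg_right ?_ (norm_nonneg _)
            exact Real.rpow_le_rpow (norm_nonneg _) hV' (by linarith)

/-- The size of the first variation form. -/
lemma BB_bound (hp : 1 < p) {ρ : Metric.sphere (0 : E n) 1 → ℝ} (hρ : Continuous ρ)
    (hρ0 : ∀ ξ, 0 ≤ ρ ξ) {Z b : ℝ} (hZ : 0 < Z) (hb : 0 < b) {w : E n → E n} (hw : Continuous w)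
    (hwc : HasCompactSupport w) :
    ∃ M : ℝ, 0 ≤ M ∧ ∀ (V : E n → E n) (s : ℝ), 0 ≤ s → (∀ y, w y ≠ 0 → ‖V y‖ ≤ s) →
      |BB p ρ Z b V w| ≤ s ^ (p - 1) * M := by
  have hρi : Integrable ρ (volume : Measure (E n)).toSphere :=
    hρ.integrable_of_hasCompactSupport (HasCompactSupport.of_compactSpace _)
  have hw0 : 0 ≤ ∫ y, ‖w y‖ := integral_nonneg fun _ => norm_nonneg _
  have hρ1 : 0 ≤ ∫ ξ, ρ ξ ∂(volume : Measure (E n)).toSphere := integral_nonneg hρ0
  refine ⟨(∫ y, ‖w y‖) * ((n : ℝ) * (∫ ξ, ρ ξ ∂(volume : Measure (E n)).toSphere) / Z + 1 / b),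
    by positivity, fun V s hs hV => ?_⟩
  have hsp : 0 ≤ s ^ (p - 1) := Real.rpow_nonneg hs _
  have h1 : |∫ ξ : Metric.sphere (0 : E n) 1, DD p V w ξ * ρ ξ
      ∂(volume : Measure (E n)).toSphere| ≤ s ^ (p - 1) * (∫ y, ‖w y‖) *
        ∫ ξ, ρ ξ ∂(volume : Measure (E n)).toSphere := by
    rw [← Real.norm_eq_abs, ← integral_const_mul]
    refine (norm_integral_le_integral_norm _).trans ?_
    refine integral_mono_of_nonneg (Eventually.of_forall fun _ => norm_nonneg _)
      (hρi.const_mul _) (Eventually.of_forall fun ξ => ?_)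
    simp only
    rw [norm_mul, Real.norm_eq_abs, Real.norm_of_nonneg (hρ0 ξ)]
    exact mul_le_mul_of_nonneg_right (DD_abs_le hp hw hwc hV ξ) (hρ0 ξ)
  have h2 := GG_abs_le hp hw hwc hV
  unfold BB
  refine (abs_sub _ _).trans ?_
  rw [abs_div, abs_div, abs_mul, abs_of_pos hZ, abs_of_pos hb, Nat.abs_cast]
  have h3 : (n : ℝ) * |∫ ξ : Metric.sphere (0 : E n) 1, DD p V w ξ * ρ ξ
      ∂(volume : Measure (E n)).toSphere| / Z ≤ (n : ℝ) * (s ^ (p - 1) * (∫ y, ‖w y‖) *
        ∫ ξ, ρ ξ ∂(volume : Measure (E n)).toSphere) / Z := by gcongr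
  have h4 : |GG p V w| / b ≤ s ^ (p - 1) * (∫ y, ‖w y‖) / b := by gcongr
  refine (add_le_add h3 h4).trans (le_of_eq ?_)
  ring

lemma DD_cont (hp : 1 < p) {V w : E n → E n} (hV : Continuous V) (hw : Continuous w)
    (hwc : HasCompactSupport w) :
    Continuous fun ξ : Metric.sphere (0 : E n) 1 => DD p V w ξ := by
  have h1 : ∀ ξ : Metric.sphere (0 : E n) 1, DD p V w ξ =
      ∫ y in tsupport w, psi p (inner ℝ (V y) (ξ : E n)) * inner ℝ (w y) (ξ : E n) := by
    intro ξ
    refine (setIntegral_eq_integral_of_forall_compl_eq_zero fun y hy => ?_).symm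
    rw [image_eq_zero_of_notMem_tsupport hy, inner_zero_left, mul_zero]
  simp only [h1]
  refine continuous_parametric_integral_of_continuous (f := fun (ξ : Metric.sphere (0 : E n) 1) y =>
    psi p (inner ℝ (V y) (ξ : E n)) * inner ℝ (w y) (ξ : E n)) ?_ hwc
  have hc1 : Continuous fun q : Metric.sphere (0 : E n) 1 × E n => (inner ℝ (V q.2) (q.1 : E n) : ℝ) :=
    (hV.comp continuous_snd).inner (continuous_subtype_val.comp continuous_fst)
  have hc2 : Continuous fun q : Metric.sphere (0 : E n) 1 × E n => (inner ℝ (w q.2) (q.1 : E n) : ℝ) :=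
    (hw.comp continuous_snd).inner (continuous_subtype_val.comp continuous_fst)
  exact ((psi_continuous hp).comp hc1).mul hc2

/-- The Lipschitz estimate for the first variation form. -/
lemma BB_lip (hn : 2 ≤ n) (hp : 1 < p) (hp2 : p < 2) {ρ : Metric.sphere (0 : E n) 1 → ℝ}
    (hρ : Continuous ρ) (hρ0 : ∀ ξ, 0 ≤ ρ ξ) {Z b : ℝ} (hZ : 0 < Z) (hb : 0 < b) {w P : E n → E n}
    (hw : Continuous w) (hwc : HasCompactSupport w) (hP : Continuous P) {c : ℝ} (hc : 0 < c)
    (hPc : ∀ y, w y ≠ 0 → c ≤ ‖P y‖) :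
    ∃ M : ℝ, 0 ≤ M ∧ ∀ (V : E n → E n) (s : ℝ), Continuous V → 0 ≤ s →
      (∀ y, w y ≠ 0 → ‖V y - P y‖ ≤ s) → |BB p ρ Z b V w - BB p ρ Z b P w| ≤ M * s := by
  have hn0 : 0 < n := by omega
  obtain ⟨K, hK0, hK⟩ := sph_int hn (s := p - 2) (by linarith)
  obtain ⟨ρm, hρm⟩ : ∃ ρm, ∀ ξ, ρ ξ ≤ ρm := by
    obtain ⟨B, hB⟩ := (isCompact_univ.image hρ).bddAbove
    exact ⟨B, fun ξ => hB ⟨ξ, mem_univ _, rfl⟩⟩
  have hn1 : Nontrivial (E n) := Module.nontrivial_of_finrank_pos (R := ℝ) (by simpa using hn0)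
  obtain ⟨ξ₁⟩ : Nonempty (Metric.sphere (0 : E n) 1) := by
    obtain ⟨ξ, hξ⟩ := exists_norm_eq (E n) (zero_le_one)
    exact ⟨⟨ξ, by simpa using hξ⟩⟩
  have hρm0 : 0 ≤ ρm := (hρ0 ξ₁).trans (hρm ξ₁)
  obtain ⟨W, hW⟩ : ∃ W, W = ∫ y, ‖w y‖ := ⟨_, rfl⟩
  have hW0 : 0 ≤ W := hW ▸ integral_nonneg fun _ => norm_nonneg _
  have hwi : Integrable fun y => ‖w y‖ := hw.norm.integrable_of_hasCompactSupport hwc.norm
  have hcp : 0 < c ^ (p - 2) := Real.rpow_pos_of_pos hc _
  refine ⟨(n : ℝ) * (ρm * (2 * K * c ^ (p - 2) * W)) / Z + 2 * c ^ (p - 2) * W / b, by positivity,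
    fun V s hV hs hVP => ?_⟩
  -- pointwise facts
  have hPne : ∀ y, w y ≠ 0 → P y ≠ 0 := fun y hy => by
    have := hPc y hy
    exact norm_pos_iff.1 (lt_of_lt_of_le hc this)
  have hPp : ∀ y, w y ≠ 0 → ‖P y‖ ^ (p - 2) ≤ c ^ (p - 2) := fun y hy =>
    Real.rpow_le_rpow_of_nonpos hc (hPc y hy) (by linarith)
  -- the spherical part
  obtain ⟨H, hH⟩ : ∃ H : E n × Metric.sphere (0 : E n) 1 → ℝ, H = fun q =>
    |psi p (inner ℝ (V q.1) (q.2 : E n)) - psi p (inner ℝ (P q.1) (q.2 : E n))| * ‖w q.1‖ :=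
    ⟨_, rfl⟩
  have hcI : ∀ {F : E n → E n}, Continuous F →
      Continuous fun q : E n × Metric.sphere (0 : E n) 1 => (inner ℝ (F q.1) (q.2 : E n) : ℝ) :=
    fun hF => (hF.comp continuous_fst).inner (continuous_subtype_val.comp continuous_snd)
  have hHc : Continuous H := by
    rw [hH]
    exact ((((psi_continuous hp).comp (hcI hV)).sub ((psi_continuous hp).comp (hcI hP))).abs).mul
      ((hw.comp continuous_fst).norm)
  have hHcs : HasCompactSupport H := by
    refine HasCompactSupport.of_support_subset_isCompact (hwc.isCompact.prod isCompact_univ) ?_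
    intro q hq
    refine ⟨subset_tsupport w ?_, mem_univ _⟩
    simp only [Function.mem_support] at hq ⊢
    intro h
    apply hq
    rw [hH]
    simp [h]
  have hHi : Integrable H ((volume : Measure (E n)).prod (volume : Measure (E n)).toSphere) :=
    hHc.integrable_of_hasCompactSupport hHcs
  have hinner : ∀ y, ∫ ξ, H (y, ξ) ∂(volume : Measure (E n)).toSphere ≤
      2 * K * c ^ (p - 2) * s * ‖w y‖ := by
    intro y
    by_cases h : w y = 0
    · have : ∀ ξ, H (y, ξ) = 0 := fun ξ => by rw [hH]; simp [h]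
      simp only [this, integral_zero, h, norm_zero, mul_zero, le_refl]
    · obtain ⟨hi, hle⟩ := hK (P y) (hPne y h)
      have h5 : ∫ ξ, H (y, ξ) ∂(volume : Measure (E n)).toSphere ≤
          ∫ ξ : Metric.sphere (0 : E n) 1, 2 * s * ‖w y‖ * |(inner ℝ (P y) (ξ : E n) : ℝ)| ^ (p - 2)
            ∂(volume : Measure (E n)).toSphere := by
        refine integral_mono_of_nonneg (Eventually.of_forall fun ξ => ?_) (hi.const_mul _) ?_
        · rw [hH]; positivity
        · filter_upwards [sphere_null hn0 (hPne y h)] with ξ hξ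
          rw [hH]
          simp only
          have e1 := psi_lip hp hp2 (inner ℝ (V y) (ξ : E n) : ℝ) hξ
          have e2 : |(inner ℝ (V y) (ξ : E n) : ℝ) - inner ℝ (P y) (ξ : E n)| ≤ s := by
            rw [← inner_sub_left]
            exact (abs_inner_sphere _ ξ).trans (hVP y h)
          have e3 : 0 ≤ |(inner ℝ (P y) (ξ : E n) : ℝ)| ^ (p - 2) := Real.rpow_nonneg (abs_nonneg _) _
          calc |psi p (inner ℝ (V y) (ξ : E n)) - psi p (inner ℝ (P y) (ξ : E n))| * ‖w y‖
              ≤ (2 * |(inner ℝ (P y) (ξ : E n) : ℝ)| ^ (p - 2) * s) * ‖w y‖ := by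
                refine mul_le_mul_of_nonneg_right (e1.trans ?_) (norm_nonneg _)
                exact mul_le_mul_of_nonneg_left e2 (by positivity)
            _ = 2 * s * ‖w y‖ * |(inner ℝ (P y) (ξ : E n) : ℝ)| ^ (p - 2) := by ring
      refine h5.trans ?_
      rw [integral_const_mul]
      have h6 : ∫ ξ : Metric.sphere (0 : E n) 1, |(inner ℝ (P y) (ξ : E n) : ℝ)| ^ (p - 2)
            ∂(volume : Measure (E n)).toSphere ≤ K * c ^ (p - 2) :=
        hle.trans (mul_le_mul_of_nonneg_left (hPp y h) hK0)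
      calc 2 * s * ‖w y‖ * ∫ ξ : Metric.sphere (0 : E n) 1, |(inner ℝ (P y) (ξ : E n) : ℝ)| ^ (p - 2)
            ∂(volume : Measure (E n)).toSphere ≤ 2 * s * ‖w y‖ * (K * c ^ (p - 2)) :=
            mul_le_mul_of_nonneg_left h6 (by positivity)
        _ = 2 * K * c ^ (p - 2) * s * ‖w y‖ := by ring
  have hdiff : ∀ ξ : Metric.sphere (0 : E n) 1, |DD p V w ξ - DD p P w ξ| ≤ ∫ y, H (y, ξ) := by
    intro ξ
    have hi1 : ∀ {F : E n → E n}, Continuous F →
        Integrable fun y => psi p (inner ℝ (F y) (ξ : E n)) * (inner ℝ (w y) (ξ : E n) : ℝ) := by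
      intro F hF
      refine Continuous.integrable_of_hasCompactSupport ?_ ?_
      · exact ((psi_continuous hp).comp (hF.inner continuous_const)).mul (hw.inner continuous_const)
      · exact (hwc.comp_left (g := fun v : E n => (inner ℝ v (ξ : E n) : ℝ)) (by simp)).mul_left
    unfold DD
    rw [← integral_sub (hi1 hV) (hi1 hP), ← Real.norm_eq_abs]
    refine (norm_integral_le_integral_norm _).trans ?_
    refine integral_mono_of_nonneg (Eventually.of_forall fun _ => norm_nonneg _) ?_
      (Eventually.of_forall fun y => ?_)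
    · refine Continuous.integrable_of_hasCompactSupport (hHc.comp (by fun_prop)) ?_
      refine HasCompactSupport.of_support_subset_isCompact hwc.isCompact ?_
      intro y hy
      refine subset_tsupport w ?_
      simp only [Function.mem_support] at hy ⊢
      intro h
      apply hy
      rw [hH]
      simp [h]
    · simp only
      rw [← sub_mul, norm_mul, Real.norm_eq_abs, Real.norm_eq_abs, hH]
      exact mul_le_mul_of_nonneg_left (abs_inner_sphere _ ξ) (abs_nonneg _)
  have hsw : ∫ ξ, ∫ y, H (y, ξ) ∂(volume : Measure (E n)) ∂(volume : Measure (E n)).toSphere =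
      ∫ y, ∫ ξ, H (y, ξ) ∂(volume : Measure (E n)).toSphere :=
    (integral_integral_swap (f := fun (y : E n) (ξ : Metric.sphere (0 : E n) 1) => H (y, ξ)) hHi).symm
  have hIy : Integrable (fun ξ : Metric.sphere (0 : E n) 1 => ∫ y, H (y, ξ))
      (volume : Measure (E n)).toSphere := hHi.integral_prod_right
  have htot : ∫ ξ, ∫ y, H (y, ξ) ∂(volume : Measure (E n)) ∂(volume : Measure (E n)).toSphere ≤
      2 * K * c ^ (p - 2) * W * s := by
    rw [hsw]
    have : ∫ y, ∫ ξ, H (y, ξ) ∂(volume : Measure (E n)).toSphere ≤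
        ∫ y, 2 * K * c ^ (p - 2) * s * ‖w y‖ :=
      integral_mono_of_nonneg (Eventually.of_forall fun y => integral_nonneg fun ξ => by
        rw [hH]; positivity) (hwi.const_mul _) (Eventually.of_forall hinner)
    refine this.trans (le_of_eq ?_)
    rw [integral_const_mul, ← hW]
    ring
  have hDi : ∀ {F : E n → E n}, Continuous F →
      Integrable (fun ξ : Metric.sphere (0 : E n) 1 => DD p F w ξ * ρ ξ)
        (volume : Measure (E n)).toSphere := fun hF =>
    ((DD_cont hp hF hw hwc).mul hρ).integrable_of_hasCompactSupport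
      (HasCompactSupport.of_compactSpace _)
  have hA : |(∫ ξ : Metric.sphere (0 : E n) 1, DD p V w ξ * ρ ξ ∂(volume : Measure (E n)).toSphere) -
      ∫ ξ : Metric.sphere (0 : E n) 1, DD p P w ξ * ρ ξ ∂(volume : Measure (E n)).toSphere| ≤
      ρm * (2 * K * c ^ (p - 2) * W * s) := by
    rw [← integral_sub (hDi hV) (hDi hP), ← Real.norm_eq_abs]
    refine (norm_integral_le_integral_norm _).trans ?_
    refine (integral_mono_of_nonneg (Eventually.of_forall fun _ => norm_nonneg _)
      (hIy.const_mul ρm) (Eventually.of_forall fun ξ => ?_)).trans ?_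
    · simp only
      rw [← sub_mul, norm_mul, Real.norm_eq_abs, Real.norm_of_nonneg (hρ0 ξ), mul_comm]
      exact mul_le_mul (hρm ξ) (hdiff ξ) (abs_nonneg _) hρm0
    · rw [integral_const_mul]
      exact mul_le_mul_of_nonneg_left htot hρm0
  have hG : |GG p V w - GG p P w| ≤ 2 * c ^ (p - 2) * W * s := by
    have hcont : ∀ {F : E n → E n}, Continuous F → Continuous fun y => ‖F y‖ ^ (p - 2) • F y := by
      intro F hF
      have h1 : Continuous fun v : E n => ‖v‖ ^ (p - 2) • v := by
        rw [continuous_iff_continuousAt]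
        intro v
        by_cases hv : v = 0
        · rw [hv]
          have h2 : Tendsto (fun v : E n => ‖v‖ ^ (p - 1)) (𝓝 0) (𝓝 0) := by
            have : ContinuousAt (fun v : E n => ‖v‖ ^ (p - 1)) 0 :=
              continuous_norm.continuousAt.rpow_const (Or.inr (by linarith))
            have h3 := this.tendsto
            simpa [Real.zero_rpow (by linarith : p - 1 ≠ 0)] using h3
          have h4 : (fun v : E n => ‖v‖ ^ (p - 2) • v) 0 = 0 := by simp
          unfold ContinuousAt
          rw [h4, tendsto_zero_iff_norm_tendsto_zero]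
          refine h2.congr fun v => ?_
          rw [norm_smul, Real.norm_of_nonneg (Real.rpow_nonneg (norm_nonneg _) _)]
          by_cases h0 : v = 0
          · rw [h0, norm_zero, Real.zero_rpow (by linarith), mul_zero]
          · rw [← Real.rpow_add_one (norm_pos_iff.2 h0).ne']
            congr 1
            ring
        · exact (continuous_norm.continuousAt.rpow_const
            (Or.inl (norm_pos_iff.2 hv).ne')).smul continuousAt_id
      exact h1.comp hF
    have hi2 : ∀ {F : E n → E n}, Continuous F →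
        Integrable fun y => ‖F y‖ ^ (p - 2) * (inner ℝ (F y) (w y) : ℝ) := by
      intro F hF
      have e : (fun y => ‖F y‖ ^ (p - 2) * (inner ℝ (F y) (w y) : ℝ)) =
          fun y => (inner ℝ (‖F y‖ ^ (p - 2) • F y) (w y) : ℝ) := by
        funext y
        rw [inner_smul_left]
        simp
      rw [e]
      refine Continuous.integrable_of_hasCompactSupport ((hcont hF).inner hw) ?_
      refine HasCompactSupport.of_support_subset_isCompact hwc.isCompact ?_
      intro y hy
      refine subset_tsupport w ?_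
      simp only [Function.mem_support] at hy ⊢
      intro h
      exact hy (by rw [h, inner_zero_right])
    unfold GG
    rw [← integral_sub (hi2 hV) (hi2 hP), ← Real.norm_eq_abs]
    refine (norm_integral_le_integral_norm _).trans ?_
    refine (integral_mono_of_nonneg (Eventually.of_forall fun _ => norm_nonneg _)
      (hwi.const_mul (2 * c ^ (p - 2) * s)) (Eventually.of_forall fun y => ?_)).trans (le_of_eq ?_)
    · simp only
      by_cases h : w y = 0
      · simp [h]
      · have e : ‖V y‖ ^ (p - 2) * (inner ℝ (V y) (w y) : ℝ) - ‖P y‖ ^ (p - 2) * (inner ℝ (P y) (w y) : ℝ)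
            = (inner ℝ (‖V y‖ ^ (p - 2) • V y - ‖P y‖ ^ (p - 2) • P y) (w y) : ℝ) := by
          rw [inner_sub_left, inner_smul_left, inner_smul_left]
          simp
        rw [e]
        refine (norm_inner_le_norm _ _).trans ?_
        refine mul_le_mul_of_nonneg_right ?_ (norm_nonneg _)
        refine (vec_lip hp hp2 (V y) (hPne y h)).trans ?_
        have := mul_le_mul (hPp y h) (hVP y h) (norm_nonneg _) hcp.le
        linarith
    · rw [integral_const_mul, ← hW]
      ring
  unfold BB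
  have e : (n : ℝ) * (∫ ξ : Metric.sphere (0 : E n) 1, DD p V w ξ * ρ ξ
      ∂(volume : Measure (E n)).toSphere) / Z - GG p V w / b -
      ((n : ℝ) * (∫ ξ : Metric.sphere (0 : E n) 1, DD p P w ξ * ρ ξ
      ∂(volume : Measure (E n)).toSphere) / Z - GG p P w / b) =
      (n : ℝ) * ((∫ ξ : Metric.sphere (0 : E n) 1, DD p V w ξ * ρ ξ
      ∂(volume : Measure (E n)).toSphere) - ∫ ξ : Metric.sphere (0 : E n) 1, DD p P w ξ * ρ ξ
      ∂(volume : Measure (E n)).toSphere) / Z - (GG p V w - GG p P w) / b := by ring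
  rw [e]
  refine (abs_sub _ _).trans ?_
  rw [abs_div, abs_div, abs_mul, abs_of_pos hZ, abs_of_pos hb, Nat.abs_cast]
  have h3 : (n : ℝ) * |(∫ ξ : Metric.sphere (0 : E n) 1, DD p V w ξ * ρ ξ
      ∂(volume : Measure (E n)).toSphere) - ∫ ξ : Metric.sphere (0 : E n) 1, DD p P w ξ * ρ ξ
      ∂(volume : Measure (E n)).toSphere| / Z ≤ (n : ℝ) * (ρm * (2 * K * c ^ (p - 2) * W * s)) / Z := by
    gcongr
  have h4 : |GG p V w - GG p P w| / b ≤ 2 * c ^ (p - 2) * W * s / b := by gcongr
  refine (add_le_add h3 h4).trans (le_of_eq ?_)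
  ring

end Pool.Agent.Lib.MP_9c48c1_an_h27
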