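import Mathlib
import Pool.Agent.Lib.MP_9c48c1_an.Defs
import Pool.Agent.Lib.MP_9c48c1_an_h27.Bnd

set_option autoImplicit false

/-! The blow-up arguments. -/

namespace Pool.Agent.Lib.MP_9c48c1_an_h27

open MeasureTheory Set Filter Topology Pool.Agent.Lib.MP_9c48c1_an

variable {n : ℕ} {p : ℝ}

lemma FF_tendsto (hp : 1 < p) {f' φ : E n → ℝ} (hf : Continuous f') (hφ : Continuous φ)
    (hφc : HasCompactSupport φ) (x₀ : E n) :
    Tendsto (fun r : ℝ => FF p (fun y => f' (x₀ + r • y)) φ) (𝓝 0)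
      (𝓝 (psi p (f' x₀) * ∫ y, φ y)) := by
  have h1 : ∀ r : ℝ, FF p (fun y => f' (x₀ + r • y)) φ =
      ∫ y in tsupport φ, psi p (f' (x₀ + r • y)) * φ y := by
    intro r
    refine (setIntegral_eq_integral_of_forall_compl_eq_zero fun y hy => ?_).symm
    rw [image_eq_zero_of_notMem_tsupport hy, mul_zero]
  have h2 : Continuous fun r : ℝ => ∫ y in tsupport φ, psi p (f' (x₀ + r • y)) * φ y := by
    refine continuous_parametric_integral_of_continuous (f := fun (r : ℝ) y =>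
      psi p (f' (x₀ + r • y)) * φ y) ?_ hφc
    exact ((psi_continuous hp).comp (hf.comp (by fun_prop))).mul (hφ.comp continuous_snd)
  have h3 := h2.tendsto 0
  simp only [← h1] at h3
  have h4 : FF p (fun y => f' (x₀ + (0 : ℝ) • y)) φ = psi p (f' x₀) * ∫ y, φ y := by
    unfold FF
    rw [← integral_const_mul]
    simp
  rwa [h4] at h3

lemma psi_ne_zero (hp : 1 < p) {t : ℝ} (ht : t ≠ 0) : psi p t ≠ 0 := by
  intro h
  have h1 := abs_psi hp t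
  rw [h, abs_zero] at h1
  exact (Real.rpow_pos_of_pos (abs_pos.2 ht) (p - 1)).ne' h1.symm

/-- The scaled Euler-Lagrange equation, as an abstract hypothesis. -/
structure ScEL (p : ℝ) (ρ : Metric.sphere (0 : E n) 1 → ℝ) (Z b a₀ ρ₀ : ℝ) (F : E n → E n)
    (f' : E n → ℝ) (x₀ : E n) : Prop where
  cρ : Continuous ρ
  nρ : ∀ ξ, 0 ≤ ρ ξ
  hZ : 0 < Z
  hb : 0 < b
  ha : a₀ ≠ 0
  hρ : 0 < ρ₀
  cF : Continuous F
  cf : Continuous f'
  ne : f' x₀ ≠ 0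
  el : ∀ (φ : E n → ℝ) (R r : ℝ), ContDiff ℝ 1 φ → tsupport φ ⊆ Metric.closedBall 0 R →
    0 < r → r * R < ρ₀ → BB p ρ Z b (fun y => F (x₀ + r • y)) (gradient φ) =
      r * (a₀ * FF p (fun y => f' (x₀ + r • y)) φ)

lemma mem_closedBall_of_grad {φ : E n → ℝ} {c : E n} {R : ℝ} (hs : tsupport φ ⊆ Metric.closedBall c R)
    {y : E n} (hy : gradient φ y ≠ 0) : ‖y - c‖ ≤ R := by
  have := hs (ne_zero_mem_tsupport hy)
  rwa [Metric.mem_closedBall, dist_eq_norm] at this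

/-- If the gradient is `o(r^(1/(p-1)))` at the critical point, we get a contradiction. -/
lemma blow_small (hp : 1 < p) {ρ : Metric.sphere (0 : E n) 1 → ℝ} {Z b a₀ ρ₀ : ℝ}
    {F : E n → E n} {f' : E n → ℝ} {x₀ : E n} (S : ScEL p ρ Z b a₀ ρ₀ F f' x₀)
    (hsm : ∀ ε : ℝ, 0 < ε → ∃ δ : ℝ, 0 < δ ∧ ∀ r : ℝ, 0 < r → r < δ → ∀ y : E n, ‖y‖ ≤ 1 →
      ‖F (x₀ + r • y)‖ ≤ ε * r ^ (1 / (p - 1))) : False := by
  have hp1 : 0 < p - 1 := by linarith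
  obtain ⟨φ, hφ⟩ : ∃ φ : ContDiffBump (0 : E n), φ.rOut = 1 :=
    ⟨⟨1 / 2, 1, by norm_num, by norm_num⟩, rfl⟩
  have hφ1 : ContDiff ℝ 1 φ := φ.contDiff
  have hφc : HasCompactSupport φ := φ.hasCompactSupport
  have hs : tsupport φ ⊆ Metric.closedBall 0 1 := by rw [φ.tsupport_eq, hφ]
  obtain ⟨M, hM0, hM⟩ := BB_bound hp S.cρ S.nρ S.hZ S.hb (gradient_cont hφ1) (gradient_hcs hφc)
  have hlim := FF_tendsto hp S.cf hφ1.continuous hφc x₀
  have hlim2 : Tendsto (fun r : ℝ => |a₀ * FF p (fun y => f' (x₀ + r • y)) φ|) (𝓝[>] 0)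
      (𝓝 |a₀ * (psi p (f' x₀) * ∫ y, φ y)|) :=
    ((hlim.const_mul a₀).abs).mono_left nhdsWithin_le_nhds
  have hφi : 0 < ∫ y, φ y := φ.integral_pos
  have hL : 0 < |a₀ * (psi p (f' x₀) * ∫ y, φ y)| := by
    rw [abs_pos]
    exact mul_ne_zero S.ha (mul_ne_zero (psi_ne_zero hp S.ne) hφi.ne')
  obtain ⟨L, hLdef⟩ : ∃ L, L = |a₀ * (psi p (f' x₀) * ∫ y, φ y)| := ⟨_, rfl⟩
  rw [← hLdef] at hL hlim2
  have hle : ∀ ε : ℝ, 0 < ε → L ≤ ε ^ (p - 1) * M := by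
    intro ε hε
    obtain ⟨δ, hδ, hδ'⟩ := hsm ε hε
    refine le_of_tendsto hlim2 ?_
    have hmem : Ioo (0 : ℝ) (min δ ρ₀) ∈ 𝓝[>] (0 : ℝ) := Ioo_mem_nhdsGT (lt_min hδ S.hρ)
    filter_upwards [hmem] with r hr
    have hr0 : 0 < r := hr.1
    have h1 := S.el φ 1 r hφ1 hs hr0 (by rw [mul_one]; exact lt_of_lt_of_le hr.2 (min_le_right _ _))
    have h2 := hM (fun y => F (x₀ + r • y)) (ε * r ^ (1 / (p - 1))) (by positivity) (fun y hy => by
      refine hδ' r hr0 (lt_of_lt_of_le hr.2 (min_le_left _ _)) y ?_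
      have := mem_closedBall_of_grad hs hy
      rwa [sub_zero] at this)
    rw [h1, abs_mul, abs_of_pos hr0, Real.mul_rpow hε.le (Real.rpow_nonneg hr0.le _),
      ← Real.rpow_mul hr0.le, one_div_mul_cancel hp1.ne', Real.rpow_one] at h2
    have h3 : r * |a₀ * FF p (fun y => f' (x₀ + r • y)) φ| ≤ r * (ε ^ (p - 1) * M) := by
      refine h2.trans (le_of_eq ?_)
      ring
    exact le_of_mul_le_mul_left h3 hr0
  have hlim3 : Tendsto (fun ε : ℝ => ε ^ (p - 1) * M) (𝓝[>] 0) (𝓝 0) := by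
    have h1 : ContinuousAt (fun ε : ℝ => ε ^ (p - 1)) 0 :=
      Real.continuousAt_rpow_const 0 (p - 1) (Or.inr hp1.le)
    have h2 := h1.tendsto
    rw [Real.zero_rpow hp1.ne'] at h2
    have h3 := (h2.mono_left (nhdsWithin_le_nhds (s := Ioi 0))).mul_const M
    rwa [zero_mul] at h3
  have : L ≤ 0 := by
    refine ge_of_tendsto hlim3 ?_
    filter_upwards [self_mem_nhdsWithin] with ε hε using hle ε hε
  linarith

/-- If the gradient has a nonzero leading term of order `k < 1/(p-1)` with a remainder of order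
`k + 1`, we get a contradiction. -/
lemma blow_large (hn : 2 ≤ n) (hp : 1 < p) {ρ : Metric.sphere (0 : E n) 1 → ℝ} {Z b a₀ ρ₀ : ℝ}
    {F : E n → E n} {f' : E n → ℝ} {x₀ : E n} (S : ScEL p ρ Z b a₀ ρ₀ F f' x₀) {k : ℕ}
    (hk : 0 < k) (hk1 : (k : ℝ) * (p - 1) < 1) {P : E n → E n} (hP : Continuous P) {y₀ : E n}
    (hy₀ : P y₀ ≠ 0) {C δ : ℝ} (hδ : 0 < δ)
    (hexp : ∀ r : ℝ, 0 < r → r < δ → ∀ y : E n, ‖y‖ ≤ ‖y₀‖ + 1 →
      ‖F (x₀ + r • y) - r ^ k • P y‖ ≤ C * r ^ (k + 1)) : False := by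
  have hp1 : 0 < p - 1 := by linarith
  have hk0 : (1 : ℝ) ≤ k := by exact_mod_cast hk
  have hp2 : p < 2 := by nlinarith
  have hkp : 0 < (k : ℝ) * (p - 1) := by positivity
  -- a small ball on which `P` is bounded below
  obtain ⟨η, hη, hη'⟩ : ∃ η > 0, ∀ y : E n, ‖y - y₀‖ ≤ η → ‖P y₀‖ / 2 ≤ ‖P y‖ := by
    have h1 : ∀ᶠ y in 𝓝 y₀, ‖P y₀‖ / 2 < ‖P y‖ :=
      hP.norm.continuousAt.eventually (lt_mem_nhds (by
        have := norm_pos_iff.2 hy₀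
        linarith))
    obtain ⟨η, hη, h2⟩ := Metric.eventually_nhds_iff_ball.1 h1
    refine ⟨η / 2, by positivity, fun y hy => (h2 y ?_).le⟩
    rw [Metric.mem_ball, dist_eq_norm]
    linarith
  obtain ⟨c, hc⟩ : ∃ c, c = ‖P y₀‖ / 2 := ⟨_, rfl⟩
  have hc0 : 0 < c := by rw [hc]; exact half_pos (norm_pos_iff.2 hy₀)
  obtain ⟨ζ, hζ⟩ : ∃ ζ, ζ = min η 1 := ⟨_, rfl⟩
  have hζ0 : 0 < ζ := hζ ▸ lt_min hη one_pos
  obtain ⟨φ, hφ⟩ : ∃ φ : ContDiffBump y₀, φ.rOut = ζ :=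
    ⟨⟨ζ / 2, ζ, by positivity, by linarith⟩, rfl⟩
  have hφ1 : ContDiff ℝ 1 φ := φ.contDiff
  have hφc : HasCompactSupport φ := φ.hasCompactSupport
  have hs : tsupport φ ⊆ Metric.closedBall y₀ ζ := by rw [φ.tsupport_eq, hφ]
  have hs' : tsupport φ ⊆ Metric.closedBall 0 (‖y₀‖ + 1) := by
    refine hs.trans fun y hy => ?_
    rw [Metric.mem_closedBall, dist_eq_norm] at hy
    rw [mem_closedBall_zero_iff]
    have h1 : ‖y‖ ≤ ‖y - y₀‖ + ‖y₀‖ := by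
      have := norm_add_le (y - y₀) y₀
      rwa [sub_add_cancel] at this
    have h2 : ζ ≤ 1 := hζ ▸ min_le_right _ _
    linarith
  have hw := gradient_cont hφ1
  have hwc := gradient_hcs hφc
  have hPc : ∀ y, gradient φ y ≠ 0 → c ≤ ‖P y‖ := by
    intro y hy
    have h1 := mem_closedBall_of_grad hs hy
    rw [hc]
    exact hη' y (h1.trans (hζ ▸ min_le_left _ _))
  obtain ⟨M, hM0, hM⟩ := BB_lip hn hp hp2 S.cρ S.nρ S.hZ S.hb hw hwc hP hc0 hPc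
  have hφi : 0 < ∫ y, φ y := φ.integral_pos
  have hlim := FF_tendsto hp S.cf hφ1.continuous hφc x₀
  obtain ⟨L, hL⟩ : ∃ L, L = a₀ * (psi p (f' x₀) * ∫ y, φ y) := ⟨_, rfl⟩
  have hL0 : L ≠ 0 := by
    rw [hL]
    exact mul_ne_zero S.ha (mul_ne_zero (psi_ne_zero hp S.ne) hφi.ne')
  obtain ⟨cr, hcr⟩ : ∃ cr : ℝ → ℝ, cr = fun r => a₀ * FF p (fun y => f' (x₀ + r • y)) φ := ⟨_, rfl⟩
  have hcrlim : Tendsto cr (𝓝[>] 0) (𝓝 L) := by
    rw [hcr, hL]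
    exact (hlim.const_mul a₀).mono_left nhdsWithin_le_nhds
  obtain ⟨B0, hB0⟩ : ∃ B0, B0 = BB p ρ Z b P (gradient φ) := ⟨_, rfl⟩
  obtain ⟨C', hC', hCC⟩ : ∃ C' : ℝ, 0 ≤ C' ∧ C ≤ C' := ⟨|C|, abs_nonneg _, le_abs_self _⟩
  -- the main estimate
  have hmain : ∀ᶠ r : ℝ in 𝓝[>] 0, |r ^ (1 - (k : ℝ) * (p - 1)) * cr r - B0| ≤ M * (C' * r) := by
    obtain ⟨δ', hδ'⟩ : ∃ δ', δ' = min δ (ρ₀ / (‖y₀‖ + 2)) := ⟨_, rfl⟩
    have hy2 : 0 < ‖y₀‖ + 2 := by positivity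
    have hδ'0 : 0 < δ' := hδ' ▸ lt_min hδ (div_pos S.hρ hy2)
    have hmem : Ioo (0 : ℝ) δ' ∈ 𝓝[>] (0 : ℝ) := Ioo_mem_nhdsGT hδ'0
    filter_upwards [hmem] with r hr
    have hr0 : 0 < r := hr.1
    have hrR : r * (‖y₀‖ + 1) < ρ₀ := by
      have h1 : r < ρ₀ / (‖y₀‖ + 2) := lt_of_lt_of_le hr.2 (hδ' ▸ min_le_right _ _)
      rw [lt_div_iff₀ hy2] at h1
      nlinarith
    have h1 := S.el φ (‖y₀‖ + 1) r hφ1 hs' hr0 hrR
    obtain ⟨W, hW⟩ : ∃ W : E n → E n, W = fun y => (r ^ k)⁻¹ • F (x₀ + r • y) := ⟨_, rfl⟩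
    have hrk : 0 < r ^ k := pow_pos hr0 k
    have hVW : (fun y => F (x₀ + r • y)) = fun y => (r ^ k) • W y := by
      funext y
      rw [hW, smul_smul, mul_inv_cancel₀ hrk.ne', one_smul]
    rw [hVW, BB_smul hrk] at h1
    have hWc : Continuous W := by
      have h3 : Continuous fun y : E n => F (x₀ + r • y) := S.cF.comp (by fun_prop)
      have h4 : Continuous fun y : E n => ((r ^ k)⁻¹ : ℝ) • F (x₀ + r • y) :=
        h3.const_smul ((r ^ k)⁻¹ : ℝ)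
      rw [hW]
      exact h4
    have h2 := hM W (C' * r) hWc (by positivity) (fun y hy => by
      have h3 : ‖y‖ ≤ ‖y₀‖ + 1 := by
        have := mem_closedBall_of_grad hs' hy
        rwa [sub_zero] at this
      have h4 := hexp r hr0 (lt_of_lt_of_le hr.2 (hδ' ▸ min_le_left _ _)) y h3
      have h5 : W y - P y = (r ^ k)⁻¹ • (F (x₀ + r • y) - r ^ k • P y) := by
        rw [smul_sub, smul_smul, inv_mul_cancel₀ hrk.ne', one_smul, hW]
      rw [h5, norm_smul, norm_inv, Real.norm_of_nonneg hrk.le, inv_mul_le_iff₀ hrk]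
      refine h4.trans ?_
      rw [pow_succ]
      have : C * (r ^ k * r) ≤ C' * (r ^ k * r) := mul_le_mul_of_nonneg_right hCC (by positivity)
      linarith)
    have h6 : BB p ρ Z b W (gradient φ) = r ^ (1 - (k : ℝ) * (p - 1)) * cr r := by
      have e1 : (r ^ k) ^ (p - 1) = r ^ ((k : ℝ) * (p - 1)) := by
        rw [← Real.rpow_natCast, ← Real.rpow_mul hr0.le]
      rw [e1] at h1
      have e2 : 0 < r ^ ((k : ℝ) * (p - 1)) := Real.rpow_pos_of_pos hr0 _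
      have e3 : r ^ (1 - (k : ℝ) * (p - 1)) = r / r ^ ((k : ℝ) * (p - 1)) := by
        rw [Real.rpow_sub hr0, Real.rpow_one]
      rw [e3, hcr]
      have e4 : BB p ρ Z b W (gradient φ) = r * (a₀ * FF p (fun y => f' (x₀ + r • y)) φ) /
          r ^ ((k : ℝ) * (p - 1)) := by
        rw [← h1]
        field_simp
      rw [e4]
      ring
    rw [← h6, hB0]
    exact h2
  -- `B0 = 0`
  have hexp1 : 0 < 1 - (k : ℝ) * (p - 1) := by linarith
  have hrp : Tendsto (fun r : ℝ => r ^ (1 - (k : ℝ) * (p - 1))) (𝓝[>] 0) (𝓝 0) := by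
    have h1 : ContinuousAt (fun ε : ℝ => ε ^ (1 - (k : ℝ) * (p - 1))) 0 :=
      Real.continuousAt_rpow_const 0 _ (Or.inr hexp1.le)
    have h2 := h1.tendsto
    rw [Real.zero_rpow hexp1.ne'] at h2
    exact h2.mono_left nhdsWithin_le_nhds
  have hid : Tendsto (fun r : ℝ => r) (𝓝[>] 0) (𝓝 0) := tendsto_id.mono_left nhdsWithin_le_nhds
  have hB00 : B0 = 0 := by
    have h1 : Tendsto (fun r : ℝ => |r ^ (1 - (k : ℝ) * (p - 1)) * cr r - B0|) (𝓝[>] 0)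
        (𝓝 |0 * L - B0|) := ((hrp.mul hcrlim).sub_const B0).abs
    have h2 : Tendsto (fun r : ℝ => M * (C' * r)) (𝓝[>] 0) (𝓝 (M * (C' * 0))) :=
      (hid.const_mul C').const_mul M
    have h3 := le_of_tendsto_of_tendsto h1 h2 hmain
    rw [zero_mul, zero_sub, abs_neg, mul_zero, mul_zero] at h3
    exact abs_eq_zero.1 (le_antisymm h3 (abs_nonneg _))
  -- conclusion
  have hrp2 : Tendsto (fun r : ℝ => r ^ ((k : ℝ) * (p - 1))) (𝓝[>] 0) (𝓝 0) := by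
    have h1 : ContinuousAt (fun ε : ℝ => ε ^ ((k : ℝ) * (p - 1))) 0 :=
      Real.continuousAt_rpow_const 0 _ (Or.inr hkp.le)
    have h2 := h1.tendsto
    rw [Real.zero_rpow hkp.ne'] at h2
    exact h2.mono_left nhdsWithin_le_nhds
  have hfin : ∀ᶠ r : ℝ in 𝓝[>] 0, |cr r| ≤ M * C' * r ^ ((k : ℝ) * (p - 1)) := by
    filter_upwards [hmain, self_mem_nhdsWithin] with r hr hr0
    have hr0' : (0 : ℝ) < r := hr0
    rw [hB00, sub_zero, abs_mul, abs_of_pos (Real.rpow_pos_of_pos hr0' _)] at hr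
    have e1 : r = r ^ (1 - (k : ℝ) * (p - 1)) * r ^ ((k : ℝ) * (p - 1)) := by
      rw [← Real.rpow_add hr0']
      simp
    have e2 : M * (C' * r) = r ^ (1 - (k : ℝ) * (p - 1)) * (M * C' * r ^ ((k : ℝ) * (p - 1))) := by
      conv_lhs => rw [e1]
      ring
    rw [e2] at hr
    exact le_of_mul_le_mul_left hr (Real.rpow_pos_of_pos hr0' _)
  have h4 := le_of_tendsto_of_tendsto hcrlim.abs (hrp2.const_mul (M * C')) hfin
  rw [mul_zero] at h4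
  exact hL0 (abs_eq_zero.1 (le_antisymm h4 (abs_nonneg _)))

end Pool.Agent.Lib.MP_9c48c1_an_h27
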