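import Mathlib
import Pool.Agent.Lib.MP_9c48c1_an.Defs
import Pool.Agent.Lib.MP_9c48c1_an_h27.Poinc

set_option autoImplicit false

/-! At a local extremum the leading term of the gradient has odd degree. -/

namespace Pool.Agent.Lib.MP_9c48c1_an_h27

open MeasureTheory Set Filter Topology Pool.Agent.Lib.MP_9c48c1_an

variable {n : ℕ}

/-- Uniform expansion of the gradient with a small remainder. -/
def UExp (F : E n → E n) (x₀ : E n) (k : ℕ) (P : E n → E n) : Prop :=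
  ∀ R ε : ℝ, 0 ≤ R → 0 < ε → ∃ δ : ℝ, 0 < δ ∧ ∀ r : ℝ, 0 ≤ r → r < δ → ∀ y : E n, ‖y‖ ≤ R →
    ‖F (x₀ + r • y) - r ^ k • P y‖ ≤ ε * r ^ k

lemma func_exp {u : E n → ℝ} (hu : ContDiff ℝ 1 u) {x₀ : E n} {k : ℕ} {P : E n → E n}
    (hexp : UExp (gradient u) x₀ k P) {R ε : ℝ} (hR : 0 ≤ R) (hε : 0 < ε) :
    ∃ δ : ℝ, 0 < δ ∧ ∀ r : ℝ, 0 ≤ r → r < δ → ∀ y : E n, ‖y‖ ≤ R →
      |u (x₀ + r • y) - u x₀ - r ^ (k + 1) / (k + 1) * inner ℝ (P y) y| ≤ ε * R * r ^ (k + 1) := by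
  obtain ⟨δ, hδ, hδ'⟩ := hexp R ε hR hε
  refine ⟨δ, hδ, fun r hr hrδ y hy => ?_⟩
  have hk1 : ((k : ℝ) + 1) ≠ 0 := by positivity
  have hder : ∀ s : ℝ, HasDerivAt (fun s : ℝ => u (x₀ + s • y) - s ^ (k + 1) / (k + 1) * inner ℝ (P y) y)
      (inner ℝ (gradient u (x₀ + s • y) - s ^ k • P y) y) s := by
    intro s
    have h1 := hasDerivAt_line hu x₀ y s
    have h2 : HasDerivAt (fun s : ℝ => s ^ (k + 1) / ((k : ℝ) + 1) * inner ℝ (P y) y)
        (s ^ k * inner ℝ (P y) y) s := by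
      refine HasDerivAt.mul_const ?_ _
      have h3 := (hasDerivAt_pow (k + 1) s).div_const ((k : ℝ) + 1)
      refine h3.congr_deriv ?_
      push_cast
      field_simp
    refine (h1.sub h2).congr_deriv ?_
    rw [inner_sub_left, inner_smul_left]
    simp
  have hb : ∀ s ∈ Ico (0 : ℝ) r, ‖(inner ℝ (gradient u (x₀ + s • y) - s ^ k • P y) y : ℝ)‖ ≤
      ε * r ^ k * R := by
    intro s hs
    refine (norm_inner_le_norm _ _).trans ?_
    have h1 := hδ' s hs.1 (hs.2.trans hrδ) y hy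
    have h2 : ε * s ^ k ≤ ε * r ^ k :=
      mul_le_mul_of_nonneg_left (pow_le_pow_left₀ hs.1 hs.2.le k) hε.le
    exact mul_le_mul (h1.trans h2) hy (norm_nonneg _) (by positivity)
  have key := norm_image_sub_le_of_norm_deriv_le_segment' (a := 0) (b := r)
    (fun s _ => (hder s).hasDerivWithinAt) hb r ⟨hr, le_rfl⟩
  rw [Real.norm_eq_abs] at key
  simp only [zero_smul, add_zero, zero_pow (Nat.succ_ne_zero k), zero_div, zero_mul, sub_zero] at key
  have e : u (x₀ + r • y) - u x₀ - r ^ (k + 1) / (k + 1) * inner ℝ (P y) y =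
      u (x₀ + r • y) - r ^ (k + 1) / (k + 1) * inner ℝ (P y) y - u x₀ := by ring
  rw [e]
  refine key.trans (le_of_eq ?_)
  rw [pow_succ]
  ring

lemma parity_max {u : E n → ℝ} (hu : ContDiff ℝ 1 u) {x₀ : E n} {k : ℕ} {P : E n → E n}
    (hP : Continuous P) (hexp : UExp (gradient u) x₀ k P) (hev : ∀ y, P (-y) = P y)
    (hmax : IsLocalMax u x₀) : ∀ y, P y = 0 := by
  -- `⟨P y, y⟩ ≤ 0`
  have h1 : ∀ y, (inner ℝ (P y) y : ℝ) ≤ 0 := by
    intro y
    have hk1 : (0 : ℝ) < (k : ℝ) + 1 := by positivity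
    have h2 : ∀ ε : ℝ, 0 < ε → (inner ℝ (P y) y : ℝ) ≤ ε * (((k : ℝ) + 1) * ‖y‖) := by
      intro ε hε
      obtain ⟨δ, hδ, hδ'⟩ := func_exp hu hexp (norm_nonneg y) hε
      have hcont : Tendsto (fun r : ℝ => x₀ + r • y) (𝓝 0) (𝓝 x₀) := by
        have : Continuous fun r : ℝ => x₀ + r • y := by fun_prop
        simpa using this.tendsto 0
      have hev2 := hcont.eventually hmax
      obtain ⟨η, hη, hη'⟩ := Metric.eventually_nhds_iff_ball.1 hev2
      obtain ⟨r, hr⟩ : ∃ r, r = min δ η / 2 := ⟨_, rfl⟩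
      have hr0 : 0 < r := by rw [hr]; positivity
      have hrδ : r < δ := by
        rw [hr]; have := min_le_left δ η; have := lt_min hδ hη; linarith
      have hrη : r < η := by
        rw [hr]; have := min_le_right δ η; have := lt_min hδ hη; linarith
      have h3 := hδ' r hr0.le hrδ y le_rfl
      have h4 := hη' r (by rw [Metric.mem_ball, Real.dist_eq, sub_zero, abs_of_pos hr0]; exact hrη)
      have h5 := (abs_le.1 h3).1
      have hrk : 0 < r ^ (k + 1) := pow_pos hr0 _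
      have h6 : r ^ (k + 1) / (k + 1) * inner ℝ (P y) y ≤ ε * ‖y‖ * r ^ (k + 1) := by linarith
      have h7 : r ^ (k + 1) / (k + 1) * inner ℝ (P y) y =
          r ^ (k + 1) * (inner ℝ (P y) y / (k + 1)) := by ring
      rw [h7, mul_comm (ε * ‖y‖)] at h6
      have h8 := le_of_mul_le_mul_left h6 hrk
      rw [div_le_iff₀ hk1] at h8
      linarith
    by_contra hcon
    push Not at hcon
    have hy : 0 < ‖y‖ := by
      rw [norm_pos_iff]
      intro h
      rw [h, inner_zero_right] at hcon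
      exact lt_irrefl _ hcon
    have hD : 0 < ((k : ℝ) + 1) * ‖y‖ := by positivity
    have h3 := h2 (inner ℝ (P y) y / (2 * (((k : ℝ) + 1) * ‖y‖))) (by positivity)
    have h4 : inner ℝ (P y) y / (2 * (((k : ℝ) + 1) * ‖y‖)) * (((k : ℝ) + 1) * ‖y‖) =
      (inner ℝ (P y) y : ℝ) / 2 := by field_simp
    rw [h4] at h3
    linarith
  have h2 : ∀ y, (inner ℝ (P y) y : ℝ) = 0 := by
    intro y
    refine le_antisymm (h1 y) ?_
    have := h1 (-y)
    rw [hev, inner_neg_right] at this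
    linarith
  intro y₀
  by_contra hne
  obtain ⟨e, he⟩ : ∃ e, e = P y₀ := ⟨_, rfl⟩
  rw [← he] at hne
  have he0 : 0 < ‖e‖ := norm_pos_iff.2 hne
  -- lower bound of `⟨P, e⟩` on a segment
  obtain ⟨τ, hτ, hτ1, hτ'⟩ : ∃ τ > 0, τ ≤ 1 ∧ ∀ s : ℝ, 0 ≤ s → s ≤ τ →
      ‖e‖ ^ 2 / 2 ≤ inner ℝ (P (y₀ + s • e)) e := by
    have hc : Continuous fun s : ℝ => (inner ℝ (P (y₀ + s • e)) e : ℝ) :=
      (hP.comp (by fun_prop)).inner continuous_const
    have h3 : ∀ᶠ s : ℝ in 𝓝 0, ‖e‖ ^ 2 / 2 < inner ℝ (P (y₀ + s • e)) e := by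
      refine hc.continuousAt.eventually (lt_mem_nhds ?_)
      simp only [zero_smul, add_zero]
      rw [← he, real_inner_self_eq_norm_sq]
      have : 0 < ‖e‖ ^ 2 := by positivity
      linarith
    obtain ⟨η, hη, h4⟩ := Metric.eventually_nhds_iff_ball.1 h3
    refine ⟨min (η / 2) 1, by positivity, min_le_right _ _, fun s hs hs' => (h4 s ?_).le⟩
    rw [Metric.mem_ball, Real.dist_eq, sub_zero, abs_of_nonneg hs]
    have := min_le_left (η / 2) 1
    linarith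
  obtain ⟨R, hR⟩ : ∃ R, R = ‖y₀‖ + ‖e‖ := ⟨_, rfl⟩
  have hR0 : 0 < R := by rw [hR]; positivity
  obtain ⟨ε, hεd⟩ : ∃ ε, ε = min (‖e‖ / 4) (τ * ‖e‖ ^ 2 / (16 * R)) := ⟨_, rfl⟩
  have hε : 0 < ε := by rw [hεd]; positivity
  obtain ⟨δ₁, hδ₁, h₁⟩ := hexp R ε hR0.le hε
  obtain ⟨δ₂, hδ₂, h₂⟩ := func_exp hu hexp hR0.le hε
  obtain ⟨r, hr⟩ : ∃ r, r = min δ₁ δ₂ / 2 := ⟨_, rfl⟩
  have hr0 : 0 < r := by rw [hr]; positivity
  have hr1 : r < δ₁ := by rw [hr]; have := min_le_left δ₁ δ₂; have := lt_min hδ₁ hδ₂; linarith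
  have hr2 : r < δ₂ := by rw [hr]; have := min_le_right δ₁ δ₂; have := lt_min hδ₁ hδ₂; linarith
  have hnorm : ∀ s : ℝ, 0 ≤ s → s ≤ τ → ‖y₀ + s • e‖ ≤ R := by
    intro s hs hs'
    refine (norm_add_le _ _).trans ?_
    rw [norm_smul, Real.norm_of_nonneg hs, hR]
    have : s * ‖e‖ ≤ 1 * ‖e‖ := mul_le_mul_of_nonneg_right (hs'.trans hτ1) (norm_nonneg _)
    linarith
  have hrk : 0 < r ^ k := pow_pos hr0 k
  have hder : ∀ s : ℝ, HasDerivAt (fun s : ℝ => u (x₀ + r • y₀ + s • (r • e)))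
      (inner ℝ (gradient u (x₀ + r • y₀ + s • (r • e))) (r • e)) s :=
    fun s => hasDerivAt_line hu (x₀ + r • y₀) (r • e) s
  have hlow : ∀ s ∈ interior (Icc (0 : ℝ) τ), r ^ (k + 1) * (‖e‖ ^ 2 / 4) ≤
      deriv (fun s : ℝ => u (x₀ + r • y₀ + s • (r • e))) s := by
    intro s hs
    rw [interior_Icc] at hs
    rw [(hder s).deriv]
    have e1 : x₀ + r • y₀ + s • (r • e) = x₀ + r • (y₀ + s • e) := by
      rw [smul_add, smul_comm s r, add_assoc]
    rw [e1, inner_smul_right]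
    have h3 := h₁ r hr0.le hr1 (y₀ + s • e) (hnorm s hs.1.le hs.2.le)
    have h4 := hτ' s hs.1.le hs.2.le
    have h5 : |(inner ℝ (gradient u (x₀ + r • (y₀ + s • e)) - r ^ k • P (y₀ + s • e)) e : ℝ)| ≤
        ε * r ^ k * ‖e‖ := by
      have := norm_inner_le_norm (𝕜 := ℝ) (gradient u (x₀ + r • (y₀ + s • e)) - r ^ k • P (y₀ + s • e)) e
      rw [Real.norm_eq_abs] at this
      exact this.trans (mul_le_mul_of_nonneg_right h3 (norm_nonneg _))
    rw [inner_sub_left, inner_smul_left] at h5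
    simp only [conj_trivial] at h5
    have h6 := (abs_le.1 h5).1
    have h7 : ε ≤ ‖e‖ / 4 := by rw [hεd]; exact min_le_left _ _
    have h8 : ε * r ^ k * ‖e‖ ≤ r ^ k * (‖e‖ ^ 2 / 4) := by
      have := mul_le_mul_of_nonneg_right (mul_le_mul_of_nonneg_right h7 hrk.le) (norm_nonneg e)
      refine this.trans (le_of_eq ?_)
      ring
    have h9 : r ^ k * (‖e‖ ^ 2 / 2) ≤ r ^ k * inner ℝ (P (y₀ + s • e)) e :=
      mul_le_mul_of_nonneg_left h4 hrk.le
    have h10 : r ^ k * (‖e‖ ^ 2 / 4) ≤ inner ℝ (gradient u (x₀ + r • (y₀ + s • e))) e := by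
      linarith
    calc r ^ (k + 1) * (‖e‖ ^ 2 / 4) = r * (r ^ k * (‖e‖ ^ 2 / 4)) := by rw [pow_succ]; ring
      _ ≤ _ := mul_le_mul_of_nonneg_left h10 hr0.le
  have hdiff : Differentiable ℝ (fun s : ℝ => u (x₀ + r • y₀ + s • (r • e))) :=
    fun s => (hder s).differentiableAt
  have key := (convex_Icc (0 : ℝ) τ).mul_sub_le_image_sub_of_le_deriv hdiff.continuous.continuousOn
    hdiff.differentiableOn hlow 0 ⟨le_rfl, hτ.le⟩ τ ⟨hτ.le, le_rfl⟩ hτ.le
  simp only [zero_smul, add_zero, sub_zero] at key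
  have e1 : x₀ + r • y₀ + τ • (r • e) = x₀ + r • (y₀ + τ • e) := by
    rw [smul_add, smul_comm τ r, add_assoc]
  rw [e1] at key
  have k1 := h₂ r hr0.le hr2 (y₀ + τ • e) (hnorm τ hτ.le le_rfl)
  have k2 := h₂ r hr0.le hr2 y₀ (by rw [hR]; linarith)
  rw [h2, mul_zero, sub_zero] at k1 k2
  have k3 := (abs_le.1 k1).2
  have k4 := (abs_le.1 k2).1
  have hrk1 : 0 < r ^ (k + 1) := pow_pos hr0 _
  have k5 : ε * R ≤ τ * ‖e‖ ^ 2 / 16 := by
    have : ε ≤ τ * ‖e‖ ^ 2 / (16 * R) := by rw [hεd]; exact min_le_right _ _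
    calc ε * R ≤ τ * ‖e‖ ^ 2 / (16 * R) * R := mul_le_mul_of_nonneg_right this hR0.le
      _ = τ * ‖e‖ ^ 2 / 16 := by field_simp
  have k6 : ε * R * r ^ (k + 1) ≤ τ * ‖e‖ ^ 2 / 16 * r ^ (k + 1) :=
    mul_le_mul_of_nonneg_right k5 hrk1.le
  have k7 : 0 < r ^ (k + 1) * (τ * ‖e‖ ^ 2) := by positivity
  nlinarith

lemma gradient_neg' (u : E n → ℝ) : gradient (fun x => -u x) = fun x => -gradient u x := by
  funext x
  simp only [gradient]
  have : fderiv ℝ (fun x => -u x) x = -fderiv ℝ u x := fderiv_neg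
  rw [this, map_neg]

/-- At a local extremum the leading term cannot have even degree unless it vanishes. -/
lemma parity_extr {u : E n → ℝ} (hu : ContDiff ℝ 1 u) {x₀ : E n} {k : ℕ} {P : E n → E n}
    (hP : Continuous P) (hexp : UExp (gradient u) x₀ k P) (hev : ∀ y, P (-y) = P y)
    (hext : IsLocalExtr u x₀) : ∀ y, P y = 0 := by
  rcases hext with h | h
  · have h1 : IsLocalMax (fun x => -u x) x₀ := h.neg
    have h2 : UExp (gradient fun x => -u x) x₀ k (fun y => -P y) := by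
      intro R ε hR hε
      obtain ⟨δ, hδ, hδ'⟩ := hexp R ε hR hε
      refine ⟨δ, hδ, fun r hr hrδ y hy => ?_⟩
      have := hδ' r hr hrδ y hy
      rw [gradient_neg', smul_neg]
      have e : -gradient u (x₀ + r • y) - -(r ^ k • P y) =
        -(gradient u (x₀ + r • y) - r ^ k • P y) := by abel
      simp only
      rw [e, norm_neg]
      exact this
    have h3 := parity_max (P := fun y => -P y) hu.neg hP.neg h2 (fun y => by rw [hev]) h1
    intro y
    exact neg_eq_zero.1 (h3 y)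
  · exact parity_max hu hP hexp hev h

end Pool.Agent.Lib.MP_9c48c1_an_h27
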