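import Mathlib

set_option autoImplicit false

/-! Taylor expansions along rays, uniformly in the direction. -/

namespace Pool.Agent.Lib.MP_9c48c1_an_h27

open Set Filter Topology

lemma mv_taylor {W : Type*} [NormedAddCommGroup W] [NormedSpace ℝ W] (k : ℕ) :
    ∀ (h : ℝ → W) (c : W) (ε r : ℝ), ContDiff ℝ k h → 0 ≤ r → 0 ≤ ε →
      (∀ i < k, iteratedDeriv i h 0 = 0) →
      (∀ s ∈ Icc (0 : ℝ) r, ‖iteratedDeriv k h s - c‖ ≤ ε) →
      ‖h r - (r ^ k / (Nat.factorial k : ℝ)) • c‖ ≤ ε * r ^ k := by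
  induction k with
  | zero =>
    intro h c ε r _ hr _ _ hb
    have := hb r ⟨hr, le_rfl⟩
    simpa using this
  | succ k ih =>
    intro h c ε r hh hr hε h0 hb
    have hh1 : ContDiff ℝ k (deriv h) := by
      have : ContDiff ℝ ((k : WithTop ℕ∞) + 1) h := by exact_mod_cast hh
      exact ((contDiff_succ_iff_deriv (n := (k : WithTop ℕ∞))).1 this).2.2
    have hd : Differentiable ℝ h := hh.differentiable (by simp)
    have hi : ∀ s ∈ Icc (0 : ℝ) r, ‖deriv h s - (s ^ k / (Nat.factorial k : ℝ)) • c‖ ≤ ε * r ^ k := by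
      intro s hs
      have h1 := ih (deriv h) c ε s hh1 hs.1 hε
        (fun i hi => by rw [← iteratedDeriv_succ']; exact h0 _ (by omega))
        (fun t ht => by
          rw [← iteratedDeriv_succ']
          exact hb t ⟨ht.1, ht.2.trans hs.2⟩)
      refine h1.trans ?_
      exact mul_le_mul_of_nonneg_left (pow_le_pow_left₀ hs.1 hs.2 k) hε
    have hder : ∀ s : ℝ, HasDerivAt (fun s => h s - (s ^ (k + 1) / (Nat.factorial (k + 1) : ℝ)) • c)
        (deriv h s - (s ^ k / (Nat.factorial k : ℝ)) • c) s := by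
      intro s
      refine (hd s).hasDerivAt.sub ?_
      have h1 : HasDerivAt (fun s : ℝ => s ^ (k + 1) / (Nat.factorial (k + 1) : ℝ))
          (s ^ k / (Nat.factorial k : ℝ)) s := by
        have h2 := (hasDerivAt_pow (k + 1) s).div_const (Nat.factorial (k + 1) : ℝ)
        refine h2.congr_deriv ?_
        rw [Nat.factorial_succ]
        push_cast
        have : (Nat.factorial k : ℝ) ≠ 0 := by exact_mod_cast Nat.factorial_ne_zero k
        field_simp
      exact h1.smul_const c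
    have key := norm_image_sub_le_of_norm_deriv_le_segment' (a := 0) (b := r)
      (fun s _ => (hder s).hasDerivWithinAt) (fun s hs => hi s ⟨hs.1, hs.2.le⟩) r ⟨hr, le_rfl⟩
    have h00 : h 0 = 0 := by
      have := h0 0 (by omega)
      simpa using this
    simp only [h00, zero_pow (Nat.succ_ne_zero k), zero_div, zero_smul, sub_zero] at key
    refine key.trans (le_of_eq ?_)
    rw [pow_succ]
    ring

variable {E : Type*} [NormedAddCommGroup E] [NormedSpace ℝ E]
variable {W : Type*} [NormedAddCommGroup W] [NormedSpace ℝ W]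

lemma iteratedFDeriv_translate (F : E → W) (x₀ : E) (i : ℕ) : ∀ z : E,
    iteratedFDeriv ℝ i (fun z => F (x₀ + z)) z = iteratedFDeriv ℝ i F (x₀ + z) := by
  induction i with
  | zero =>
    intro z
    ext m
    simp
  | succ i ih =>
    intro z
    ext m
    rw [iteratedFDeriv_succ_apply_left, iteratedFDeriv_succ_apply_left]
    have h1 : (iteratedFDeriv ℝ i fun z => F (x₀ + z)) = fun z => iteratedFDeriv ℝ i F (x₀ + z) :=
      funext ih
    rw [h1, fderiv_comp_add_left]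

lemma iteratedDeriv_ray {F : E → W} {j : ℕ} (hF : ContDiff ℝ j F) (x₀ y : E) {i : ℕ} (hi : i ≤ j)
    (s : ℝ) : iteratedDeriv i (fun s : ℝ => F (x₀ + s • y)) s =
      iteratedFDeriv ℝ i F (x₀ + s • y) (fun _ => y) := by
  obtain ⟨L, hL⟩ : ∃ L : ℝ →L[ℝ] E, L = ContinuousLinearMap.toSpanSingleton ℝ y := ⟨_, rfl⟩
  have hLa : ∀ s, L s = s • y := fun s => by rw [hL]; rfl
  have h1 : (fun s : ℝ => F (x₀ + s • y)) = (fun z => F (x₀ + z)) ∘ L := by
    funext s
    simp [hLa]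
  have hG : ContDiff ℝ j fun z : E => F (x₀ + z) := hF.comp (contDiff_const.add contDiff_id)
  rw [iteratedDeriv_eq_iteratedFDeriv, h1,
    L.iteratedFDeriv_comp_right hG s (i := i) (by exact_mod_cast hi)]
  rw [ContinuousMultilinearMap.compContinuousLinearMap_apply, iteratedFDeriv_translate, hLa]
  congr 1
  funext _
  rw [hLa, one_smul]

/-- Expansion with a small remainder. -/
lemma exp_o {F : E → W} {k : ℕ} (hF : ContDiff ℝ k F) (x₀ : E)
    (h0 : ∀ i < k, ∀ y, iteratedFDeriv ℝ i F x₀ (fun _ => y) = 0) {R ε : ℝ} (hR : 0 ≤ R)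
    (hε : 0 < ε) :
    ∃ δ : ℝ, 0 < δ ∧ ∀ r : ℝ, 0 ≤ r → r < δ → ∀ y : E, ‖y‖ ≤ R →
      ‖F (x₀ + r • y) - (r ^ k / (Nat.factorial k : ℝ)) • iteratedFDeriv ℝ k F x₀ (fun _ => y)‖ ≤
        ε * r ^ k := by
  have hc : Continuous fun x => iteratedFDeriv ℝ k F x := hF.continuous_iteratedFDeriv le_rfl
  obtain ⟨ε', hε'⟩ : ∃ ε', ε' = ε / (R ^ k + 1) := ⟨_, rfl⟩
  have hε0 : 0 < ε' := by rw [hε']; positivity
  obtain ⟨η, hη, hη'⟩ := Metric.continuousAt_iff.1 (hc.continuousAt (x := x₀)) ε' hε0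
  refine ⟨η / (R + 1), by positivity, fun r hr hrδ y hy => ?_⟩
  have hcr : ContDiff ℝ k fun s : ℝ => F (x₀ + s • y) :=
    hF.comp (contDiff_const.add (contDiff_id.smul contDiff_const))
  refine mv_taylor k _ _ ε r hcr hr hε.le (fun i hi => ?_) (fun s hs => ?_)
  · rw [iteratedDeriv_ray hF x₀ y hi.le, zero_smul, add_zero]
    exact h0 i hi y
  · rw [iteratedDeriv_ray hF x₀ y le_rfl, ← sub_apply]
    refine (ContinuousMultilinearMap.le_opNorm _ _).trans ?_
    have h1 : dist (x₀ + s • y) x₀ < η := by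
      rw [dist_eq_norm, add_sub_cancel_left, norm_smul, Real.norm_of_nonneg hs.1]
      rw [lt_div_iff₀ (by positivity)] at hrδ
      have h2 : s * ‖y‖ ≤ r * R := mul_le_mul hs.2 hy (norm_nonneg _) hr
      nlinarith
    have h2 := hη' h1
    rw [dist_eq_norm] at h2
    simp only [Finset.prod_const, Finset.card_univ, Fintype.card_fin]
    have h3 : ‖y‖ ^ k ≤ R ^ k := pow_le_pow_left₀ (norm_nonneg _) hy k
    calc ‖iteratedFDeriv ℝ k F (x₀ + s • y) - iteratedFDeriv ℝ k F x₀‖ * ‖y‖ ^ k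
        ≤ ε' * (R ^ k + 1) := mul_le_mul h2.le (by linarith) (by positivity) hε0.le
      _ = ε := by rw [hε']; field_simp

/-- Expansion with a remainder of the next order. -/
lemma exp_O {F : E → W} {k : ℕ} (hF : ContDiff ℝ (k + 1) F) (x₀ : E)
    (h0 : ∀ i < k, ∀ y, iteratedFDeriv ℝ i F x₀ (fun _ => y) = 0) {R : ℝ} (hR : 0 ≤ R) :
    ∃ C δ : ℝ, 0 < δ ∧ ∀ r : ℝ, 0 ≤ r → r < δ → ∀ y : E, ‖y‖ ≤ R →
      ‖F (x₀ + r • y) - (r ^ k / (Nat.factorial k : ℝ)) • iteratedFDeriv ℝ k F x₀ (fun _ => y)‖ ≤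
        C * r ^ (k + 1) := by
  have hc : ContDiff ℝ 1 fun x => iteratedFDeriv ℝ k F x :=
    hF.iteratedFDeriv_right (by rw [add_comm])
  have hF' : ContDiff ℝ k F := hF.of_le (by norm_cast; omega)
  obtain ⟨K, t, ht, hK⟩ := hc.contDiffAt.exists_lipschitzOnWith (x := x₀)
  obtain ⟨η, hη, hη'⟩ := Metric.mem_nhds_iff.1 ht
  refine ⟨K * R * R ^ k, η / (R + 1), by positivity, fun r hr hrδ y hy => ?_⟩
  have hcr : ContDiff ℝ k fun s : ℝ => F (x₀ + s • y) :=
    hF'.comp (contDiff_const.add (contDiff_id.smul contDiff_const))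
  have hK0 : (0 : ℝ) ≤ K := K.2
  have key := mv_taylor k (fun s : ℝ => F (x₀ + s • y)) (iteratedFDeriv ℝ k F x₀ (fun _ => y))
    (K * R * R ^ k * r) r hcr hr (by positivity) (fun i hi => ?_) (fun s hs => ?_)
  · refine key.trans (le_of_eq ?_)
    ring
  · rw [iteratedDeriv_ray hF' x₀ y hi.le, zero_smul, add_zero]
    exact h0 i hi y
  · rw [iteratedDeriv_ray hF' x₀ y le_rfl, ← sub_apply]
    refine (ContinuousMultilinearMap.le_opNorm _ _).trans ?_
    have h2 : s * ‖y‖ ≤ r * R := mul_le_mul hs.2 hy (norm_nonneg _) hr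
    have h1 : dist (x₀ + s • y) x₀ = s * ‖y‖ := by
      rw [dist_eq_norm, add_sub_cancel_left, norm_smul, Real.norm_of_nonneg hs.1]
    have h4 : dist (x₀ + s • y) x₀ < η := by
      rw [h1]
      rw [lt_div_iff₀ (by positivity)] at hrδ
      nlinarith
    have h5 := hK.dist_le_mul (x₀ + s • y) (hη' h4) x₀ (hη' (Metric.mem_ball_self hη))
    rw [dist_eq_norm, h1] at h5
    simp only [Finset.prod_const, Finset.card_univ, Fintype.card_fin]
    have h3 : ‖y‖ ^ k ≤ R ^ k := pow_le_pow_left₀ (norm_nonneg _) hy k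
    calc ‖iteratedFDeriv ℝ k F (x₀ + s • y) - iteratedFDeriv ℝ k F x₀‖ * ‖y‖ ^ k
        ≤ (K * (s * ‖y‖)) * R ^ k := mul_le_mul h5 h3 (by positivity) (by
          have := mul_nonneg hs.1 (norm_nonneg y); positivity)
      _ ≤ (K * (r * R)) * R ^ k := by gcongr
      _ = K * R * R ^ k * r := by ring

end Pool.Agent.Lib.MP_9c48c1_an_h27
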