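import Mathlib
import Pool.Agent.Lib.MP_9c48c1_an.Defs
import Pool.Agent.Lib.MP_9c48c1_an_h27.Blow
import Pool.Agent.Lib.MP_9c48c1_an_h27.TaylorR
import Pool.Agent.Lib.MP_9c48c1_an_h27.Parity

set_option autoImplicit false

/-! Extremal functions are not smooth at their extrema, unless `p / (p - 1)` is even. -/

namespace Pool.Agent.Lib.MP_9c48c1_an_h27

open MeasureTheory Set Filter Topology Pool.Agent.Lib.MP_9c48c1_an

variable {n : ℕ} {p : ℝ}

lemma cutoff {f : E n → ℝ} {x₀ : E n} {m : ℕ} (hf : ContDiffAt ℝ m f x₀) {Ω : Set (E n)}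
    (hΩ : IsOpen Ω) (hx : x₀ ∈ Ω) :
    ∃ ρ : ℝ, 0 < ρ ∧ Metric.ball x₀ ρ ⊆ Ω ∧ ∃ f' : E n → ℝ, ContDiff ℝ m f' ∧
      ∀ x ∈ Metric.ball x₀ ρ, f x = f' x := by
  obtain ⟨u, hu, hfu⟩ := hf.contDiffOn le_rfl (by simp)
  obtain ⟨η, hη, hη'⟩ := Metric.mem_nhds_iff.1 (Filter.inter_mem hu (hΩ.mem_nhds hx))
  obtain ⟨χ, hχ1, hχ2⟩ : ∃ χ : ContDiffBump x₀, χ.rIn = η / 3 ∧ χ.rOut = 2 * η / 3 :=
    ⟨⟨η / 3, 2 * η / 3, by positivity, by linarith⟩, rfl, rfl⟩
  refine ⟨η / 3, by positivity, ?_, fun x => χ x * f x, ?_, ?_⟩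
  · exact (Metric.ball_subset_ball (by linarith)).trans (hη'.trans inter_subset_right)
  · rw [contDiff_iff_contDiffAt]
    intro x
    by_cases hxb : x ∈ Metric.ball x₀ η
    · have h1 : ContDiffAt ℝ m f x :=
        (hfu.mono (hη'.trans inter_subset_left)).contDiffAt (Metric.isOpen_ball.mem_nhds hxb)
      exact (χ.contDiff.contDiffAt).mul h1
    · have hnt : x ∉ tsupport χ := by
        rw [χ.tsupport_eq, hχ2]
        intro h
        apply hxb
        rw [Metric.mem_closedBall] at h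
        rw [Metric.mem_ball]
        linarith
      have h2 : (fun x => χ x * f x) =ᶠ[𝓝 x] fun _ => 0 := by
        have := (isClosed_tsupport χ).isOpen_compl.mem_nhds (show x ∈ (tsupport χ)ᶜ from hnt)
        filter_upwards [this] with z hz
        rw [image_eq_zero_of_notMem_tsupport hz, zero_mul]
      exact contDiffAt_const.congr_of_eventuallyEq h2
  · intro x hx
    have : χ x = 1 := χ.one_of_mem_closedBall (by
      rw [hχ1]
      exact Metric.ball_subset_closedBall hx)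
    change f x = χ x * f x
    rw [this, one_mul]

lemma gradient_contDiff {f' : E n → ℝ} {j : ℕ} (hf : ContDiff ℝ (j + 1 : ℕ) f') :
    ContDiff ℝ j (gradient f') := by
  unfold gradient
  have h1 : ContDiff ℝ j (fderiv ℝ f') := hf.fderiv_right (by norm_cast)
  exact (InnerProductSpace.toDual ℝ (E n)).symm.toContinuousLinearEquiv.contDiff.comp h1

theorem not_smooth (hn : 2 ≤ n) (hp : 1 < p) {Ω : Set (E n)} (hΩo : IsOpen Ω)
    (hΩ : Bornology.IsBounded Ω) {A : ℝ} (hA : IsBestConst p Ω A) {f : E n → ℝ} {g : E n → E n}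
    (h : MemW0 p Ω f g) (h0 : ¬ f =ᵐ[volume] 0) (heq : affEnergy p g = A * rhs p f g)
    {x₀ : E n} (hx₀ : x₀ ∈ Ω) (hext : IsLocalExtr f x₀) (hne : f x₀ ≠ 0) {m : ℕ}
    (hm : p / (p - 1) ≤ m) (hf : ContDiffAt ℝ m f x₀) : ∃ j : ℕ, p / (p - 1) = 2 * j := by
  have hp0 : 0 < p := by linarith
  have hp1 : 0 < p - 1 := by linarith
  have hn0 : 0 < n := by omega
  obtain ⟨κ, hκ⟩ : ∃ κ, κ = 1 / (p - 1) := ⟨_, rfl⟩
  have hκ0 : 0 < κ := by rw [hκ]; positivity
  have hpp : p / (p - 1) = 1 + κ := by rw [hκ]; field_simp; ring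
  rw [hpp] at hm ⊢
  have hm2 : 2 ≤ m := by
    have : (1 : ℝ) < m := by linarith
    have : 1 < m := by exact_mod_cast this
    omega
  obtain ⟨M, hM⟩ : ∃ M : ℕ, m = M + 1 := ⟨m - 1, by omega⟩
  have hM1 : 1 ≤ M := by omega
  have hκM : κ ≤ M := by rw [hM] at hm; push_cast at hm; linarith
  obtain ⟨ρ, hρ, hρΩ, f', hf', hff⟩ := cutoff hf hΩo hx₀
  rw [hM] at hf'
  have hf1 : ContDiff ℝ 1 f' := hf'.of_le (by norm_cast; omega)
  obtain ⟨F, hF⟩ : ∃ F, F = gradient f' := ⟨_, rfl⟩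
  have hFd : ContDiff ℝ M F := hF ▸ gradient_contDiff hf'
  have hfU : ContDiffOn ℝ 1 f (Metric.ball x₀ ρ) := hf1.contDiffOn.congr hff
  have hgF : ∀ᵐ x, x ∈ Metric.ball x₀ ρ → g x = gradient f' x := by
    filter_upwards [weak_eq_grad hp.le hΩ h Metric.isOpen_ball hfU] with x hx hxb
    rw [hx hxb]
    simp only [gradient]
    congr 1
    refine Filter.EventuallyEq.fderiv_eq ?_
    filter_upwards [Metric.isOpen_ball.mem_nhds hxb] with z hz using hff z hz
  have hev : f =ᶠ[𝓝 x₀] f' := by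
    filter_upwards [Metric.ball_mem_nhds x₀ hρ] with z hz using hff z hz
  have hne' : f' x₀ ≠ 0 := by rw [← hff x₀ (Metric.mem_ball_self hρ)]; exact hne
  have hext' : IsLocalExtr f' x₀ := by
    rcases hext with h1 | h1
    · left
      exact (IsLocalMin.congr h1 hev)
    · right
      exact (IsLocalMax.congr h1 hev)
  have hF0 : F x₀ = 0 := by
    rw [hF]
    simp only [gradient]
    rw [hext'.fderiv_eq_zero, map_zero]
  -- the scaled Euler-Lagrange equation
  have hnd := nonDeg_W0 hp.le hΩ h h0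
  have hfm := h.1
  have hgm := h.2.1
  have ha0 : 0 < ∫ x, |f x| ^ p := by
    have h1 := lpNorm_pos hp.le hfm h0
    unfold MP_9c48c1_an.lpNorm at h1
    by_contra h2
    have h3 : 0 ≤ ∫ x, |f x| ^ p := integral_nonneg fun _ => Real.rpow_nonneg (abs_nonneg _) _
    have h4 : ∫ x, |f x| ^ p = 0 := le_antisymm (not_lt.1 h2) h3
    rw [h4, Real.zero_rpow (by positivity)] at h1
    exact lt_irrefl _ h1
  have hb0 : 0 < ∫ x, ‖g x‖ ^ p := by
    have : Nontrivial (E n) := Module.nontrivial_of_finrank_pos (R := ℝ) (by simpa using hn0)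
    obtain ⟨ξ, hξ⟩ := exists_norm_eq (E n) (zero_le_one)
    have h1 := hnd ξ hξ
    have h2 : dirNorm p g ξ ≤ gradNorm p g := by
      rw [dirNorm_toReal hp0 hgm, gradNorm_toReal hp0 hgm]
      refine ENNReal.toReal_mono hgm.2.ne ?_
      have := eLpNorm_inner_le (p := p) (g := g) ξ
      rwa [hξ, ENNReal.ofReal_one, one_mul] at this
    have h3 : 0 < gradNorm p g := lt_of_lt_of_le h1 h2
    unfold gradNorm at h3
    by_contra h4
    have h5 : 0 ≤ ∫ x, ‖g x‖ ^ p := integral_nonneg fun _ => Real.rpow_nonneg (norm_nonneg _) _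
    have h6 : ∫ x, ‖g x‖ ^ p = 0 := le_antisymm (not_lt.1 h4) h5
    rw [h6, Real.zero_rpow (by positivity)] at h3
    exact lt_irrefl _ h3
  have hn2 : (2 : ℝ) ≤ n := by exact_mod_cast hn
  have S : ScEL p (fun ξ : Metric.sphere (0 : E n) 1 => NN p g ξ ^ (-((n : ℝ) / p) - 1)) (ZZ p g)
      (∫ x, ‖g x‖ ^ p) (((n : ℝ) - 1) / (∫ x, |f x| ^ p)) ρ F f' x₀ := by
    refine ⟨?_, fun ξ => Real.rpow_nonneg (NN_nonneg _ _) _, ZZ_pos hn0 hp.le hgm hnd, hb0, ?_, hρ,
      hFd.continuous, hf1.continuous, hne', ?_⟩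
    · refine ((NN_continuous hp.le hgm).comp continuous_subtype_val).rpow_const fun ξ => Or.inl ?_
      exact (NN_pos_of hp0 (hnd _ (norm_sphere ξ))).ne'
    · exact (div_pos (by linarith) ha0).ne'
    · intro φ R r hφ hs hr hrR
      rw [hF]
      exact scaled_EL hn0 hp hΩ (fun u hu => hA.1 u hu) h h0 heq hr hrR hρΩ hff hgF hφ hs
  -- the case distinction
  by_cases hall : ∀ i, i ≤ M → ∀ y, iteratedFDeriv ℝ i F x₀ (fun _ => y) = 0
  · exfalso
    refine blow_small hp S fun ε hε => ?_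
    obtain ⟨δ, hδ, hδ'⟩ := exp_o hFd x₀ (fun i hi y => hall i hi.le y) (zero_le_one) hε
    refine ⟨min δ 1, lt_min hδ one_pos, fun r hr hrδ y hy => ?_⟩
    have h1 := hδ' r hr.le (lt_of_lt_of_le hrδ (min_le_left _ _)) y hy
    rw [hall M le_rfl y, smul_zero, sub_zero] at h1
    refine h1.trans (mul_le_mul_of_nonneg_left ?_ hε.le)
    rw [← Real.rpow_natCast, ← hκ]
    exact Real.rpow_le_rpow_of_exponent_ge hr
      (le_of_lt (lt_of_lt_of_le hrδ (min_le_right _ _))) hκM
  · push Not at hall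
    classical
    have hex : ∃ i, i ≤ M ∧ ∃ y, iteratedFDeriv ℝ i F x₀ (fun _ => y) ≠ 0 := hall
    obtain ⟨k, hk⟩ : ∃ k, k = Nat.find hex := ⟨_, rfl⟩
    have hk1 := Nat.find_spec hex
    rw [← hk] at hk1
    obtain ⟨hkM, y₀, hy₀⟩ := hk1
    have hkmin : ∀ i < k, ∀ y, iteratedFDeriv ℝ i F x₀ (fun _ => y) = 0 := by
      intro i hi y
      by_contra hcon
      have := Nat.find_min hex (hk ▸ hi)
      exact this ⟨by omega, y, hcon⟩
    have hk0 : 0 < k := by
      rcases Nat.eq_zero_or_pos k with h1 | h1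
      · exfalso
        apply hy₀
        rw [h1]
        simpa using hF0
      · exact h1
    have hfac : (0 : ℝ) < (Nat.factorial k : ℝ) := by exact_mod_cast Nat.factorial_pos k
    obtain ⟨P, hP⟩ : ∃ P : E n → E n, P = fun y =>
      ((Nat.factorial k : ℝ)⁻¹) • iteratedFDeriv ℝ k F x₀ (fun _ => y) := ⟨_, rfl⟩
    have hPc : Continuous P := by
      have h1 : Continuous fun y : E n => iteratedFDeriv ℝ k F x₀ (fun _ => y) :=
        (iteratedFDeriv ℝ k F x₀).cont.comp (continuous_pi fun _ => continuous_id)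
      rw [hP]
      exact h1.const_smul ((Nat.factorial k : ℝ)⁻¹)
    have hPy₀ : P y₀ ≠ 0 := by
      rw [hP]
      exact smul_ne_zero (inv_ne_zero hfac.ne') hy₀
    have hrP : ∀ (r : ℝ) (y : E n), (r ^ k / (Nat.factorial k : ℝ)) •
        iteratedFDeriv ℝ k F x₀ (fun _ => y) = r ^ k • P y := by
      intro r y
      rw [hP]
      simp only
      rw [smul_smul, div_eq_mul_inv]
    have hFk : ContDiff ℝ k F := hFd.of_le (by exact_mod_cast hkM)
    rcases lt_trichotomy (k : ℝ) κ with hlt | heqk | hgt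
    · exfalso
      have hkM' : k + 1 ≤ M := by
        have : (k : ℝ) < M := lt_of_lt_of_le hlt hκM
        have : k < M := by exact_mod_cast this
        omega
      have hFk1 : ContDiff ℝ (k + 1) F := hFd.of_le (by exact_mod_cast hkM')
      obtain ⟨C, δ, hδ, hexp⟩ := exp_O hFk1 x₀ hkmin (R := ‖y₀‖ + 1) (by positivity)
      refine blow_large hn hp S hk0 ?_ hPc hPy₀ hδ (C := C) fun r hr hrδ y hy => ?_
      · rw [hκ, lt_div_iff₀ hp1] at hlt
        exact hlt
      · have := hexp r hr.le hrδ y hy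
        rwa [hrP] at this
    · -- the resonant case
      have hexp : UExp (gradient f') x₀ k P := by
        intro R ε hR hε
        obtain ⟨δ, hδ, hδ'⟩ := exp_o hFk x₀ hkmin hR hε
        refine ⟨δ, hδ, fun r hr hrδ y hy => ?_⟩
        have := hδ' r hr hrδ y hy
        rwa [hrP, hF] at this
      rcases Nat.even_or_odd k with hev2 | hodd
      · exfalso
        have hsym : ∀ y, P (-y) = P y := by
          intro y
          rw [hP]
          simp only
          congr 1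
          have h1 := (iteratedFDeriv ℝ k F x₀).map_smul_univ (fun _ => (-1 : ℝ)) (fun _ => y)
          simp only [neg_smul, one_smul, Finset.prod_const, Finset.card_univ, Fintype.card_fin,
            hev2.neg_one_pow] at h1
          exact h1
        exact hPy₀ (parity_extr hf1 hPc hexp hsym hext' y₀)
      · obtain ⟨j, hj⟩ := hodd
        refine ⟨j + 1, ?_⟩
        rw [← heqk, hj]
        push_cast
        ring
    · exfalso
      refine blow_small hp S fun ε hε => ?_
      obtain ⟨δ, hδ, hδ'⟩ := exp_o hFk x₀ hkmin (zero_le_one) one_pos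
      obtain ⟨B, hB⟩ : ∃ B, ∀ y : E n, ‖y‖ ≤ 1 → ‖P y‖ ≤ B := by
        obtain ⟨B, hB⟩ := ((isCompact_closedBall (0 : E n) 1).image hPc.norm).bddAbove
        exact ⟨B, fun y hy => hB ⟨y, by simpa using hy, rfl⟩⟩
      have hB0 : 0 ≤ B := (norm_nonneg _).trans (hB 0 (by simp))
      -- `(1 + B) r^k ≤ ε r^κ` for small `r`
      have hpos : 0 < (k : ℝ) - κ := by linarith
      have hlim : Tendsto (fun r : ℝ => (1 + B) * r ^ ((k : ℝ) - κ)) (𝓝[>] 0) (𝓝 0) := by
        have h1 : ContinuousAt (fun ε : ℝ => ε ^ ((k : ℝ) - κ)) 0 :=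
          Real.continuousAt_rpow_const 0 _ (Or.inr hpos.le)
        have h2 := h1.tendsto
        rw [Real.zero_rpow hpos.ne'] at h2
        have h3 := (h2.mono_left (nhdsWithin_le_nhds (s := Ioi 0))).const_mul (1 + B)
        rwa [mul_zero] at h3
      have hev3 := (tendsto_order.1 hlim).2 ε hε
      obtain ⟨δ', hδ'0, hδ''⟩ := (mem_nhdsGT_iff_exists_Ioo_subset).1 hev3
      refine ⟨min δ δ', lt_min hδ hδ'0, fun r hr hrδ y hy => ?_⟩
      have h1 := hδ' r hr.le (lt_of_lt_of_le hrδ (min_le_left _ _)) y hy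
      rw [hrP, one_mul] at h1
      have h2 : ‖F (x₀ + r • y)‖ ≤ (1 + B) * r ^ k := by
        have h3 := norm_add_le (F (x₀ + r • y) - r ^ k • P y) (r ^ k • P y)
        rw [sub_add_cancel, norm_smul, Real.norm_of_nonneg (pow_nonneg hr.le k)] at h3
        have h4 := mul_le_mul_of_nonneg_left (hB y hy) (pow_nonneg hr.le k)
        linarith
      have h5 : (1 + B) * r ^ ((k : ℝ) - κ) < ε :=
        hδ'' ⟨hr, lt_of_lt_of_le hrδ (min_le_right _ _)⟩
      have h6 : (r : ℝ) ^ k = r ^ ((k : ℝ) - κ) * r ^ κ := by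
        rw [← Real.rpow_add hr, ← Real.rpow_natCast]
        congr 1
        ring
      rw [← hκ]
      calc ‖F (x₀ + r • y)‖ ≤ (1 + B) * r ^ k := h2
        _ = (1 + B) * r ^ ((k : ℝ) - κ) * r ^ κ := by rw [h6]; ring
        _ ≤ ε * r ^ κ := mul_le_mul_of_nonneg_right h5.le (Real.rpow_nonneg hr.le _)

end Pool.Agent.Lib.MP_9c48c1_an_h27
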