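import Mathlib
import Pool.Agent.Lib.MP_9c48c1_an.Defs
import Pool.Agent.Lib.MP_9c48c1_an.SphereN
import Pool.Agent.Lib.MP_9c48c1_an.EnergyN
import Pool.Agent.Lib.MP_9c48c1_an.BoxMain
import Pool.Agent.Lib.MP_9c48c1_an_h27.EulerL

set_option autoImplicit false

/-! `p = 2`: the quadratic form of the Euler-Lagrange equation is positive definite. -/

namespace Pool.Agent.Lib.MP_9c48c1_an_h27

open MeasureTheory Set Filter Topology Matrix Pool.Agent.Lib.MP_9c48c1_an

variable {n : ℕ}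

lemma rpow_neg_convex {q d a : ℝ} (hq : 0 < q) (hd : 0 ≤ d) (ha : 0 < a) :
    q ^ (-a) - a * d * q ^ (-a - 1) ≤ (q + d) ^ (-a) := by
  have h1 : (q + d) ^ (-a) = q ^ (-a) * (1 + d / q) ^ (-a) := by
    rw [← Real.mul_rpow hq.le (by positivity)]
    congr 1
    field_simp
  have h2 : 1 - a * (d / q) ≤ (1 + d / q) ^ (-a) := by
    have hpos : 0 < 1 + d / q := by positivity
    rw [Real.rpow_def_of_pos hpos]
    have h3 := Real.add_one_le_exp (Real.log (1 + d / q) * -a)
    have h4 := Real.log_le_sub_one_of_pos hpos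
    have h5 : Real.log (1 + d / q) ≤ d / q := by linarith
    nlinarith
  have h3 : q ^ (-a - 1) = q ^ (-a) / q := by
    rw [Real.rpow_sub hq, Real.rpow_one]
  have h4 : 0 < q ^ (-a) := Real.rpow_pos_of_pos hq _
  rw [h1, h3]
  calc q ^ (-a) - a * d * (q ^ (-a) / q) = q ^ (-a) * (1 - a * (d / q)) := by ring
    _ ≤ q ^ (-a) * (1 + d / q) ^ (-a) := mul_le_mul_of_nonneg_left h2 h4.le

/-- Adding a rank one matrix. -/
lemma posDef_add {M : Matrix (Fin n) (Fin n) ℝ} (hM : M.PosDef) (u : Fin n → ℝ) {t : ℝ}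
    (ht : 0 ≤ t) : (M + t • vecMulVec u u).PosDef := by
  refine hM.add_posSemidef ?_
  refine Matrix.PosSemidef.smul ?_ ht
  have := Matrix.posSemidef_vecMulVec_self_star u
  rwa [star_trivial] at this

lemma qM_add (M : Matrix (Fin n) (Fin n) ℝ) (u x : E n) (t : ℝ) :
    qM (M + t • vecMulVec u.ofLp u.ofLp) x = qM M x + t * (inner ℝ u x) ^ 2 := by
  unfold qM
  have e : (inner ℝ u x : ℝ) = ∑ i, u i * x i := by
    rw [PiLp.inner_apply]
    refine Finset.sum_congr rfl fun i _ => ?_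
    simp [mul_comm]
  rw [e, sq, Finset.sum_mul_sum, Finset.mul_sum, ← Finset.sum_add_distrib]
  refine Finset.sum_congr rfl fun i _ => ?_
  rw [Finset.mul_sum, ← Finset.sum_add_distrib]
  refine Finset.sum_congr rfl fun j _ => ?_
  simp only [Matrix.add_apply, Matrix.smul_apply, vecMulVec_apply, smul_eq_mul]
  ring

lemma det_add {M : Matrix (Fin n) (Fin n) ℝ} (hM : M.PosDef) (u : Fin n → ℝ) (t : ℝ) :
    (M + t • vecMulVec u u).det = M.det * (1 + t * (u ⬝ᵥ (M⁻¹ *ᵥ u))) := by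
  have hu : IsUnit M.det := isUnit_iff_ne_zero.2 hM.det_pos.ne'
  have h := Matrix.det_add_replicateCol_mul_replicateRow (ι := Unit) hu (t • u) u
  have e1 : replicateCol Unit (t • u) * replicateRow Unit u = t • vecMulVec u u := by
    ext i j
    simp [Matrix.mul_apply, vecMulVec_apply]
    ring
  rw [e1] at h
  rw [h]
  congr 1
  rw [Matrix.det_unique]
  simp [Matrix.mul_apply, dotProduct, mulVec, Finset.mul_sum, Finset.sum_mul]
  rw [Finset.sum_comm]
  refine Finset.sum_congr rfl fun i _ => Finset.sum_congr rfl fun j _ => ?_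
  ring

lemma qM_continuous (M : Matrix (Fin n) (Fin n) ℝ) : Continuous fun x : E n => qM M x := by
  unfold qM
  fun_prop

lemma sphere_ne_zero (ξ : Metric.sphere (0 : E n) 1) : (ξ : E n) ≠ 0 := by
  intro h
  have := norm_sphere ξ
  rw [h, norm_zero] at this
  exact zero_ne_one this

lemma sphere_rpow_continuous {M : Matrix (Fin n) (Fin n) ℝ} (hM : M.PosDef) (a : ℝ) :
    Continuous fun ξ : Metric.sphere (0 : E n) 1 => (qM M (ξ : E n)) ^ a := by
  refine Continuous.rpow_const ((qM_continuous M).comp continuous_subtype_val) fun ξ => ?_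
  exact Or.inl (qM_pos hM (sphere_ne_zero ξ)).ne'

lemma sphere_ineq (hn : 0 < n) {M : Matrix (Fin n) (Fin n) ℝ} (hM : M.PosDef) (u : E n) :
    (u.ofLp ⬝ᵥ (M⁻¹ *ᵥ u.ofLp)) * (∫ ξ : Metric.sphere (0 : E n) 1,
      (qM M (ξ : E n)) ^ (-((n : ℝ) / 2)) ∂(volume : Measure (E n)).toSphere) ≤
    (n : ℝ) * ∫ ξ : Metric.sphere (0 : E n) 1, (inner ℝ u (ξ : E n)) ^ 2 *
      (qM M (ξ : E n)) ^ (-((n : ℝ) / 2) - 1) ∂(volume : Measure (E n)).toSphere := by
  have hn' : (0 : ℝ) < n := by exact_mod_cast hn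
  obtain ⟨κ, hκ⟩ : ∃ κ, κ = u.ofLp ⬝ᵥ (M⁻¹ *ᵥ u.ofLp) := ⟨_, rfl⟩
  obtain ⟨Z, hZ⟩ : ∃ Z, Z = ∫ ξ : Metric.sphere (0 : E n) 1,
      (qM M (ξ : E n)) ^ (-((n : ℝ) / 2)) ∂(volume : Measure (E n)).toSphere := ⟨_, rfl⟩
  obtain ⟨X, hX⟩ : ∃ X, X = ∫ ξ : Metric.sphere (0 : E n) 1, (inner ℝ u (ξ : E n)) ^ 2 *
      (qM M (ξ : E n)) ^ (-((n : ℝ) / 2) - 1) ∂(volume : Measure (E n)).toSphere := ⟨_, rfl⟩
  rw [← hκ, ← hZ, ← hX]
  have hκ0 : 0 ≤ κ := by
    rw [hκ]
    have := hM.inv.posSemidef.dotProduct_mulVec_nonneg u.ofLp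
    simpa using this
  have hω := omega_pos' (k := (n : ℝ)) hn'.le
  have hd := hM.det_pos
  have hZv : Z = n * omega n / Real.sqrt M.det := hZ ▸ sphereN hn hM
  have hZ0 : 0 < Z := by rw [hZv]; positivity
  have ci : Continuous fun ξ : Metric.sphere (0 : E n) 1 => (inner ℝ u (ξ : E n)) ^ 2 *
      (qM M (ξ : E n)) ^ (-((n : ℝ) / 2) - 1) := by
    refine Continuous.mul ?_ (sphere_rpow_continuous hM _)
    fun_prop
  have ii : Integrable (fun ξ : Metric.sphere (0 : E n) 1 => (inner ℝ u (ξ : E n)) ^ 2 *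
      (qM M (ξ : E n)) ^ (-((n : ℝ) / 2) - 1)) (volume : Measure (E n)).toSphere :=
    ci.integrable_of_hasCompactSupport (HasCompactSupport.of_compactSpace _)
  have iz : Integrable (fun ξ : Metric.sphere (0 : E n) 1 => (qM M (ξ : E n)) ^ (-((n : ℝ) / 2)))
      (volume : Measure (E n)).toSphere :=
    (sphere_rpow_continuous hM _).integrable_of_hasCompactSupport
      (HasCompactSupport.of_compactSpace _)
  have key : ∀ t : ℝ, 0 < t → κ * Z / (1 + t * κ) ≤ n * X := by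
    intro t ht
    have hMt := posDef_add hM u.ofLp ht.le
    have h1 := sphereN hn hMt
    have h2 : Z - (n / 2) * t * X ≤ n * omega n / Real.sqrt (M + t • vecMulVec u.ofLp u.ofLp).det := by
      rw [← h1, hZ, hX, ← integral_const_mul, ← integral_sub iz (ii.const_mul _)]
      refine integral_mono (iz.sub (ii.const_mul _)) ?_ fun ξ => ?_
      · exact (sphere_rpow_continuous hMt _).integrable_of_hasCompactSupport
          (HasCompactSupport.of_compactSpace _)
      · have hq := qM_pos hM (sphere_ne_zero ξ)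
        have h3 := rpow_neg_convex (a := (n : ℝ) / 2) (d := t * (inner ℝ u (ξ : E n)) ^ 2) hq
          (by positivity) (by positivity)
        simp only [qM_add]
        refine le_trans (le_of_eq ?_) h3
        ring
    have hs : 0 < 1 + t * κ := by positivity
    have h3 : n * omega n / Real.sqrt (M + t • vecMulVec u.ofLp u.ofLp).det =
        Z / Real.sqrt (1 + t * κ) := by
      rw [det_add hM, ← hκ, hZv, Real.sqrt_mul hd.le, div_div]
    rw [h3] at h2
    have h4 : Z / Real.sqrt (1 + t * κ) ≤ Z * (1 - t * κ / (2 * (1 + t * κ))) := by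
      rw [div_eq_mul_inv]
      refine mul_le_mul_of_nonneg_left ?_ hZ0.le
      obtain ⟨s, hs1⟩ : ∃ s, s = Real.sqrt (1 + t * κ) := ⟨_, rfl⟩
      have hs2 : 0 < s := hs1 ▸ Real.sqrt_pos.2 hs
      have hs3 : s ^ 2 = 1 + t * κ := hs1 ▸ Real.sq_sqrt hs.le
      have hs4 : t * κ = s ^ 2 - 1 := by linarith
      rw [← hs1, hs4]
      have e : 1 - (s ^ 2 - 1) / (2 * (1 + (s ^ 2 - 1))) - s⁻¹ = (s - 1) ^ 2 / (2 * s ^ 2) := by
        field_simp
        ring
      have : 0 ≤ (s - 1) ^ 2 / (2 * s ^ 2) := by positivity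
      linarith
    have h5 : Z * (t * κ / (2 * (1 + t * κ))) ≤ (n / 2) * t * X := by linarith
    have h6 : κ * Z / (1 + t * κ) * (t / 2) ≤ n * X * (t / 2) := by
      refine le_trans (le_of_eq ?_) (h5.trans (le_of_eq ?_))
      · field_simp
      · ring
    exact le_of_mul_le_mul_right h6 (by positivity)
  have hc : ContinuousAt (fun t : ℝ => κ * Z / (1 + t * κ)) 0 := by
    refine ContinuousAt.div (by fun_prop) (by fun_prop) ?_
    simp
  have ht : Tendsto (fun t : ℝ => κ * Z / (1 + t * κ)) (𝓝[>] 0) (𝓝 (κ * Z)) := by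
    have := hc.tendsto.mono_left (nhdsWithin_le_nhds (s := Ioi 0))
    simpa using this
  refine le_of_tendsto ht ?_
  filter_upwards [self_mem_nhdsWithin] with t ht using key t ht

end Pool.Agent.Lib.MP_9c48c1_an_h27
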