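import Mathlib
import Pool.Agent.Lib.MP_9c48c1_an.Defs
import Pool.Agent.Lib.MP_9c48c1_an_h27.TwoA

set_option autoImplicit false

/-! `p = 2`: the quadratic form of the Euler-Lagrange equation is positive definite. -/

namespace Pool.Agent.Lib.MP_9c48c1_an_h27

open MeasureTheory Set Filter Topology Matrix Pool.Agent.Lib.MP_9c48c1_an

variable {n : ℕ}

lemma exists_perp (hn : 2 ≤ n) (e : E n) : ∃ e' : E n, ‖e'‖ = 1 ∧ (inner ℝ e e' : ℝ) = 0 := by
  have h1 : (Submodule.span ℝ {e})ᗮ ≠ ⊥ := by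
    intro h
    have h2 := Submodule.finrank_add_finrank_orthogonal (K := Submodule.span ℝ {e})
    rw [h, finrank_bot, add_zero, finrank_euclideanSpace, Fintype.card_fin] at h2
    have h3 := finrank_span_le_card (R := ℝ) ({e} : Set (E n))
    simp at h3
    omega
  obtain ⟨w, hw, hw0⟩ := Submodule.exists_mem_ne_zero_of_ne_bot h1
  have hw' : (inner ℝ e w : ℝ) = 0 := Submodule.mem_orthogonal_singleton_iff_inner_right.1 hw
  have hn0 : ‖w‖ ≠ 0 := norm_ne_zero_iff.2 hw0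
  refine ⟨‖w‖⁻¹ • w, ?_, ?_⟩
  · rw [norm_smul, norm_inv, norm_norm, inv_mul_cancel₀ hn0]
  · rw [inner_smul_right, hw', mul_zero]

lemma inner_sq_bound (g e e' : E n) (h1 : ‖e'‖ = 1) (h2 : (inner ℝ e e' : ℝ) = 0) :
    (inner ℝ g e : ℝ) ^ 2 + (inner ℝ g e' : ℝ) ^ 2 * ‖e‖ ^ 2 ≤ ‖g‖ ^ 2 * ‖e‖ ^ 2 := by
  obtain ⟨c, hc⟩ : ∃ c : ℝ, c = inner ℝ g e' := ⟨_, rfl⟩
  have h3 : ‖g - c • e'‖ ^ 2 = ‖g‖ ^ 2 - c ^ 2 := by
    rw [norm_sub_sq_real, inner_smul_right, norm_smul, h1, ← hc, mul_one, Real.norm_eq_abs, sq_abs]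
    ring
  have h4 : (inner ℝ (g - c • e') e : ℝ) = inner ℝ g e := by
    rw [inner_sub_left, inner_smul_left, real_inner_comm e e', h2]
    simp
  have h5 := abs_real_inner_le_norm (g - c • e') e
  rw [h4] at h5
  have h6 : (inner ℝ g e : ℝ) ^ 2 ≤ (‖g - c • e'‖ * ‖e‖) ^ 2 := sq_le_sq' (by
    have := neg_abs_le (inner ℝ g e : ℝ); linarith) ((le_abs_self _).trans h5)
  rw [mul_pow, h3] at h6
  rw [← hc]
  linarith

lemma trace_gt (hn : 2 ≤ n) {g : E n → E n} (hg : MemLp g 2) (hM : (mm g).PosDef) {e : E n}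
    (he : e ≠ 0) : qM (mm g) e < (mm g).trace * ‖e‖ ^ 2 := by
  obtain ⟨e', h1, h2⟩ := exists_perp hn e
  have he' : e' ≠ 0 := by
    intro h
    rw [h, norm_zero] at h1
    exact zero_ne_one h1
  have hq := qM_pos hM he'
  have i1 : ∀ v : E n, Integrable fun x => (inner ℝ (g x) v : ℝ) ^ 2 := by
    intro v
    have := memLp_inner (p := 2) (by simpa using hg) v
    have h3 : MemLp (fun x => (inner ℝ (g x) v : ℝ)) 2 := by simpa using this
    exact h3.integrable_sq
  have i2 : Integrable fun x => ‖g x‖ ^ 2 := hg.norm.integrable_sq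
  have h3 : ∫ x, ((inner ℝ (g x) e : ℝ) ^ 2 + (inner ℝ (g x) e' : ℝ) ^ 2 * ‖e‖ ^ 2) ≤
      ∫ x, ‖g x‖ ^ 2 * ‖e‖ ^ 2 := by
    refine integral_mono ((i1 e).add ((i1 e').mul_const _)) (i2.mul_const _) fun x => ?_
    exact inner_sq_bound (g x) e e' h1 h2
  rw [integral_add (i1 e) ((i1 e').mul_const _), integral_mul_const, integral_mul_const,
    dir_intN hg, dir_intN hg] at h3
  have h4 := trace_eq hg
  simp only [Real.rpow_two] at h4
  rw [h4] at h3
  have h5 : 0 < qM (mm g) e' * ‖e‖ ^ 2 := mul_pos hq (by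
    have := norm_pos_iff.2 he
    positivity)
  linarith

lemma trace_pos (hn : 2 ≤ n) {g : E n → E n} (hg : MemLp g 2) (hM : (mm g).PosDef) :
    0 < (mm g).trace := by
  obtain ⟨e, he, -⟩ := exists_perp hn 0
  have he' : e ≠ 0 := by
    intro h
    rw [h, norm_zero] at he
    exact zero_ne_one he
  have h1 := trace_gt hn hg hM he'
  have h2 := qM_pos hM he'
  rw [he] at h1
  linarith

lemma inv_gt (hn : 2 ≤ n) {g : E n → E n} (hg : MemLp g 2) (hM : (mm g).PosDef) {u : E n}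
    (hu : u ≠ 0) : ‖u‖ ^ 2 / (mm g).trace < u.ofLp ⬝ᵥ ((mm g)⁻¹ *ᵥ u.ofLp) := by
  obtain ⟨M, hMd⟩ : ∃ M, M = mm g := ⟨_, rfl⟩
  have hb := trace_pos hn hg hM
  have ht := trace_gt hn hg hM hu
  rw [← hMd] at hM hb ht ⊢
  obtain ⟨b, hbd⟩ : ∃ b, b = M.trace := ⟨_, rfl⟩
  rw [← hbd] at hb ht ⊢
  obtain ⟨v, hv⟩ : ∃ v, v = M⁻¹ *ᵥ u.ofLp := ⟨_, rfl⟩
  have hunit : IsUnit M.det := isUnit_iff_ne_zero.2 hM.det_pos.ne'
  have hMv : M *ᵥ v = u.ofLp := by
    rw [hv, mulVec_mulVec, Matrix.mul_nonsing_inv _ hunit, one_mulVec]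
  have hsym : Mᵀ = M := by
    have := hM.isHermitian
    rwa [IsHermitian, conjTranspose_eq_transpose_of_trivial] at this
  have h1 := hM.posSemidef.dotProduct_mulVec_nonneg (v - b⁻¹ • u.ofLp)
  rw [star_trivial, mulVec_sub, hMv, mulVec_smul, sub_dotProduct, dotProduct_sub, dotProduct_sub,
    smul_dotProduct, smul_dotProduct, dotProduct_smul, dotProduct_smul] at h1
  have h2 : v ⬝ᵥ (M *ᵥ u.ofLp) = u.ofLp ⬝ᵥ u.ofLp := by
    rw [dotProduct_mulVec, ← mulVec_transpose, hsym, hMv]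
  have h3 : v ⬝ᵥ u.ofLp = u.ofLp ⬝ᵥ v := dotProduct_comm _ _
  have h4 : u.ofLp ⬝ᵥ u.ofLp = ‖u‖ ^ 2 := by
    rw [← real_inner_self_eq_norm_sq, PiLp.inner_apply]
    simp [dotProduct, sq]
  rw [h2, h3, h4] at h1
  rw [qM_eq] at ht
  simp only [smul_eq_mul] at h1
  rw [hv] at h1
  have h5 : b⁻¹ * (b⁻¹ * (u.ofLp ⬝ᵥ (M *ᵥ u.ofLp))) < b⁻¹ * ‖u‖ ^ 2 := by
    refine mul_lt_mul_of_pos_left ?_ (by positivity)
    rw [inv_mul_lt_iff₀ hb]
    exact ht
  rw [div_eq_inv_mul]
  linarith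

lemma NN_two (g : E n → E n) (hg : MemLp g 2) (ξ : E n) : NN 2 g ξ = qM (mm g) ξ := by
  rw [← dir_intN hg]
  unfold NN
  refine integral_congr_ae (Eventually.of_forall fun x => ?_)
  simp only
  rw [Real.rpow_two, sq_abs]

lemma posDef_of_nonDeg {g : E n → E n} (hg : MemLp g 2) (h : NonDeg 2 g) : (mm g).PosDef := by
  rw [posDef_iff_dotProduct_mulVec]
  refine ⟨mm_symm _, fun v hv => ?_⟩
  rw [star_trivial]
  obtain ⟨w, hw⟩ : ∃ w : E n, w = WithLp.toLp 2 v := ⟨_, rfl⟩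
  have hw0 : w ≠ 0 := by
    intro h0
    apply hv
    have : v = w.ofLp := by rw [hw]
    rw [this, h0]
    rfl
  have hwn : 0 < ‖w‖ := norm_pos_iff.2 hw0
  have h1 := h (‖w‖⁻¹ • w) (by rw [norm_smul, norm_inv, norm_norm, inv_mul_cancel₀ hwn.ne'])
  have h2 := NN_pos_of (by norm_num) h1
  rw [NN_two g hg] at h2
  have h3 : qM (mm g) (‖w‖⁻¹ • w) = (‖w‖⁻¹) ^ 2 * qM (mm g) w := by
    simp only [qM, PiLp.smul_apply, smul_eq_mul, Finset.mul_sum]
    refine Finset.sum_congr rfl fun i _ => Finset.sum_congr rfl fun j _ => ?_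
    ring
  rw [h3] at h2
  have h4 : 0 < qM (mm g) w := by
    by_contra hcon
    push Not at hcon
    have : (‖w‖⁻¹) ^ 2 * qM (mm g) w ≤ 0 := mul_nonpos_of_nonneg_of_nonpos (by positivity) hcon
    linarith
  rw [qM_eq, hw] at h4
  exact h4

/-- The matrix of the second order operator. -/
noncomputable def Bm (g : E n → E n) : Matrix (Fin n) (Fin n) ℝ := Matrix.of fun i j =>
  (n : ℝ) * (∫ ξ : Metric.sphere (0 : E n) 1, ((ξ : E n) i * (ξ : E n) j) *
    NN 2 g ξ ^ (-((n : ℝ) / 2) - 1) ∂(volume : Measure (E n)).toSphere) / ZZ 2 g -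
    (if i = j then 1 / (mm g).trace else 0)

lemma Bm_posDef (hn : 2 ≤ n) {g : E n → E n} (hg : MemLp g 2) (h : NonDeg 2 g) :
    (Bm g).PosDef := by
  have hM := posDef_of_nonDeg hg h
  have hb := trace_pos hn hg hM
  rw [posDef_iff_dotProduct_mulVec]
  constructor
  · rw [IsHermitian, conjTranspose_eq_transpose_of_trivial]
    ext i j
    simp only [Bm, transpose_apply, of_apply]
    congr 1
    · congr 2
      refine integral_congr_ae (Eventually.of_forall fun ξ => ?_)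
      simp only
      ring
    · simp only [eq_comm]
  · intro v hv
    rw [star_trivial]
    obtain ⟨u, hu⟩ : ∃ u : E n, u = WithLp.toLp 2 v := ⟨_, rfl⟩
    have hu0 : u ≠ 0 := by
      intro h0
      apply hv
      have : v = u.ofLp := by rw [hu]
      rw [this, h0]
      rfl
    have hvu : ∀ i, v i = u i := fun i => by rw [hu]
    have h1 := sphere_ineq (by omega) hM u
    have h2 := inv_gt hn hg hM hu0
    have ci : ∀ i j : Fin n, Integrable (fun ξ : Metric.sphere (0 : E n) 1 =>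
        ((ξ : E n) i * (ξ : E n) j) * (qM (mm g) (ξ : E n)) ^ (-((n : ℝ) / 2) - 1))
        (volume : Measure (E n)).toSphere := by
      intro i j
      refine Continuous.integrable_of_hasCompactSupport ?_ (HasCompactSupport.of_compactSpace _)
      refine Continuous.mul ?_ (sphere_rpow_continuous hM _)
      fun_prop
    have hZe : ZZ 2 g = ∫ ξ : Metric.sphere (0 : E n) 1,
        (qM (mm g) (ξ : E n)) ^ (-((n : ℝ) / 2)) ∂(volume : Measure (E n)).toSphere := by
      unfold ZZ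
      simp only [NN_two g hg]
    have hZ : 0 < ZZ 2 g := ZZ_pos (by omega) (by norm_num) (by simpa using hg) h
    rw [← hZe] at h1
    have h3 : v ⬝ᵥ (Bm g *ᵥ v) = (n : ℝ) * (∫ ξ : Metric.sphere (0 : E n) 1,
        (inner ℝ u (ξ : E n)) ^ 2 * (qM (mm g) (ξ : E n)) ^ (-((n : ℝ) / 2) - 1)
        ∂(volume : Measure (E n)).toSphere) / ZZ 2 g - ‖u‖ ^ 2 / (mm g).trace := by
      have e1 : ∀ ξ : E n, (inner ℝ u ξ : ℝ) ^ 2 = ∑ i, ∑ j, (v i * v j) * (ξ i * ξ j) := by
        intro ξ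
        rw [PiLp.inner_apply, sq, Finset.sum_mul_sum]
        refine Finset.sum_congr rfl fun i _ => Finset.sum_congr rfl fun j _ => ?_
        simp only [hvu]
        simp
        ring
      have e2 : (∫ ξ : Metric.sphere (0 : E n) 1,
          (inner ℝ u (ξ : E n)) ^ 2 * (qM (mm g) (ξ : E n)) ^ (-((n : ℝ) / 2) - 1)
          ∂(volume : Measure (E n)).toSphere) = ∑ i, ∑ j, (v i * v j) *
          ∫ ξ : Metric.sphere (0 : E n) 1, ((ξ : E n) i * (ξ : E n) j) *
          (qM (mm g) (ξ : E n)) ^ (-((n : ℝ) / 2) - 1) ∂(volume : Measure (E n)).toSphere := by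
        have ci' : ∀ i j : Fin n, Integrable (fun ξ : Metric.sphere (0 : E n) 1 =>
            (v i * v j) * ((ξ : E n) i * (ξ : E n) j) * (qM (mm g) (ξ : E n)) ^
            (-((n : ℝ) / 2) - 1)) (volume : Measure (E n)).toSphere := by
          intro i j
          refine ((ci i j).const_mul (v i * v j)).congr (Eventually.of_forall fun ξ => ?_)
          simp only
          ring
        simp only [e1, Finset.sum_mul]
        rw [integral_finsetSum _ fun i _ => integrable_finsetSum _ fun j _ => ci' i j]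
        refine Finset.sum_congr rfl fun i _ => ?_
        rw [integral_finsetSum _ fun j _ => ci' i j]
        refine Finset.sum_congr rfl fun j _ => ?_
        rw [← integral_const_mul]
        refine integral_congr_ae (Eventually.of_forall fun ξ => ?_)
        simp only
        ring
      have e3 : ‖u‖ ^ 2 = ∑ i, v i * v i := by
        rw [← real_inner_self_eq_norm_sq, PiLp.inner_apply]
        refine Finset.sum_congr rfl fun i _ => ?_
        simp [hvu, sq]
      rw [e2, e3]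
      simp only [dotProduct, mulVec, Bm, of_apply, NN_two g hg, Finset.mul_sum, Finset.sum_div]
      rw [← Finset.sum_sub_distrib]
      refine Finset.sum_congr rfl fun i _ => ?_
      have e4 : v i * v i / (mm g).trace = ∑ j, v i * ((if i = j then 1 / (mm g).trace else 0) * v j) := by
        simp
        ring
      rw [e4, ← Finset.sum_sub_distrib]
      refine Finset.sum_congr rfl fun j _ => ?_
      ring
    rw [h3]
    have h4 : u.ofLp ⬝ᵥ ((mm g)⁻¹ *ᵥ u.ofLp) ≤ (n : ℝ) * (∫ ξ : Metric.sphere (0 : E n) 1,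
        (inner ℝ u (ξ : E n)) ^ 2 * (qM (mm g) (ξ : E n)) ^ (-((n : ℝ) / 2) - 1)
        ∂(volume : Measure (E n)).toSphere) / ZZ 2 g := by
      rw [le_div_iff₀ hZ]
      exact h1
    linarith

end Pool.Agent.Lib.MP_9c48c1_an_h27
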