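import Mathlib

set_option autoImplicit false

/-! The kernels for the mean value property of an elliptic operator with constant coefficients. -/

namespace Pool.Agent.Lib.MP_9c48c1_an_h27

open MeasureTheory Set Filter Topology
open scoped ContDiff

/-- The profile: `1` for `s ≤ 1/2`, `0` for `s ≥ 1`. -/
noncomputable def PP (s : ℝ) : ℝ := Real.smoothTransition (2 * (1 - s))

/-- Its derivative. -/
noncomputable def P1 : ℝ → ℝ := deriv PP

/-- Its second derivative. -/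
noncomputable def P2 : ℝ → ℝ := deriv P1

lemma PP_contDiff : ContDiff ℝ ∞ PP :=
  Real.smoothTransition.contDiff.comp (contDiff_const.mul (contDiff_const.sub contDiff_id))

lemma P1_contDiff : ContDiff ℝ ∞ P1 := by
  have := contDiff_infty_iff_deriv.1 PP_contDiff
  exact this.2

lemma P2_contDiff : ContDiff ℝ ∞ P2 := by
  have := contDiff_infty_iff_deriv.1 P1_contDiff
  exact this.2

lemma PP_zero {s : ℝ} (hs : 1 ≤ s) : PP s = 0 :=
  Real.smoothTransition.zero_of_nonpos (by linarith)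

lemma PP_one {s : ℝ} (hs : s ≤ 1 / 2) : PP s = 1 :=
  Real.smoothTransition.one_of_one_le (by linarith)

lemma PP_hasDeriv (s : ℝ) : HasDerivAt PP (P1 s) s :=
  ((PP_contDiff.differentiable (by simp)) s).hasDerivAt

lemma P1_hasDeriv (s : ℝ) : HasDerivAt P1 (P2 s) s :=
  ((P1_contDiff.differentiable (by simp)) s).hasDerivAt

lemma P1_zero_gt {s : ℝ} (hs : 1 < s) : P1 s = 0 := by
  have h : PP =ᶠ[𝓝 s] fun _ => 0 := by
    filter_upwards [Ioi_mem_nhds hs] with t ht using PP_zero (le_of_lt ht)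
  unfold P1
  rw [h.deriv_eq]
  simp

lemma P2_zero_gt {s : ℝ} (hs : 1 < s) : P2 s = 0 := by
  have h : P1 =ᶠ[𝓝 s] fun _ => 0 := by
    filter_upwards [Ioi_mem_nhds hs] with t ht using P1_zero_gt ht
  unfold P2
  rw [h.deriv_eq]
  simp

lemma P1_zero_lt {s : ℝ} (hs : s < 1 / 2) : P1 s = 0 := by
  have h : PP =ᶠ[𝓝 s] fun _ => 1 := by
    filter_upwards [Iio_mem_nhds hs] with t ht using PP_one (le_of_lt ht)
  unfold P1
  rw [h.deriv_eq]
  simp

lemma P1_nonpos (s : ℝ) : P1 s ≤ 0 := by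
  have h : Antitone PP := fun a b hab => Real.smoothTransition.monotone (by linarith)
  exact h.deriv_nonpos

lemma exists_bound (i : ℝ → ℝ) (hi : Continuous i) (h1 : ∀ s, 1 < s → i s = 0) :
    ∃ C : ℝ, 0 ≤ C ∧ ∀ s, 0 ≤ s → |i s| ≤ C := by
  obtain ⟨C, hC⟩ := (isCompact_Icc (a := (0 : ℝ)) (b := 1)).bddAbove_image hi.abs.continuousOn
  refine ⟨|C|, abs_nonneg _, fun s hs => ?_⟩
  by_cases h : s ≤ 1
  · exact (hC ⟨s, ⟨hs, h⟩, rfl⟩).trans (le_abs_self _)
  · push Not at h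
    rw [h1 s h, abs_zero]
    exact abs_nonneg _

section kernels

variable {W : Type*} [NormedAddCommGroup W] [NormedSpace ℝ W]
variable {ι : Type*} [Fintype ι]

/-- The operator `∑ ∂_{d k}^2`. -/
noncomputable def LL (d : ι → W) (Φ : W → ℝ) (z : W) : ℝ :=
  ∑ k, fderiv ℝ (fun z => fderiv ℝ Φ z (d k)) z (d k)

/-- The quadratic form attached to the operator. -/
structure QF (N : ℕ) (K : ℝ) (Q : W → ℝ) (d : ι → W) : Prop where
  sm : ContDiff ℝ ∞ Q
  hom : ∀ (t : ℝ) (y : W), Q (t • y) = t ^ 2 * Q y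
  nn : ∀ y, 0 ≤ Q y
  kp : 0 < K
  bd : ∀ (y : W) (r : ℝ), 0 ≤ r → Q y ≤ r ^ 2 → ‖y‖ ≤ K * r
  h1 : ∀ y, ∑ k, (fderiv ℝ Q y (d k)) ^ 2 = 4 * Q y
  h2 : ∀ y, LL d Q y = 2 * N

/-- The operator on a function of `Q`. -/
lemma LL_comp {N : ℕ} {K : ℝ} {Q : W → ℝ} {d : ι → W} (hQ : QF N K Q d) {θ : ℝ → ℝ}
    (hθ : ContDiff ℝ ∞ θ) (x z : W) :
    LL d (fun z => θ (Q (z - x))) z = deriv (deriv θ) (Q (z - x)) * (4 * Q (z - x)) +
      deriv θ (Q (z - x)) * (2 * N) := by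
  have hQd : Differentiable ℝ Q := hQ.sm.differentiable (by simp)
  have hθd : Differentiable ℝ θ := hθ.differentiable (by simp)
  have hθ1 : ContDiff ℝ ∞ (deriv θ) := (contDiff_infty_iff_deriv.1 hθ).2
  have hθ1d : Differentiable ℝ (deriv θ) := hθ1.differentiable (by simp)
  have hQ1 : ContDiff ℝ ∞ (fderiv ℝ Q) := hQ.sm.fderiv_right (by simp)
  have hsub : ∀ z : W, HasFDerivAt (fun z : W => z - x) (ContinuousLinearMap.id ℝ W) z :=
    fun z => (hasFDerivAt_id z).sub_const x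
  have hQx : ∀ z, HasFDerivAt (fun z => Q (z - x)) (fderiv ℝ Q (z - x)) z := by
    intro z
    have := (hQd (z - x)).hasFDerivAt.comp z (hsub z)
    rw [ContinuousLinearMap.comp_id] at this
    exact this
  have h1 : ∀ (k : ι) (z : W), fderiv ℝ (fun z => θ (Q (z - x))) z (d k) =
      deriv θ (Q (z - x)) * fderiv ℝ Q (z - x) (d k) := by
    intro k z
    have h2 := (hθd (Q (z - x))).hasDerivAt.comp_hasFDerivAt z (hQx z)
    have h3 := h2.fderiv
    have h4 : fderiv ℝ (fun z => θ (Q (z - x))) z = deriv θ (Q (z - x)) • fderiv ℝ Q (z - x) := h3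
    rw [h4]
    simp
  have h5 : ∀ k : ι, fderiv ℝ (fun z => fderiv ℝ (fun z => θ (Q (z - x))) z (d k)) z (d k) =
      deriv (deriv θ) (Q (z - x)) * (fderiv ℝ Q (z - x) (d k)) ^ 2 +
      deriv θ (Q (z - x)) * fderiv ℝ (fun z => fderiv ℝ Q z (d k)) (z - x) (d k) := by
    intro k
    simp only [h1]
    have e1 : HasFDerivAt (fun z => deriv θ (Q (z - x)))
        (deriv (deriv θ) (Q (z - x)) • fderiv ℝ Q (z - x)) z := by
      have h8 : HasDerivAt (deriv θ) (deriv (deriv θ) (Q (z - x))) (Q (z - x)) :=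
        (hθ1d (Q (z - x))).hasDerivAt
      exact h8.comp_hasFDerivAt z (hQx z)
    have hg : ContDiff ℝ ∞ fun z => fderiv ℝ Q z (d k) := hQ1.clm_apply contDiff_const
    have e2 : HasFDerivAt (fun z => fderiv ℝ Q (z - x) (d k))
        (fderiv ℝ (fun z => fderiv ℝ Q z (d k)) (z - x)) z := by
      have := (hg.differentiable (by simp) (z - x)).hasFDerivAt.comp z (hsub z)
      rw [ContinuousLinearMap.comp_id] at this
      exact this
    have e3 : HasFDerivAt (fun z => deriv θ (Q (z - x)) * fderiv ℝ Q (z - x) (d k))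
        (deriv θ (Q (z - x)) • fderiv ℝ (fun z => fderiv ℝ Q z (d k)) (z - x) +
          fderiv ℝ Q (z - x) (d k) • (deriv (deriv θ) (Q (z - x)) • fderiv ℝ Q (z - x))) z :=
      e1.mul e2
    rw [e3.fderiv]
    simp
    ring
  unfold LL
  simp only [h5]
  rw [Finset.sum_add_distrib, ← Finset.mul_sum, ← Finset.mul_sum, hQ.h1]
  have := hQ.h2 (z - x)
  unfold LL at this
  rw [this]

/-- The averaging kernel. -/
noncomputable def ker (N : ℕ) (Q : W → ℝ) (x : W) (r : ℝ) (z : W) : ℝ :=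
  (r ^ N)⁻¹ * (-2 * P1 (Q (z - x) / r ^ 2))

/-- The test function. -/
noncomputable def tst (N : ℕ) (Q : W → ℝ) (x : W) (r : ℝ) (z : W) : ℝ :=
  r * (r ^ N)⁻¹ * PP (Q (z - x) / r ^ 2)

/-- The radial derivative of the kernel. -/
noncomputable def dker (N : ℕ) (Q : W → ℝ) (x : W) (r : ℝ) (z : W) : ℝ :=
  r * (r ^ N)⁻¹ * (P2 (Q (z - x) / r ^ 2) * (4 * Q (z - x) / r ^ 4) +
    P1 (Q (z - x) / r ^ 2) * (2 * N / r ^ 2))

lemma LL_tst {N : ℕ} {K : ℝ} {Q : W → ℝ} {d : ι → W} (hQ : QF N K Q d) (x : W) {r : ℝ}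
    (hr : 0 < r) (z : W) : LL d (tst N Q x r) z = dker N Q x r z := by
  obtain ⟨θ, hθ⟩ : ∃ θ : ℝ → ℝ, θ = fun s => r * (r ^ N)⁻¹ * PP (s / r ^ 2) := ⟨_, rfl⟩
  have hθc : ContDiff ℝ ∞ θ := by
    rw [hθ]
    exact contDiff_const.mul (PP_contDiff.comp (contDiff_id.div_const _))
  have hd1 : deriv θ = fun s => r * (r ^ N)⁻¹ * (P1 (s / r ^ 2) * (1 / r ^ 2)) := by
    funext s
    rw [hθ]
    have h1 : HasDerivAt (fun s : ℝ => s / r ^ 2) (1 / r ^ 2) s := (hasDerivAt_id s).div_const _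
    exact (((PP_hasDeriv (s / r ^ 2)).comp s h1).const_mul _).deriv
  have hd2 : deriv (deriv θ) = fun s => r * (r ^ N)⁻¹ * ((P2 (s / r ^ 2) * (1 / r ^ 2)) * (1 / r ^ 2)) := by
    funext s
    rw [hd1]
    have h1 : HasDerivAt (fun s : ℝ => s / r ^ 2) (1 / r ^ 2) s := (hasDerivAt_id s).div_const _
    exact ((((P1_hasDeriv (s / r ^ 2)).comp s h1).mul_const _).const_mul _).deriv
  have h2 : tst N Q x r = fun z => θ (Q (z - x)) := by rw [hθ]; rfl
  rw [h2, LL_comp hQ hθc x z, hd2, hd1]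
  unfold dker
  field_simp

omit [NormedSpace ℝ W] in
lemma ker_hasDeriv {N : ℕ} {Q : W → ℝ} (x : W) {r : ℝ} (hr : 0 < r) (z : W) :
    HasDerivAt (fun r => ker N Q x r z) (dker N Q x r z) r := by
  obtain ⟨q, hq⟩ : ∃ q, q = Q (z - x) := ⟨_, rfl⟩
  have h1 : HasDerivAt (fun r : ℝ => (r ^ N)⁻¹) (-(N * r ^ (N - 1)) / (r ^ N) ^ 2) r :=
    (hasDerivAt_pow N r).inv (pow_pos hr N).ne'
  have h2 : HasDerivAt (fun r : ℝ => q / r ^ 2) (-(2 * q) / r ^ 3) r := by
    have := (hasDerivAt_const r q).div (hasDerivAt_pow 2 r) (pow_pos hr 2).ne'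
    refine this.congr_deriv ?_
    field_simp
    ring
  have h3 := h1.mul (((P1_hasDeriv (q / r ^ 2)).comp r h2).const_mul (-2))
  unfold ker dker
  rw [← hq]
  refine h3.congr_deriv ?_
  have hN : (N : ℝ) * r ^ (N - 1) = N * r ^ N / r := by
    rcases Nat.eq_zero_or_pos N with h | h
    · rw [h]; simp
    · obtain ⟨M, rfl⟩ : ∃ M, N = M + 1 := ⟨N - 1, by omega⟩
      rw [Nat.add_sub_cancel, pow_succ]
      field_simp
  rw [hN]
  simp only [Function.comp_apply]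
  have hrN : r ^ N ≠ 0 := (pow_pos hr N).ne'
  field_simp
  ring

end kernels

end Pool.Agent.Lib.MP_9c48c1_an_h27
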