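import Mathlib
import Pool.Agent.Lib.MP_9c48c1_an_h27.WeylA

set_option autoImplicit false
set_option linter.unusedSectionVars false

/-! The mean value property of weak solutions. -/

namespace Pool.Agent.Lib.MP_9c48c1_an_h27

open MeasureTheory Set Filter Topology
open scoped ContDiff

variable {W : Type*} [NormedAddCommGroup W] [NormedSpace ℝ W]
variable {ι : Type*} [Fintype ι] {N : ℕ} {K : ℝ} {Q : W → ℝ} {d : ι → W}

lemma arg_gt (hQ : QF N K Q d) {x z : W} {r : ℝ} (hr : 0 < r) (h : K * r < ‖z - x‖) :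
    1 < Q (z - x) / r ^ 2 := by
  rw [lt_div_iff₀ (by positivity), one_mul]
  by_contra hcon
  push Not at hcon
  have := hQ.bd (z - x) r hr.le hcon
  linarith

lemma ker_zero (hQ : QF N K Q d) {x z : W} {r : ℝ} (hr : 0 < r) (h : K * r < ‖z - x‖) :
    ker N Q x r z = 0 := by
  unfold ker
  rw [P1_zero_gt (arg_gt hQ hr h), mul_zero, mul_zero]

lemma dker_zero (hQ : QF N K Q d) {x z : W} {r : ℝ} (hr : 0 < r) (h : K * r < ‖z - x‖) :
    dker N Q x r z = 0 := by
  unfold dker
  rw [P1_zero_gt (arg_gt hQ hr h), P2_zero_gt (arg_gt hQ hr h), zero_mul, zero_mul, add_zero,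
    mul_zero]

lemma tst_zero (hQ : QF N K Q d) {x z : W} {r : ℝ} (hr : 0 < r) (h : K * r < ‖z - x‖) :
    tst N Q x r z = 0 := by
  unfold tst
  rw [PP_zero (arg_gt hQ hr h).le, mul_zero]

lemma tst_contDiff (hQ : QF N K Q d) (x : W) (r : ℝ) : ContDiff ℝ ∞ (tst N Q x r) := by
  unfold tst
  exact contDiff_const.mul (PP_contDiff.comp ((hQ.sm.comp (contDiff_id.sub contDiff_const)).div_const _))

lemma ker_contDiff (hQ : QF N K Q d) (x : W) (r : ℝ) : ContDiff ℝ ∞ (ker N Q x r) := by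
  unfold ker
  exact contDiff_const.mul (contDiff_const.mul
    (P1_contDiff.comp ((hQ.sm.comp (contDiff_id.sub contDiff_const)).div_const _)))

lemma dker_continuous (hQ : QF N K Q d) (x : W) (r : ℝ) : Continuous (dker N Q x r) := by
  unfold dker
  have h1 : Continuous fun z => Q (z - x) := hQ.sm.continuous.comp (by fun_prop)
  have h2 := P1_contDiff.continuous
  have h3 := P2_contDiff.continuous
  exact continuous_const.mul (((h3.comp (h1.div_const _)).mul ((continuous_const.mul h1).div_const _)).add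
    ((h2.comp (h1.div_const _)).mul continuous_const))

lemma tsupport_sub {φ : W → ℝ} {x : W} {R : ℝ} (h : ∀ z, R < ‖z - x‖ → φ z = 0) :
    tsupport φ ⊆ Metric.closedBall x R := by
  refine closure_minimal ?_ Metric.isClosed_closedBall
  intro z hz
  rw [Metric.mem_closedBall, dist_eq_norm]
  by_contra hcon
  push Not at hcon
  exact hz (h z hcon)

lemma dker_bound (hQ : QF N K Q d) {r₁ r₂ : ℝ} (h1 : 0 < r₁) :
    ∃ M : ℝ, 0 ≤ M ∧ ∀ r, r₁ ≤ r → r ≤ r₂ → ∀ x z : W, |dker N Q x r z| ≤ M := by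
  obtain ⟨C1, hC1, hb1⟩ := exists_bound P1 P1_contDiff.continuous fun s => P1_zero_gt
  obtain ⟨C2, hC2, hb2⟩ := exists_bound P2 P2_contDiff.continuous fun s => P2_zero_gt
  refine ⟨|r₂| * (r₁ ^ N)⁻¹ * (C2 * (4 / r₁ ^ 2) + C1 * (2 * N / r₁ ^ 2)), by positivity,
    fun r hr1 hr2 x z => ?_⟩
  have hr : 0 < r := lt_of_lt_of_le h1 hr1
  have hq : 0 ≤ Q (z - x) := hQ.nn _
  unfold dker
  rw [abs_mul, abs_mul, abs_of_pos hr, abs_of_pos (inv_pos.2 (pow_pos hr N))]
  have e1 : r ≤ |r₂| := hr2.trans (le_abs_self _)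
  have e2 : (r ^ N)⁻¹ ≤ (r₁ ^ N)⁻¹ := inv_anti₀ (pow_pos h1 N) (pow_le_pow_left₀ h1.le hr1 N)
  have e3 : r₁ ^ 2 ≤ r ^ 2 := pow_le_pow_left₀ h1.le hr1 2
  have e4 : |P2 (Q (z - x) / r ^ 2) * (4 * Q (z - x) / r ^ 4)| ≤ C2 * (4 / r₁ ^ 2) := by
    by_cases h : Q (z - x) ≤ r ^ 2
    · rw [abs_mul]
      refine mul_le_mul (hb2 _ (by positivity)) ?_ (abs_nonneg _) hC2
      rw [abs_of_nonneg (by positivity)]
      calc 4 * Q (z - x) / r ^ 4 ≤ 4 * r ^ 2 / r ^ 4 := by gcongr
        _ = 4 / r ^ 2 := by field_simp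
        _ ≤ 4 / r₁ ^ 2 := by gcongr
    · push Not at h
      have : 1 < Q (z - x) / r ^ 2 := by rw [lt_div_iff₀ (by positivity), one_mul]; exact h
      rw [P2_zero_gt this, zero_mul, abs_zero]
      positivity
  have e5 : |P1 (Q (z - x) / r ^ 2) * (2 * N / r ^ 2)| ≤ C1 * (2 * N / r₁ ^ 2) := by
    rw [abs_mul]
    refine mul_le_mul (hb1 _ (by positivity)) ?_ (abs_nonneg _) hC1
    rw [abs_of_nonneg (by positivity)]
    gcongr
  have e6 := (abs_add_le (P2 (Q (z - x) / r ^ 2) * (4 * Q (z - x) / r ^ 4))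
    (P1 (Q (z - x) / r ^ 2) * (2 * N / r ^ 2))).trans (add_le_add e4 e5)
  exact mul_le_mul (mul_le_mul e1 e2 (by positivity) (abs_nonneg _)) e6 (abs_nonneg _)
    (by positivity)

variable [FiniteDimensional ℝ W] [MeasurableSpace W] [BorelSpace W] {μ : Measure W}
  [μ.IsAddHaarMeasure]

/-- `F` is a weak solution of `∑ ∂_{d k}^2 F = 0` in `U`. -/
def WeakSol (μ : Measure W) (d : ι → W) (U : Set W) (F : W → ℝ) : Prop :=
  ∀ Φ : W → ℝ, ContDiff ℝ ∞ Φ → HasCompactSupport Φ → tsupport Φ ⊆ U →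
    ∫ z, F z * LL d Φ z ∂μ = 0

/-- The average. -/
noncomputable def GA (μ : Measure W) (N : ℕ) (Q : W → ℝ) (F : W → ℝ) (x : W) (r : ℝ) : ℝ :=
  ∫ z, F z * ker N Q x r z ∂μ

lemma integrable_mul_cpt {F φ : W → ℝ} (hF : LocallyIntegrable F μ) (hφ : Continuous φ)
    (hφc : HasCompactSupport φ) : Integrable (fun z => F z * φ z) μ := by
  have := hF.integrable_smul_right_of_hasCompactSupport hφ hφc
  simpa [smul_eq_mul] using this

lemma cpt_of_zero {φ : W → ℝ} {x : W} {R : ℝ} (h : ∀ z, R < ‖z - x‖ → φ z = 0) :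
    HasCompactSupport φ :=
  (isCompact_closedBall x R).of_isClosed_subset (isClosed_tsupport _) (tsupport_sub h)

lemma GA_hasDeriv (hQ : QF N K Q d) {U : Set W} {F : W → ℝ} (hF : LocallyIntegrable F μ)
    (hw : WeakSol μ d U F) {x : W} {r r₂ : ℝ} (hr : 0 < r) (hr2 : r < r₂)
    (hU : Metric.closedBall x (K * r₂) ⊆ U) :
    HasDerivAt (fun r => GA μ N Q F x r) 0 r := by
  obtain ⟨r₁, hr1⟩ : ∃ r₁, r₁ = r / 2 := ⟨_, rfl⟩
  have hr10 : 0 < r₁ := by rw [hr1]; positivity
  have hr1r : r₁ < r := by rw [hr1]; linarith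
  obtain ⟨M, hM0, hM⟩ := dker_bound (N := N) hQ (r₁ := r₁) (r₂ := r₂) hr10
  have hzero : ∫ z, F z * dker N Q x r z ∂μ = 0 := by
    have h1 : ∀ z, dker N Q x r z = LL d (tst N Q x r) z := fun z => (LL_tst hQ x hr z).symm
    simp only [h1]
    have hz : ∀ z, K * r < ‖z - x‖ → tst N Q x r z = 0 := fun z h => tst_zero hQ hr h
    refine hw _ (tst_contDiff hQ x r) (cpt_of_zero hz) ((tsupport_sub hz).trans ?_)
    refine (Metric.closedBall_subset_closedBall ?_).trans hU
    exact mul_le_mul_of_nonneg_left hr2.le hQ.kp.le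
  rw [← hzero]
  have hB : Integrable (fun z => (Metric.closedBall x (K * r₂)).indicator (fun z => |F z| * M) z) μ := by
    rw [integrable_indicator_iff Metric.isClosed_closedBall.measurableSet]
    exact ((hF.integrableOn_isCompact (isCompact_closedBall x (K * r₂))).norm).mul_const M
  unfold GA
  refine (hasDerivAt_integral_of_dominated_loc_of_deriv_le (μ := μ)
    (F := fun r z => F z * ker N Q x r z) (F' := fun r z => F z * dker N Q x r z)
    (bound := fun z => (Metric.closedBall x (K * r₂)).indicator (fun z => |F z| * M) z)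
    (Ioo_mem_nhds hr1r hr2) ?_ ?_ ?_ ?_ hB ?_).2
  · refine Eventually.of_forall fun r => ?_
    exact hF.aestronglyMeasurable.mul (ker_contDiff hQ x r).continuous.aestronglyMeasurable
  · exact integrable_mul_cpt hF (ker_contDiff hQ x r).continuous
      (cpt_of_zero fun z h => ker_zero hQ hr h)
  · exact hF.aestronglyMeasurable.mul (dker_continuous hQ x r).aestronglyMeasurable
  · refine Eventually.of_forall fun z t ht => ?_
    have ht0 : 0 < t := hr10.trans ht.1
    by_cases hz : z ∈ Metric.closedBall x (K * r₂)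
    · rw [indicator_of_mem hz, norm_mul, Real.norm_eq_abs, Real.norm_eq_abs]
      exact mul_le_mul_of_nonneg_left (hM t ht.1.le ht.2.le x z) (abs_nonneg _)
    · rw [indicator_of_notMem hz]
      have : K * t < ‖z - x‖ := by
        rw [Metric.mem_closedBall, dist_eq_norm, not_le] at hz
        have := mul_le_mul_of_nonneg_left ht.2.le hQ.kp.le
        linarith
      rw [dker_zero hQ ht0 this, mul_zero, norm_zero]
  · refine Eventually.of_forall fun z t ht => ?_
    exact (ker_hasDeriv x (hr10.trans ht.1) z).const_mul _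

lemma GA_const (hQ : QF N K Q d) {U : Set W} {F : W → ℝ} (hF : LocallyIntegrable F μ)
    (hw : WeakSol μ d U F) {x : W} {s r r₂ : ℝ} (hs : 0 < s) (hsr : s ≤ r) (hr2 : r < r₂)
    (hU : Metric.closedBall x (K * r₂) ⊆ U) : GA μ N Q F x r = GA μ N Q F x s := by
  have hder : ∀ t ∈ Icc s r, HasDerivWithinAt (fun r => GA μ N Q F x r) 0 (Icc s r) t :=
    fun t ht => (GA_hasDeriv hQ hF hw (lt_of_lt_of_le hs ht.1) (lt_of_le_of_lt ht.2 hr2)
      hU).hasDerivWithinAt
  have := norm_image_sub_le_of_norm_deriv_le_segment' (C := 0) hder (fun t _ => by simp) r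
    ⟨hsr, le_rfl⟩
  rw [zero_mul] at this
  exact sub_eq_zero.1 (norm_le_zero_iff.1 this)

lemma Q_neg (hQ : QF N K Q d) (y : W) : Q (-y) = Q y := by
  have := hQ.hom (-1) y
  simpa using this

/-- The average is a smooth function. -/
lemma GA_contDiff (hQ : QF N K Q d) {F : W → ℝ} (hF : LocallyIntegrable F μ) {r : ℝ}
    (hr : 0 < r) : ContDiff ℝ ∞ (fun x => GA μ N Q F x r) := by
  obtain ⟨k, hk⟩ : ∃ k : W → ℝ, k = ker N Q 0 r := ⟨_, rfl⟩
  have hkc : ContDiff ℝ ∞ k := hk ▸ ker_contDiff hQ 0 r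
  have hks : HasCompactSupport k := hk ▸ cpt_of_zero (x := 0) fun z h => ker_zero hQ hr h
  have h1 := hks.contDiff_convolution_right (n := ⊤) (ContinuousLinearMap.mul ℝ ℝ) hF hkc
  have h2 : (fun x => GA μ N Q F x r) = convolution F k (ContinuousLinearMap.mul ℝ ℝ) μ := by
    funext x
    unfold GA convolution
    refine integral_congr_ae (Eventually.of_forall fun z => ?_)
    simp only [ContinuousLinearMap.mul_apply']
    congr 1
    rw [hk]
    unfold ker
    rw [sub_zero]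
    have : Q (z - x) = Q (x - z) := by rw [← Q_neg hQ, neg_sub]
    rw [this]
  rw [h2]
  exact h1

end Pool.Agent.Lib.MP_9c48c1_an_h27
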