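import Mathlib
import Pool.Agent.Lib.MP_9c48c1_an_h27.WeylB

set_option autoImplicit false
set_option linter.unusedSectionVars false

/-! Weak solutions are almost everywhere equal to smooth functions. -/

namespace Pool.Agent.Lib.MP_9c48c1_an_h27

open MeasureTheory Set Filter Topology
open scoped ContDiff

variable {W : Type*} [NormedAddCommGroup W] [NormedSpace ℝ W]
variable {ι : Type*} [Fintype ι] {N : ℕ} {K : ℝ} {Q : W → ℝ} {d : ι → W}
variable [FiniteDimensional ℝ W] [MeasurableSpace W] [BorelSpace W] {μ : Measure W}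
  [μ.IsAddHaarMeasure]

lemma prof_continuous (hQ : QF N K Q d) : Continuous fun y : W => -2 * P1 (Q y) :=
  continuous_const.mul (P1_contDiff.continuous.comp hQ.sm.continuous)

lemma prof_zero (hQ : QF N K Q d) {y : W} (h : K < ‖y‖) : -2 * P1 (Q y) = 0 := by
  have h1 := arg_gt (x := 0) (z := y) (r := 1) hQ one_pos (by simpa using h)
  have h2 : 1 < Q y := by simpa using h1
  rw [P1_zero_gt h2, mul_zero]

lemma prof_hcs (hQ : QF N K Q d) : HasCompactSupport fun y : W => -2 * P1 (Q y) :=
  cpt_of_zero (x := 0) (R := K) fun z h => prof_zero hQ (by simpa using h)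

lemma c0_pos [Nontrivial W] (hQ : QF N K Q d) : 0 < ∫ y, -2 * P1 (Q y) ∂μ := by
  -- the profile is somewhere positive
  obtain ⟨s₀, hs₀, hs₁, hs₂⟩ : ∃ s₀ : ℝ, 0 < s₀ ∧ s₀ < 1 ∧ P1 s₀ ≠ 0 := by
    by_contra hcon
    push Not at hcon
    obtain ⟨c, hc, hc2⟩ := exists_hasDerivAt_eq_slope PP P1 (show (1 / 2 : ℝ) < 1 by norm_num)
      (PP_contDiff.continuous.continuousOn) (fun x _ => PP_hasDeriv x)
    rw [PP_zero le_rfl, PP_one le_rfl] at hc2
    have := hcon c (by linarith [hc.1]) hc.2
    rw [this] at hc2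
    norm_num at hc2
  obtain ⟨y₁, hy₁⟩ := exists_ne (0 : W)
  have hQ1 : 0 < Q y₁ := by
    by_contra hcon
    push Not at hcon
    have := hQ.bd y₁ 0 le_rfl (by simpa using hcon)
    rw [mul_zero] at this
    exact hy₁ (norm_le_zero_iff.1 this)
  obtain ⟨y, hy⟩ : ∃ y, y = Real.sqrt (s₀ / Q y₁) • y₁ := ⟨_, rfl⟩
  have hQy : Q y = s₀ := by
    rw [hy, hQ.hom, Real.sq_sqrt (by positivity)]
    field_simp
  refine (prof_continuous hQ).integral_pos_of_hasCompactSupport_nonneg_nonzero (prof_hcs hQ)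
    (fun z => ?_) (x := y) ?_
  · have := P1_nonpos (Q z)
    simp only [Pi.zero_apply]
    linarith
  · rw [hQy]
    exact mul_ne_zero (by norm_num) hs₂

/-- The regularised test function. -/
noncomputable def AA (μ : Measure W) (N : ℕ) (Q : W → ℝ) (φ : W → ℝ) (s : ℝ) (z : W) : ℝ :=
  ∫ x, φ x * ker N Q x s z ∂μ

lemma AA_eq (hN : Module.finrank ℝ W = N) (φ : W → ℝ) {s : ℝ} (hs : 0 < s) (z : W) :
    AA μ N Q φ s z = ∫ y, φ (z - s • y) * (-2 * P1 (Q (s • y) / s ^ 2)) ∂μ := by
  unfold AA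
  have h1 : ∫ x, φ x * ker N Q x s z ∂μ = ∫ y, φ (z - y) * ker N Q (z - y) s z ∂μ :=
    (integral_sub_left_eq_self (fun x => φ x * ker N Q x s z) μ z).symm
  have h2 := Measure.integral_comp_smul μ (fun y => φ (z - y) * ker N Q (z - y) s z) s
  rw [hN, abs_of_pos (by positivity), smul_eq_mul] at h2
  have hsN : (0 : ℝ) < s ^ N := pow_pos hs N
  have h3 : ∫ y, φ (z - y) * ker N Q (z - y) s z ∂μ =
      s ^ N * ∫ y, φ (z - s • y) * ker N Q (z - s • y) s z ∂μ := by
    rw [h2, ← mul_assoc, mul_inv_cancel₀ hsN.ne', one_mul]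
  rw [h1, h3, ← integral_const_mul]
  refine integral_congr_ae (Eventually.of_forall fun y => ?_)
  simp only
  unfold ker
  rw [sub_sub_cancel]
  field_simp

lemma AA_eq' (hQ : QF N K Q d) (hN : Module.finrank ℝ W = N) (φ : W → ℝ) {s : ℝ} (hs : 0 < s)
    (z : W) : AA μ N Q φ s z = ∫ y, φ (z - s • y) * (-2 * P1 (Q y)) ∂μ := by
  rw [AA_eq hN φ hs z]
  refine integral_congr_ae (Eventually.of_forall fun y => ?_)
  simp only
  rw [hQ.hom]
  congr 3
  field_simp

lemma ker_cont_prod (hQ : QF N K Q d) (s : ℝ) : Continuous fun q : W × W => ker N Q q.1 s q.2 := by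
  unfold ker
  have h1 : Continuous fun q : W × W => Q (q.2 - q.1) := hQ.sm.continuous.comp (by fun_prop)
  exact continuous_const.mul (continuous_const.mul (P1_contDiff.continuous.comp (h1.div_const _)))

lemma AA_continuous (hQ : QF N K Q d) {φ : W → ℝ} (hφ : Continuous φ) (hφc : HasCompactSupport φ)
    (s : ℝ) : Continuous (AA μ N Q φ s) := by
  have h1 : ∀ z, AA μ N Q φ s z = ∫ x in tsupport φ, φ x * ker N Q x s z ∂μ := by
    intro z
    refine (setIntegral_eq_integral_of_forall_compl_eq_zero fun y hy => ?_).symm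
    rw [image_eq_zero_of_notMem_tsupport hy, zero_mul]
  have h2 : Continuous fun z => ∫ x in tsupport φ, φ x * ker N Q x s z ∂μ := by
    refine continuous_parametric_integral_of_continuous (f := fun (z : W) x =>
      φ x * ker N Q x s z) ?_ hφc
    exact (hφ.comp continuous_snd).mul ((ker_cont_prod hQ s).comp continuous_swap)
  rw [show AA μ N Q φ s = fun z => ∫ x in tsupport φ, φ x * ker N Q x s z ∂μ from funext h1]
  exact h2

/-- Fubini. -/
lemma fubini_AA (hQ : QF N K Q d) {F φ : W → ℝ} (hF : LocallyIntegrable F μ) (hφ : Continuous φ)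
    (hφc : HasCompactSupport φ) {s : ℝ} (hs : 0 < s) :
    ∫ x, φ x * GA μ N Q F x s ∂μ = ∫ z, F z * AA μ N Q φ s z ∂μ := by
  obtain ⟨C1, hC1, hb1⟩ := exists_bound P1 P1_contDiff.continuous fun s => P1_zero_gt
  obtain ⟨Cφ, hCφ⟩ : ∃ C, ∀ x, ‖φ x‖ ≤ C := hφ.bounded_above_of_compact_support hφc
  obtain ⟨K2, hK2⟩ : ∃ K2, K2 = Metric.cthickening (K * s) (tsupport φ) := ⟨_, rfl⟩
  have hK2c : IsCompact K2 := hK2 ▸ hφc.isCompact.cthickening
  have hkb : ∀ x z, |ker N Q x s z| ≤ (s ^ N)⁻¹ * (2 * C1) := by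
    intro x z
    unfold ker
    rw [abs_mul, abs_of_pos (inv_pos.2 (pow_pos hs N)), abs_mul]
    have := hb1 (Q (z - x) / s ^ 2) (div_nonneg (hQ.nn _) (by positivity))
    refine mul_le_mul_of_nonneg_left ?_ (by positivity)
    have h2 : |(-2 : ℝ)| = 2 := by norm_num
    rw [h2]
    exact mul_le_mul_of_nonneg_left this (by norm_num)
  have hint : Integrable (fun q : W × W => φ q.1 * (F q.2 * ker N Q q.1 s q.2)) (μ.prod μ) := by
    have hg : Integrable (fun q : W × W => (tsupport φ).indicator (fun _ => Cφ * ((s ^ N)⁻¹ * (2 * C1))) q.1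
        * K2.indicator (fun z => |F z|) q.2) (μ.prod μ) := by
      refine Integrable.mul_prod (f := (tsupport φ).indicator fun _ => Cφ * ((s ^ N)⁻¹ * (2 * C1)))
        (g := K2.indicator fun z => |F z|) ?_ ?_
      · rw [integrable_indicator_iff (isClosed_tsupport φ).measurableSet]
        exact integrableOn_const (hφc.isCompact.measure_lt_top.ne)
      · rw [integrable_indicator_iff hK2c.measurableSet]
        exact (hF.integrableOn_isCompact hK2c).norm
    refine hg.mono' ?_ ?_
    · refine (hφ.comp continuous_fst).aestronglyMeasurable.mul ?_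
      exact (hF.aestronglyMeasurable.comp_snd).mul (ker_cont_prod hQ s).aestronglyMeasurable
    · refine Eventually.of_forall fun q => ?_
      by_cases h1 : q.1 ∈ tsupport φ
      · by_cases h2 : q.2 ∈ K2
        · rw [indicator_of_mem h1, indicator_of_mem h2, norm_mul, norm_mul]
          have e1 := hCφ q.1
          have e2 := hkb q.1 q.2
          rw [Real.norm_eq_abs (F q.2), Real.norm_eq_abs (ker N Q q.1 s q.2)]
          have hCφ0 : 0 ≤ Cφ := (norm_nonneg _).trans e1
          calc ‖φ q.1‖ * (|F q.2| * |ker N Q q.1 s q.2|) ≤ Cφ * (|F q.2| * ((s ^ N)⁻¹ * (2 * C1))) :=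
                mul_le_mul e1 (mul_le_mul_of_nonneg_left e2 (abs_nonneg _)) (by positivity) hCφ0
            _ = Cφ * ((s ^ N)⁻¹ * (2 * C1)) * |F q.2| := by ring
        · have : ker N Q q.1 s q.2 = 0 := by
            refine ker_zero hQ hs ?_
            by_contra hcon
            push Not at hcon
            apply h2
            rw [hK2]
            exact Metric.mem_cthickening_of_dist_le _ q.1 _ _ h1 (by rw [dist_eq_norm]; exact hcon)
          rw [this, mul_zero, mul_zero, norm_zero, indicator_of_notMem h2, mul_zero]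
      · rw [image_eq_zero_of_notMem_tsupport h1, zero_mul, norm_zero, indicator_of_notMem h1,
          zero_mul]
  have e1 : ∀ x, φ x * GA μ N Q F x s = ∫ z, φ x * (F z * ker N Q x s z) ∂μ := fun x => by
    unfold GA
    rw [integral_const_mul]
  have e2 : ∀ z, F z * AA μ N Q φ s z = ∫ x, φ x * (F z * ker N Q x s z) ∂μ := fun z => by
    unfold AA
    rw [← integral_const_mul]
    refine integral_congr_ae (Eventually.of_forall fun x => ?_)
    simp only
    ring
  simp only [e1, e2]
  exact integral_integral_swap hint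

lemma AA_limit (hQ : QF N K Q d) (hN : Module.finrank ℝ W = N) {F φ : W → ℝ}
    (hF : LocallyIntegrable F μ) (hφ : Continuous φ) (hφc : HasCompactSupport φ) :
    Tendsto (fun s => ∫ z, F z * AA μ N Q φ s z ∂μ) (𝓝[>] 0)
      (𝓝 (∫ z, F z * (φ z * ∫ y, -2 * P1 (Q y) ∂μ) ∂μ)) := by
  obtain ⟨Cφ, hCφ⟩ : ∃ C, ∀ x, ‖φ x‖ ≤ C := hφ.bounded_above_of_compact_support hφc
  have hCφ0 : 0 ≤ Cφ := (norm_nonneg _).trans (hCφ 0)
  have hpi : Integrable (fun y : W => -2 * P1 (Q y)) μ :=
    (prof_continuous hQ).integrable_of_hasCompactSupport (prof_hcs hQ)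
  have hp0 : ∀ y : W, 0 ≤ -2 * P1 (Q y) := fun y => by have := P1_nonpos (Q y); linarith
  obtain ⟨c₀, hc₀⟩ : ∃ c₀, c₀ = ∫ y, -2 * P1 (Q y) ∂μ := ⟨_, rfl⟩
  have hc0 : 0 ≤ c₀ := hc₀ ▸ integral_nonneg hp0
  obtain ⟨K2, hK2⟩ : ∃ K2, K2 = Metric.cthickening K (tsupport φ) := ⟨_, rfl⟩
  have hK2c : IsCompact K2 := hK2 ▸ hφc.isCompact.cthickening
  have hIoo : Ioo (0 : ℝ) 1 ∈ 𝓝[>] (0 : ℝ) := Ioo_mem_nhdsGT one_pos
  refine tendsto_integral_filter_of_dominated_convergence
    (K2.indicator fun z => |F z| * (Cφ * c₀)) ?_ ?_ ?_ ?_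
  · exact Eventually.of_forall fun s =>
      hF.aestronglyMeasurable.mul (AA_continuous hQ hφ hφc s).aestronglyMeasurable
  · filter_upwards [hIoo] with s hs
    refine Eventually.of_forall fun z => ?_
    by_cases h2 : z ∈ K2
    · rw [indicator_of_mem h2, norm_mul, Real.norm_eq_abs]
      refine mul_le_mul_of_nonneg_left ?_ (abs_nonneg _)
      rw [AA_eq' hQ hN φ hs.1 z, hc₀, ← integral_const_mul]
      refine (norm_integral_le_integral_norm _).trans ?_
      refine integral_mono_of_nonneg (Eventually.of_forall fun _ => norm_nonneg _)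
        (hpi.const_mul _) (Eventually.of_forall fun y => ?_)
      simp only
      rw [norm_mul, Real.norm_of_nonneg (hp0 y)]
      exact mul_le_mul_of_nonneg_right (hCφ _) (hp0 y)
    · rw [indicator_of_notMem h2]
      have : AA μ N Q φ s z = 0 := by
        rw [AA_eq' hQ hN φ hs.1 z]
        refine integral_eq_zero_of_ae (Eventually.of_forall fun y => ?_)
        simp only [Pi.zero_apply]
        by_cases hy : K < ‖y‖
        · rw [prof_zero hQ hy, mul_zero]
        · push Not at hy
          have : z - s • y ∉ tsupport φ := by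
            intro hmem
            apply h2
            rw [hK2]
            refine Metric.mem_cthickening_of_dist_le _ (z - s • y) _ _ hmem ?_
            rw [dist_eq_norm, sub_sub_cancel, norm_smul, Real.norm_of_nonneg hs.1.le]
            have := mul_le_mul hs.2.le hy (norm_nonneg _) zero_le_one
            linarith
          rw [image_eq_zero_of_notMem_tsupport this, zero_mul]
      rw [this, mul_zero, norm_zero]
  · rw [integrable_indicator_iff hK2c.measurableSet]
    exact ((hF.integrableOn_isCompact hK2c).norm).mul_const _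
  · refine Eventually.of_forall fun z => ?_
    refine Tendsto.const_mul _ ?_
    have h1 : Tendsto (fun s : ℝ => ∫ y, φ (z - s • y) * (-2 * P1 (Q y)) ∂μ) (𝓝[>] 0)
        (𝓝 (∫ y, φ z * (-2 * P1 (Q y)) ∂μ)) := by
      refine tendsto_integral_filter_of_dominated_convergence (fun y => Cφ * (-2 * P1 (Q y))) ?_ ?_
        (hpi.const_mul _) ?_
      · exact Eventually.of_forall fun s =>
          ((hφ.comp (by fun_prop)).mul (prof_continuous hQ)).aestronglyMeasurable
      · refine Eventually.of_forall fun s => Eventually.of_forall fun y => ?_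
        rw [norm_mul, Real.norm_of_nonneg (hp0 y)]
        exact mul_le_mul_of_nonneg_right (hCφ _) (hp0 y)
      · refine Eventually.of_forall fun y => ?_
        refine Tendsto.mul_const _ ?_
        have hc : Continuous fun s : ℝ => φ (z - s • y) := hφ.comp (by fun_prop)
        have := hc.tendsto 0
        simp only [zero_smul, sub_zero] at this
        exact this.mono_left nhdsWithin_le_nhds
    rw [integral_const_mul] at h1
    refine h1.congr' ?_
    filter_upwards [hIoo] with s hs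
    exact (AA_eq' hQ hN φ hs.1 z).symm

/-- **Weyl's lemma.** -/
theorem weyl [Nontrivial W] (hQ : QF N K Q d) (hN : Module.finrank ℝ W = N) {U : Set W}
    (hU : IsOpen U) {F : W → ℝ} (hF : LocallyIntegrable F μ) (hw : WeakSol μ d U F) {x₀ : W}
    (hx₀ : x₀ ∈ U) : ∃ δ : ℝ, 0 < δ ∧ ∃ H : W → ℝ, ContDiff ℝ ∞ H ∧
      ∀ᵐ z ∂μ, z ∈ Metric.ball x₀ δ → F z = H z := by
  obtain ⟨η, hη, hη'⟩ := Metric.isOpen_iff.1 hU x₀ hx₀
  have hK := hQ.kp
  obtain ⟨r₂, hr₂⟩ : ∃ r₂, r₂ = η / (3 * K) := ⟨_, rfl⟩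
  have hr₂0 : 0 < r₂ := by rw [hr₂]; positivity
  have hKr : K * r₂ = η / 3 := by rw [hr₂]; field_simp
  obtain ⟨r, hr⟩ : ∃ r, r = r₂ / 2 := ⟨_, rfl⟩
  have hr0 : 0 < r := by rw [hr]; positivity
  have hrr : r < r₂ := by rw [hr]; linarith
  have hball : ∀ x ∈ Metric.ball x₀ (η / 3), Metric.closedBall x (K * r₂) ⊆ U := by
    intro x hx y hy
    apply hη'
    rw [Metric.mem_ball] at hx ⊢
    rw [Metric.mem_closedBall, hKr] at hy
    have := dist_triangle y x x₀
    linarith
  obtain ⟨c₀, hc₀⟩ : ∃ c₀, c₀ = ∫ y, -2 * P1 (Q y) ∂μ := ⟨_, rfl⟩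
  have hc0 : 0 < c₀ := hc₀ ▸ c0_pos hQ
  refine ⟨η / 3, by positivity, fun x => c₀⁻¹ * GA μ N Q F x r,
    contDiff_const.mul (GA_contDiff hQ hF hr0), ?_⟩
  have hHc : Continuous fun x => c₀⁻¹ * GA μ N Q F x r :=
    (contDiff_const.mul (GA_contDiff hQ hF hr0)).continuous
  have key := Metric.isOpen_ball (x := x₀) (ε := η / 3) |>.ae_eq_zero_of_integral_contDiff_smul_eq_zero
    (f := fun x => F x - c₀⁻¹ * GA μ N Q F x r) (μ := μ) ?_ ?_
  · filter_upwards [key] with x hx hxb
    have := hx hxb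
    linarith
  · exact (hF.sub hHc.locallyIntegrable).locallyIntegrableOn _
  · intro φ hφ hφc hs
    have h1 : ∀ s ∈ Ioo (0 : ℝ) r, ∫ z, F z * AA μ N Q φ s z ∂μ = ∫ x, φ x * GA μ N Q F x r ∂μ := by
      intro s hs'
      rw [← fubini_AA hQ hF hφ.continuous hφc hs'.1]
      refine integral_congr_ae (Eventually.of_forall fun x => ?_)
      simp only
      by_cases hx : x ∈ tsupport φ
      · rw [GA_const hQ hF hw hs'.1 hs'.2.le hrr (hball x (hs hx))]
      · rw [image_eq_zero_of_notMem_tsupport hx, zero_mul, zero_mul]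
    have h2 := AA_limit hQ hN hF hφ.continuous hφc
    rw [← hc₀] at h2
    have h3 : Tendsto (fun s => ∫ z, F z * AA μ N Q φ s z ∂μ) (𝓝[>] 0)
        (𝓝 (∫ x, φ x * GA μ N Q F x r ∂μ)) := by
      refine tendsto_const_nhds.congr' ?_
      filter_upwards [Ioo_mem_nhdsGT hr0] with s hs'
      exact (h1 s hs').symm
    have h4 := tendsto_nhds_unique h2 h3
    have i1 : Integrable (fun z => F z * φ z) μ := integrable_mul_cpt hF hφ.continuous hφc
    have i2 : Integrable (fun z => GA μ N Q F z r * φ z) μ :=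
      integrable_mul_cpt (GA_contDiff hQ hF hr0).continuous.locallyIntegrable hφ.continuous hφc
    have e1 : (fun x => φ x • (F x - c₀⁻¹ * GA μ N Q F x r)) =
        fun x => F x * φ x - c₀⁻¹ * (GA μ N Q F x r * φ x) := by
      funext x
      rw [smul_eq_mul]
      ring
    rw [e1, integral_sub i1 (i2.const_mul _), integral_const_mul]
    have e2 : ∫ z, F z * (φ z * c₀) ∂μ = c₀ * ∫ z, F z * φ z ∂μ := by
      rw [← integral_const_mul]
      refine integral_congr_ae (Eventually.of_forall fun x => ?_)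
      simp only
      ring
    have e3 : ∫ x, φ x * GA μ N Q F x r ∂μ = ∫ x, GA μ N Q F x r * φ x ∂μ := by
      refine integral_congr_ae (Eventually.of_forall fun x => ?_)
      simp only
      ring
    rw [e2, e3] at h4
    rw [← h4]
    field_simp
    ring

end Pool.Agent.Lib.MP_9c48c1_an_h27
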