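import Mathlib
import Pool.Agent.Lib.MP_9c48c1_an.Defs
import Pool.Agent.Lib.MP_9c48c1_an_h27.TwoB
import Pool.Agent.Lib.MP_9c48c1_an_h27.WeylC

set_option autoImplicit false

/-! `p = 2`: the Euler-Lagrange equation in weak second order form. -/

namespace Pool.Agent.Lib.MP_9c48c1_an_h27

open MeasureTheory Set Filter Topology Matrix Pool.Agent.Lib.MP_9c48c1_an
open scoped ContDiff

variable {n : ℕ}

section general
variable {W : Type*} [NormedAddCommGroup W] [NormedSpace ℝ W]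

lemma d2_eq {φ : W → ℝ} (hφ : ContDiff ℝ ∞ φ) (x u v : W) :
    fderiv ℝ (fun y => fderiv ℝ φ y v) x u = fderiv ℝ (fderiv ℝ φ) x u v := by
  have h1 : Differentiable ℝ (fderiv ℝ φ) :=
    (hφ.fderiv_right (m := ∞) (by simp)).differentiable (by simp)
  have h2 := (h1 x).hasFDerivAt.clm_apply (hasFDerivAt_const v x)
  have h3 := h2.fderiv
  rw [h3]
  simp

lemma d2_contDiff {φ : W → ℝ} (hφ : ContDiff ℝ ∞ φ) (v : W) :
    ContDiff ℝ ∞ (fun y => fderiv ℝ φ y v) :=
  (hφ.fderiv_right (m := ∞) (by simp)).clm_apply contDiff_const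

lemma d1_tsupport (φ : W → ℝ) (v : W) : tsupport (fun y => fderiv ℝ φ y v) ⊆ tsupport φ := by
  refine (closure_mono ?_).trans (tsupport_fderiv_subset ℝ (f := φ))
  intro x hx
  simp only [Function.mem_support] at hx ⊢
  intro h
  exact hx (by rw [h]; simp)

lemma d1_hcs {φ : W → ℝ} (hφ : HasCompactSupport φ) (v : W) :
    HasCompactSupport (fun y => fderiv ℝ φ y v) :=
  hφ.mono' ((subset_tsupport _).trans (d1_tsupport φ v))

end general

/-- `∫ f ∂_i ∂_j φ`. -/
noncomputable def hh (f φ : E n → ℝ) (i j : Fin n) : ℝ :=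
  ∫ x, f x * fderiv ℝ (fderiv ℝ φ) x (EuclideanSpace.single i (1 : ℝ)) (EuclideanSpace.single j (1 : ℝ))

lemma sum_single (v : E n) : v = ∑ i, v i • EuclideanSpace.single i (1 : ℝ) := by
  have := (EuclideanSpace.basisFun (Fin n) ℝ).sum_repr v
  simpa using this.symm

lemma hh_integrable {f φ : E n → ℝ} (hf : LocallyIntegrable f) (hφ : ContDiff ℝ ∞ φ)
    (hφc : HasCompactSupport φ) (u v : E n) :
    Integrable fun x => f x * fderiv ℝ (fderiv ℝ φ) x u v := by
  have h1 : (fun x => f x * fderiv ℝ (fderiv ℝ φ) x u v) =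
      fun x => f x * fderiv ℝ (fun y => fderiv ℝ φ y v) x u := by
    funext x
    rw [d2_eq hφ]
  rw [h1]
  exact integrable_mul_cpt hf (d2_contDiff (d2_contDiff hφ v) u).continuous (d1_hcs (d1_hcs hφc v) u)

/-- The expansion of the second derivative in coordinates. -/
lemma hh_expand {f φ : E n → ℝ} (hf : LocallyIntegrable f) (hφ : ContDiff ℝ ∞ φ)
    (hφc : HasCompactSupport φ) (u v : E n) :
    ∫ x, f x * fderiv ℝ (fderiv ℝ φ) x u v = ∑ i, ∑ j, (u i * v j) * hh f φ i j := by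
  have h1 : ∀ x, f x * fderiv ℝ (fderiv ℝ φ) x u v = ∑ i, ∑ j, (u i * v j) *
      (f x * fderiv ℝ (fderiv ℝ φ) x (EuclideanSpace.single i (1 : ℝ))
        (EuclideanSpace.single j (1 : ℝ))) := by
    intro x
    conv_lhs => rw [sum_single u, sum_single v]
    simp only [map_sum, map_smul, _root_.sum_apply, _root_.smul_apply,
      smul_eq_mul, Finset.mul_sum]
    rw [Finset.sum_comm]
    refine Finset.sum_congr rfl fun i _ => Finset.sum_congr rfl fun j _ => ?_
    ring
  simp only [h1]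
  rw [integral_finsetSum _ fun i _ => integrable_finsetSum _ fun j _ =>
    (hh_integrable hf hφ hφc _ _).const_mul _]
  refine Finset.sum_congr rfl fun i _ => ?_
  rw [integral_finsetSum _ fun j _ => (hh_integrable hf hφ hφc _ _).const_mul _]
  refine Finset.sum_congr rfl fun j _ => ?_
  rw [integral_const_mul]
  rfl

lemma psi_two (t : ℝ) : psi 2 t = t := by
  unfold psi
  simp

lemma memLp_locInt {f : E n → ℝ} (hf : MemLp f (ENNReal.ofReal 2)) : LocallyIntegrable f :=
  hf.locallyIntegrable (by simp)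

lemma DD_two {Ω : Set (E n)} (hΩ : Bornology.IsBounded Ω) {f : E n → ℝ} {g : E n → E n}
    (h : MemW0 2 Ω f g) {φ : E n → ℝ} (hφ : ContDiff ℝ ∞ φ) (hφc : HasCompactSupport φ) (ξ : E n) :
    DD 2 g (gradient φ) ξ = -∑ i, ∑ j, (ξ i * ξ j) * hh f φ i j := by
  have h1 := weak_gradient (by norm_num) hΩ h ((d2_contDiff hφ ξ).of_le (m := 1) (by simp))
    (d1_hcs hφc ξ) ξ
  have h2 : ∫ x, f x * fderiv ℝ (fun y => fderiv ℝ φ y ξ) x ξ =
      ∫ x, f x * fderiv ℝ (fderiv ℝ φ) x ξ ξ := by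
    refine integral_congr_ae (Eventually.of_forall fun x => ?_)
    simp only
    rw [d2_eq hφ]
  rw [h2, hh_expand (memLp_locInt h.1) hφ hφc] at h1
  unfold DD
  simp only [psi_two, inner_gradient]
  linarith

lemma GG_two {Ω : Set (E n)} (hΩ : Bornology.IsBounded Ω) {f : E n → ℝ} {g : E n → E n}
    (h : MemW0 2 Ω f g) {φ : E n → ℝ} (hφ : ContDiff ℝ ∞ φ) (hφc : HasCompactSupport φ) :
    GG 2 g (gradient φ) = -∑ i, hh f φ i i := by
  have h1 : ∀ i : Fin n, ∫ x, (inner ℝ (g x) (EuclideanSpace.single i (1 : ℝ)) : ℝ) *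
      fderiv ℝ φ x (EuclideanSpace.single i (1 : ℝ)) = - hh f φ i i := by
    intro i
    have h1 := weak_gradient (by norm_num) hΩ h ((d2_contDiff hφ
      (EuclideanSpace.single i (1 : ℝ))).of_le (m := 1) (by simp))
      (d1_hcs hφc _) (EuclideanSpace.single i (1 : ℝ))
    have h2 : ∫ x, f x * fderiv ℝ (fun y => fderiv ℝ φ y (EuclideanSpace.single i (1 : ℝ))) x
        (EuclideanSpace.single i (1 : ℝ)) = hh f φ i i := by
      refine integral_congr_ae (Eventually.of_forall fun x => ?_)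
      simp only
      rw [d2_eq hφ]
    rw [h2] at h1
    linarith
  have hgl : ∀ i : Fin n, LocallyIntegrable
      fun x => (inner ℝ (g x) (EuclideanSpace.single i (1 : ℝ)) : ℝ) := fun i =>
    (memLp_inner h.2.1 _).locallyIntegrable (by simp)
  unfold GG
  have h3 : (fun x => ‖g x‖ ^ ((2 : ℝ) - 2) * inner ℝ (g x) (gradient φ x)) = fun x =>
      ∑ i, (inner ℝ (g x) (EuclideanSpace.single i (1 : ℝ)) : ℝ) *
      fderiv ℝ φ x (EuclideanSpace.single i (1 : ℝ)) := by
    funext x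
    rw [sub_self, Real.rpow_zero, one_mul, PiLp.inner_apply]
    refine Finset.sum_congr rfl fun i _ => ?_
    rw [← inner_gradient, EuclideanSpace.inner_single_right, EuclideanSpace.inner_single_right]
    simp
    ring
  rw [h3, integral_finsetSum _ fun i _ => integrable_mul_cpt (hgl i) (d2_contDiff hφ _).continuous
    (d1_hcs hφc _)]
  rw [← Finset.sum_neg_distrib]
  exact Finset.sum_congr rfl fun i _ => h1 i

lemma weak_second (hn : 2 ≤ n) {Ω : Set (E n)} (hΩ : Bornology.IsBounded Ω)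
    {A : ℝ} (hA : ∀ u : E n → ℝ, Adm Ω u → A * rhs 2 u (gradient u) ≤ affEnergy 2 (gradient u))
    {f : E n → ℝ} {g : E n → E n} (h : MemW0 2 Ω f g) (h0 : ¬ f =ᵐ[volume] 0)
    (heq : affEnergy 2 g = A * rhs 2 f g) {φ : E n → ℝ} (hφ : ContDiff ℝ ∞ φ)
    (hφc : HasCompactSupport φ) (hs : tsupport φ ⊆ Ω) :
    ∑ i, ∑ j, Bm g i j * hh f φ i j = -((((n : ℝ) - 1) / ∫ x, |f x| ^ (2 : ℝ)) * ∫ x, f x * φ x) := by
  have hg2 : MemLp g 2 := by simpa using h.2.1
  have hnd := nonDeg_W0 (by norm_num) hΩ h h0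
  have hM := posDef_of_nonDeg hg2 hnd
  have hEL := euler_lagrange (p := 2) (by omega) (by norm_num) hΩ hA h h0 heq
    (φ := φ) ⟨hφ.of_le (by simp), hs⟩
  have ci : ∀ i j : Fin n, Integrable (fun ξ : Metric.sphere (0 : E n) 1 =>
      ((ξ : E n) i * (ξ : E n) j) * hh f φ i j * NN 2 g (ξ : E n) ^ (-((n : ℝ) / 2) - 1))
      (volume : Measure (E n)).toSphere := by
    intro i j
    simp only [NN_two g hg2]
    refine Continuous.integrable_of_hasCompactSupport ?_ (HasCompactSupport.of_compactSpace _)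
    refine Continuous.mul ?_ (sphere_rpow_continuous hM _)
    fun_prop
  have hFF : FF 2 f φ = ∫ x, f x * φ x := by
    unfold FF
    simp only [psi_two]
  have h1 : (∫ ξ : Metric.sphere (0 : E n) 1, DD 2 g (gradient φ) ξ *
        NN 2 g ξ ^ (-((n : ℝ) / 2) - 1) ∂(volume : Measure (E n)).toSphere) =
      -∑ i, ∑ j, hh f φ i j * ∫ ξ : Metric.sphere (0 : E n) 1, ((ξ : E n) i * (ξ : E n) j) *
        NN 2 g ξ ^ (-((n : ℝ) / 2) - 1) ∂(volume : Measure (E n)).toSphere := by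
    have e1 : ∀ ξ : Metric.sphere (0 : E n) 1, DD 2 g (gradient φ) ξ *
        NN 2 g ξ ^ (-((n : ℝ) / 2) - 1) = -∑ i, ∑ j, ((ξ : E n) i * (ξ : E n) j) * hh f φ i j *
        NN 2 g (ξ : E n) ^ (-((n : ℝ) / 2) - 1) := by
      intro ξ
      rw [DD_two hΩ h hφ hφc, neg_mul, Finset.sum_mul]
      congr 1
      refine Finset.sum_congr rfl fun i _ => ?_
      rw [Finset.sum_mul]
    simp only [e1]
    rw [integral_neg, integral_finsetSum _ fun i _ => integrable_finsetSum _ fun j _ => ci i j]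
    congr 1
    refine Finset.sum_congr rfl fun i _ => ?_
    rw [integral_finsetSum _ fun j _ => ci i j]
    refine Finset.sum_congr rfl fun j _ => ?_
    rw [← integral_const_mul]
    refine integral_congr_ae (Eventually.of_forall fun ξ => ?_)
    simp only
    ring
  rw [h1, GG_two hΩ h hφ hφc, hFF, trace_eq hg2] at hEL
  have h2 : ∑ i, ∑ j, Bm g i j * hh f φ i j = (n : ℝ) * (∑ i, ∑ j, hh f φ i j *
      ∫ ξ : Metric.sphere (0 : E n) 1, ((ξ : E n) i * (ξ : E n) j) *
        NN 2 g ξ ^ (-((n : ℝ) / 2) - 1) ∂(volume : Measure (E n)).toSphere) / ZZ 2 g -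
      (∑ i, hh f φ i i) / (mm g).trace := by
    simp only [Bm, of_apply, Finset.mul_sum, Finset.sum_div]
    rw [← Finset.sum_sub_distrib]
    refine Finset.sum_congr rfl fun i _ => ?_
    have e4 : hh f φ i i / (mm g).trace =
        ∑ j, (if i = j then 1 / (mm g).trace else 0) * hh f φ i j := by
      simp
      ring
    rw [e4, ← Finset.sum_sub_distrib]
    refine Finset.sum_congr rfl fun j _ => ?_
    ring
  rw [h2]
  have h3 : ((n : ℝ) - 1) * (∫ x, f x * φ x) / (∫ x, |f x| ^ (2 : ℝ)) =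
      (((n : ℝ) - 1) / ∫ x, |f x| ^ (2 : ℝ)) * ∫ x, f x * φ x := by ring
  rw [h3] at hEL
  have h4 : ∀ S Z : ℝ, (n : ℝ) * -S / Z = -((n : ℝ) * S / Z) := fun S Z => by ring
  have h5 : ∀ S Z : ℝ, -S / Z = -(S / Z) := fun S Z => by ring
  rw [h4, h5] at hEL
  linarith

/-- The operator as a sum of squares. -/
lemma exists_factor (hn : 2 ≤ n) {g : E n → E n} (hg : MemLp g 2) (h : NonDeg 2 g) :
    ∃ T : E n ≃L[ℝ] E n, ∀ i j, Bm g i j = ∑ k, (T (EuclideanSpace.single k (1 : ℝ))) i *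
      (T (EuclideanSpace.single k (1 : ℝ))) j := by
  have hM := Bm_posDef hn hg h
  obtain ⟨B, hB⟩ : ∃ B : Matrix (Fin n) (Fin n) ℝ, Bm g = Bᵀ * B := by
    open scoped MatrixOrder in
    obtain ⟨B, hB⟩ := CStarAlgebra.nonneg_iff_eq_star_mul_self.mp hM.posSemidef.nonneg
    exact ⟨B, by rw [hB, star_eq_conjTranspose, conjTranspose_eq_transpose_of_trivial]⟩
  have hBdet : Bᵀ.det ≠ 0 := by
    intro h
    have := hM.det_pos
    rw [hB, det_mul, h] at this
    norm_num at this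
  let L : E n →ₗ[ℝ] E n := Matrix.toEuclideanLin Bᵀ
  let e : E n ≃ₗ[ℝ] E n := LinearEquiv.ofIsUnitDet (f := L)
    (v := (EuclideanSpace.basisFun (Fin n) ℝ).toBasis)
    (v' := (EuclideanSpace.basisFun (Fin n) ℝ).toBasis) (by
      have : LinearMap.toMatrix (EuclideanSpace.basisFun (Fin n) ℝ).toBasis
        (EuclideanSpace.basisFun (Fin n) ℝ).toBasis L = Bᵀ := LinearMap.toMatrix_toLin _ _ _
      rw [this]
      exact isUnit_iff_ne_zero.2 hBdet)
  refine ⟨e.toContinuousLinearEquiv, fun i j => ?_⟩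
  have h1 : ∀ k i, (e.toContinuousLinearEquiv (EuclideanSpace.single k (1 : ℝ))) i = B k i := by
    intro k i
    have h2 : (e.toContinuousLinearEquiv (EuclideanSpace.single k (1 : ℝ))).ofLp =
        Bᵀ *ᵥ (EuclideanSpace.single k (1 : ℝ) : E n).ofLp := rfl
    have h3 : (EuclideanSpace.single k (1 : ℝ) : E n).ofLp = Pi.single k 1 := rfl
    rw [h2, h3, mulVec_single_one]
    rfl
  simp only [h1]
  rw [hB, Matrix.mul_apply]
  rfl

end Pool.Agent.Lib.MP_9c48c1_an_h27
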