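import Mathlib
import Pool.Agent.Lib.MP_9c48c1_an.Defs
import Pool.Agent.Lib.MP_9c48c1_an_h27.TwoC

set_option autoImplicit false

/-! `p = 2`: adding a variable, so that the equation becomes homogeneous. -/

namespace Pool.Agent.Lib.MP_9c48c1_an_h27

open MeasureTheory Set Filter Topology Matrix Pool.Agent.Lib.MP_9c48c1_an
open scoped ContDiff

variable {n : ℕ}

/-- The directions. -/
noncomputable def dd (T : E n ≃L[ℝ] E n) (o : Option (Fin n)) : ℝ × E n :=
  o.elim (1, 0) fun k => (0, T (EuclideanSpace.single k (1 : ℝ)))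

/-- The quadratic form. -/
noncomputable def QT (T : E n ≃L[ℝ] E n) (z : ℝ × E n) : ℝ := z.1 ^ 2 + ‖T.symm z.2‖ ^ 2

lemma QT_hasFDerivAt (T : E n ≃L[ℝ] E n) (z : ℝ × E n) : ∃ L : (ℝ × E n) →L[ℝ] ℝ,
    HasFDerivAt (QT T) L z ∧ ∀ w, L w = 2 * z.1 * w.1 + 2 * inner ℝ (T.symm z.2) (T.symm w.2) := by
  have h1 : HasFDerivAt (fun z : ℝ × E n => z.1) (ContinuousLinearMap.fst ℝ ℝ (E n)) z :=
    hasFDerivAt_fst
  have h2 : HasFDerivAt (fun z : ℝ × E n => z.2) (ContinuousLinearMap.snd ℝ ℝ (E n)) z :=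
    hasFDerivAt_snd
  have h3 : HasFDerivAt (fun z : ℝ × E n => T.symm z.2)
      ((T.symm : E n →L[ℝ] E n).comp (ContinuousLinearMap.snd ℝ ℝ (E n))) z :=
    ((T.symm : E n →L[ℝ] E n).hasFDerivAt).comp z h2
  have h4 := (h1.pow 2).add h3.norm_sq
  refine ⟨_, h4, fun w => ?_⟩
  simp

lemma QT_fderiv (T : E n ≃L[ℝ] E n) (z w : ℝ × E n) : fderiv ℝ (QT T) z w =
    2 * z.1 * w.1 + 2 * inner ℝ (T.symm z.2) (T.symm w.2) := by
  obtain ⟨L, h1, h2⟩ := QT_hasFDerivAt T z
  rw [h1.fderiv, h2]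

lemma QT_fderiv2 (T : E n ≃L[ℝ] E n) (z w : ℝ × E n) :
    fderiv ℝ (fun z => fderiv ℝ (QT T) z w) z w = 2 * w.1 ^ 2 + 2 * ‖T.symm w.2‖ ^ 2 := by
  simp only [QT_fderiv]
  have h1 : HasFDerivAt (fun z : ℝ × E n => z.1) (ContinuousLinearMap.fst ℝ ℝ (E n)) z :=
    hasFDerivAt_fst
  have h2 : HasFDerivAt (fun z : ℝ × E n => z.2) (ContinuousLinearMap.snd ℝ ℝ (E n)) z :=
    hasFDerivAt_snd
  have h3 : HasFDerivAt (fun z : ℝ × E n => T.symm z.2)
      ((T.symm : E n →L[ℝ] E n).comp (ContinuousLinearMap.snd ℝ ℝ (E n))) z :=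
    ((T.symm : E n →L[ℝ] E n).hasFDerivAt).comp z h2
  have h4 := ((h1.const_mul 2).mul_const w.1).add
    ((h3.inner ℝ (hasFDerivAt_const (T.symm w.2) z)).const_mul 2)
  have h5 : fderiv ℝ (fun z : ℝ × E n => 2 * z.1 * w.1 + 2 * inner ℝ (T.symm z.2) (T.symm w.2)) z =
    _ := h4.fderiv
  rw [h5]
  simp
  ring

lemma QT_QF (T : E n ≃L[ℝ] E n) : QF (n + 1) (‖(T : E n →L[ℝ] E n)‖ + 1) (QT T) (dd T) where
  sm := by
    unfold QT
    refine ContDiff.add (contDiff_fst.pow 2) ?_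
    exact (T.symm.contDiff.comp contDiff_snd).norm_sq ℝ
  hom := fun t y => by
    simp only [QT, Prod.smul_fst, Prod.smul_snd, map_smul, norm_smul, smul_eq_mul, Real.norm_eq_abs]
    rw [mul_pow, mul_pow, sq_abs]
    ring
  nn := fun y => by unfold QT; positivity
  kp := by positivity
  bd := fun y r hr h => by
    unfold QT at h
    have h1 : ‖T.symm y.2‖ ≤ r := by
      refine abs_le_of_sq_le_sq' ?_ hr |>.2
      nlinarith [sq_nonneg y.1]
    have h2 : |y.1| ≤ r := by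
      refine abs_le_of_sq_le_sq ?_ hr
      nlinarith [sq_nonneg ‖T.symm y.2‖]
    have h3 : ‖y.2‖ ≤ ‖(T : E n →L[ℝ] E n)‖ * r := by
      have := (T : E n →L[ℝ] E n).le_opNorm (T.symm y.2)
      simp only [ContinuousLinearEquiv.coe_coe, ContinuousLinearEquiv.apply_symm_apply] at this
      exact this.trans (mul_le_mul_of_nonneg_left h1 (norm_nonneg _))
    have h4 : 0 ≤ ‖(T : E n →L[ℝ] E n)‖ := norm_nonneg _
    rw [Prod.norm_def]
    refine max_le ?_ ?_
    · rw [Real.norm_eq_abs]; nlinarith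
    · nlinarith
  h1 := fun y => by
    simp only [QT_fderiv]
    rw [Fintype.sum_option]
    simp only [dd, Option.elim]
    simp only [map_zero, inner_zero_right, ContinuousLinearEquiv.symm_apply_apply, mul_zero,
      add_zero, zero_add, mul_one, EuclideanSpace.inner_single_right]
    have e : ‖T.symm y.2‖ ^ 2 = ∑ k, (T.symm y.2 k) ^ 2 := by
      rw [EuclideanSpace.norm_sq_eq]
      simp
    unfold QT
    rw [e, mul_add, Finset.mul_sum]
    congr 1
    · ring
    · refine Finset.sum_congr rfl fun k _ => ?_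
      simp
      ring
  h2 := fun y => by
    unfold LL
    simp only [QT_fderiv2]
    rw [Fintype.sum_option]
    simp only [dd, Option.elim]
    simp
    ring

end Pool.Agent.Lib.MP_9c48c1_an_h27
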