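import Mathlib
import Pool.Agent.Lib.MP_9c48c1_an.Defs
import Pool.Agent.Lib.MP_9c48c1_an_h27.TwoD

set_option autoImplicit false

/-! `p = 2`: adding a variable, so that the equation becomes homogeneous. -/

namespace Pool.Agent.Lib.MP_9c48c1_an_h27

open MeasureTheory Set Filter Topology Matrix Pool.Agent.Lib.MP_9c48c1_an
open scoped ContDiff

variable {n : ℕ}

instance : (volume : Measure (ℝ × E n)).IsAddHaarMeasure := by
  rw [Measure.volume_eq_prod]
  infer_instance

/-- The lifted function. -/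
noncomputable def FL (μ : ℝ) (f : E n → ℝ) (z : ℝ × E n) : ℝ := Real.exp (μ * z.1) * f z.2

lemma FL_locInt (μ : ℝ) {f : E n → ℝ} (hf : LocallyIntegrable f) : LocallyIntegrable (FL μ f) := by
  intro z
  obtain ⟨U, hU, hfU⟩ := hf z.2
  have he : LocallyIntegrable fun t : ℝ => Real.exp (μ * t) :=
    (Continuous.locallyIntegrable (by fun_prop))
  obtain ⟨V, hV, heV⟩ := he z.1
  refine ⟨V ×ˢ U, prod_mem_nhds hV hU, ?_⟩
  unfold IntegrableOn at *
  rw [Measure.volume_eq_prod, ← Measure.prod_restrict]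
  exact heV.mul_prod hfU

lemma slice1 {Φ : ℝ × E n → ℝ} (hΦ : ContDiff ℝ ∞ Φ) (t : ℝ) :
    ContDiff ℝ ∞ (fun x : E n => Φ (t, x)) := hΦ.comp (contDiff_const.prodMk contDiff_id)

lemma slice1_fderiv {Φ : ℝ × E n → ℝ} (hΦ : ContDiff ℝ ∞ Φ) (t : ℝ) (x v : E n) :
    fderiv ℝ (fun x : E n => Φ (t, x)) x v = fderiv ℝ Φ (t, x) (0, v) := by
  have h1 : HasFDerivAt (fun x : E n => ((t, x) : ℝ × E n)) (ContinuousLinearMap.inr ℝ ℝ (E n)) x :=
    hasFDerivAt_prodMk_right t x
  have h2 := (hΦ.differentiable (by simp) (t, x)).hasFDerivAt.comp x h1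
  have h3 : fderiv ℝ (fun x : E n => Φ (t, x)) x = _ := h2.fderiv
  rw [h3]
  simp

lemma slice1_hcs {Φ : ℝ × E n → ℝ} (hΦ : HasCompactSupport Φ) (t : ℝ) :
    HasCompactSupport (fun x : E n => Φ (t, x)) := by
  have : IsClosedEmbedding (fun x : E n => ((t, x) : ℝ × E n)) := by
    refine IsClosedEmbedding.of_continuous_injective_isClosedMap (by fun_prop) ?_ ?_
    · intro a b h
      simpa using h
    · intro s hs
      have : (fun x : E n => ((t, x) : ℝ × E n)) '' s = {t} ×ˢ s := by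
        ext ⟨a, b⟩
        simp
        tauto
      rw [this]
      exact isClosed_singleton.prod hs
  exact hΦ.comp_isClosedEmbedding this

lemma slice1_tsupport (Φ : ℝ × E n → ℝ) (t : ℝ) :
    tsupport (fun x : E n => Φ (t, x)) ⊆ (fun x : E n => ((t, x) : ℝ × E n)) ⁻¹' tsupport Φ := by
  refine closure_minimal ?_ ((isClosed_tsupport Φ).preimage (by fun_prop))
  intro x hx
  exact subset_tsupport Φ hx

lemma slice2_hcs {Φ : ℝ × E n → ℝ} (hΦ : HasCompactSupport Φ) (x : E n) :
    HasCompactSupport (fun t : ℝ => Φ (t, x)) := by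
  have : IsClosedEmbedding (fun t : ℝ => ((t, x) : ℝ × E n)) := by
    refine IsClosedEmbedding.of_continuous_injective_isClosedMap (by fun_prop) ?_ ?_
    · intro a b h
      simpa using h
    · intro s hs
      have : (fun t : ℝ => ((t, x) : ℝ × E n)) '' s = s ×ˢ {x} := by
        ext ⟨a, b⟩
        simp
        tauto
      rw [this]
      exact hs.prod isClosed_singleton
  exact hΦ.comp_isClosedEmbedding this

lemma exp_parts (μ : ℝ) {v v' : ℝ → ℝ} (hv : ∀ t, HasDerivAt v (v' t) t) (hv' : Continuous v')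
    (hc : HasCompactSupport v) (hc' : HasCompactSupport v') :
    ∫ t, Real.exp (μ * t) * v' t = -(μ * ∫ t, Real.exp (μ * t) * v t) := by
  have hvc : Continuous v := continuous_iff_continuousAt.2 fun t => (hv t).continuousAt
  have he : ∀ t : ℝ, HasDerivAt (fun t : ℝ => Real.exp (μ * t)) (μ * Real.exp (μ * t)) t := by
    intro t
    have h1 : HasDerivAt (fun t : ℝ => μ * t) μ t := by
      simpa using (hasDerivAt_id t).const_mul μ
    have := h1.exp
    rwa [mul_comm] at this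
  have h := integral_mul_deriv_eq_deriv_mul_of_integrable (u := fun t : ℝ => Real.exp (μ * t))
    (u' := fun t : ℝ => μ * Real.exp (μ * t)) (v := v) (v' := v') (fun t _ => he t)
    (fun t _ => hv t) ?_ ?_ ?_
  · rw [h, ← integral_const_mul]
    congr 1
    refine integral_congr_ae (Eventually.of_forall fun t => ?_)
    simp only
    ring
  · exact Continuous.integrable_of_hasCompactSupport (by fun_prop) hc'.mul_left
  · exact Continuous.integrable_of_hasCompactSupport (by fun_prop) hc.mul_left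
  · exact Continuous.integrable_of_hasCompactSupport (by fun_prop) hc.mul_left

lemma slice2_deriv {Φ : ℝ × E n → ℝ} (hΦ : ContDiff ℝ ∞ Φ) (x : E n) (t : ℝ) :
    HasDerivAt (fun t : ℝ => Φ (t, x)) (fderiv ℝ Φ (t, x) (1, 0)) t := by
  have h1 : HasDerivAt (fun t : ℝ => ((t, x) : ℝ × E n)) (1, 0) t :=
    (hasDerivAt_id t).prodMk (hasDerivAt_const t x)
  exact (hΦ.differentiable (by simp) (t, x)).hasFDerivAt.comp_hasDerivAt t h1

lemma slice2_parts (μ : ℝ) {Φ : ℝ × E n → ℝ} (hΦ : ContDiff ℝ ∞ Φ) (hc : HasCompactSupport Φ)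
    (x : E n) : ∫ t, Real.exp (μ * t) * fderiv ℝ (fun z => fderiv ℝ Φ z (1, 0)) (t, x) (1, 0) =
      μ ^ 2 * ∫ t, Real.exp (μ * t) * Φ (t, x) := by
  have h1 := d2_contDiff hΦ ((1 : ℝ), (0 : E n))
  have h2 := d2_contDiff h1 ((1 : ℝ), (0 : E n))
  have e1 := exp_parts μ (slice2_deriv h1 x) (h2.continuous.comp (by fun_prop))
    (slice2_hcs (d1_hcs hc _) x) (slice2_hcs (d1_hcs (d1_hcs hc _) _) x)
  have e2 := exp_parts μ (slice2_deriv hΦ x) (h1.continuous.comp (by fun_prop))
    (slice2_hcs hc x) (slice2_hcs (d1_hcs hc _) x)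
  rw [e1, e2]
  ring

theorem weakSol_FL {Ω : Set (E n)} {f : E n → ℝ} (hf : LocallyIntegrable f) (T : E n ≃L[ℝ] E n)
    {μ lam : ℝ} (hμ : μ ^ 2 = lam)
    (heq : ∀ φ : E n → ℝ, ContDiff ℝ ∞ φ → HasCompactSupport φ → tsupport φ ⊆ Ω →
      ∑ k, ∫ x, f x * fderiv ℝ (fderiv ℝ φ) x (T (EuclideanSpace.single k (1 : ℝ)))
        (T (EuclideanSpace.single k (1 : ℝ))) = -(lam * ∫ x, f x * φ x)) :
    WeakSol volume (dd T) (univ ×ˢ Ω) (FL μ f) := by
  intro Φ hΦ hΦc hs
  have hF := FL_locInt μ hf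
  obtain ⟨c, hc⟩ : ∃ c : Fin n → E n, c = fun k => T (EuclideanSpace.single k (1 : ℝ)) := ⟨_, rfl⟩
  have hLL : ∀ z, LL (dd T) Φ z = fderiv ℝ (fun z => fderiv ℝ Φ z (1, 0)) z (1, 0) +
      ∑ k, fderiv ℝ (fun z => fderiv ℝ Φ z (0, c k)) z (0, c k) := by
    intro z
    unfold LL
    rw [Fintype.sum_option, hc]
    rfl
  have cc : ∀ u : ℝ × E n, Continuous fun z => fderiv ℝ (fun z => fderiv ℝ Φ z u) z u := fun u =>
    (d2_contDiff (d2_contDiff hΦ u) u).continuous
  have hcs : ∀ u : ℝ × E n, HasCompactSupport fun z => fderiv ℝ (fun z => fderiv ℝ Φ z u) z u :=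
    fun u => d1_hcs (d1_hcs hΦc u) u
  have i0 : ∀ u : ℝ × E n, Integrable fun z => FL μ f z * fderiv ℝ (fun z => fderiv ℝ Φ z u) z u :=
    fun u => integrable_mul_cpt hF (cc u) (hcs u)
  have iΦ : Integrable fun z => FL μ f z * Φ z := integrable_mul_cpt hF hΦ.continuous hΦc
  have h1 : ∫ z, FL μ f z * fderiv ℝ (fun z => fderiv ℝ Φ z (1, 0)) z (1, 0) =
      lam * ∫ z, FL μ f z * Φ z := by
    have j1 := i0 (1, 0)
    rw [Measure.volume_eq_prod] at j1 iΦ ⊢
    rw [integral_prod_symm _ j1, integral_prod_symm _ iΦ, ← integral_const_mul]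
    refine integral_congr_ae (Eventually.of_forall fun x => ?_)
    simp only [FL]
    have e1 : ∀ G : ℝ → ℝ, (∫ t, Real.exp (μ * t) * f x * G t) =
        f x * ∫ t, Real.exp (μ * t) * G t := by
      intro G
      rw [← integral_const_mul]
      refine integral_congr_ae (Eventually.of_forall fun t => ?_)
      simp only
      ring
    rw [e1 (fun t => fderiv ℝ (fun z => fderiv ℝ Φ z (1, 0)) (t, x) (1, 0)),
      e1 (fun t => Φ (t, x)), slice2_parts μ hΦ hΦc, hμ]
    ring
  have h2 : ∫ z, FL μ f z * ∑ k, fderiv ℝ (fun z => fderiv ℝ Φ z (0, c k)) z (0, c k) =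
      -(lam * ∫ z, FL μ f z * Φ z) := by
    have j1 : Integrable fun z => FL μ f z * ∑ k, fderiv ℝ (fun z => fderiv ℝ Φ z (0, c k)) z (0, c k) := by
      simp only [Finset.mul_sum]
      exact integrable_finsetSum _ fun k _ => i0 (0, c k)
    rw [Measure.volume_eq_prod] at j1 iΦ ⊢
    rw [integral_prod _ j1, integral_prod _ iΦ, ← integral_const_mul, ← integral_neg]
    refine integral_congr_ae (Eventually.of_forall fun t => ?_)
    simp only [FL]
    have e1 : ∀ G : E n → ℝ, (∫ x, Real.exp (μ * t) * f x * G x) =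
        Real.exp (μ * t) * ∫ x, f x * G x := by
      intro G
      rw [← integral_const_mul]
      refine integral_congr_ae (Eventually.of_forall fun t => ?_)
      simp only
      ring
    rw [e1 (fun x => ∑ k, fderiv ℝ (fun z => fderiv ℝ Φ z (0, c k)) (t, x) (0, c k)),
      e1 (fun x => Φ (t, x))]
    have h3 := heq (fun x => Φ (t, x)) (slice1 hΦ t) (slice1_hcs hΦc t) (by
      intro x hx
      exact (hs (slice1_tsupport Φ t hx)).2)
    have h4 : ∀ k x, fderiv ℝ (fderiv ℝ fun x => Φ (t, x)) x (c k) (c k) =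
        fderiv ℝ (fun z => fderiv ℝ Φ z (0, c k)) (t, x) (0, c k) := by
      intro k x
      rw [← d2_eq (slice1 hΦ t)]
      have h5 : (fun y => fderiv ℝ (fun x => Φ (t, x)) y (c k)) =
          fun y => (fun z => fderiv ℝ Φ z (0, c k)) (t, y) := by
        funext y
        exact slice1_fderiv hΦ t y (c k)
      rw [h5, slice1_fderiv (d2_contDiff hΦ _)]
    have h6 : ∑ k, ∫ x, f x * fderiv ℝ (fderiv ℝ fun x => Φ (t, x)) x (c k) (c k) =
        ∫ x, f x * ∑ k, fderiv ℝ (fun z => fderiv ℝ Φ z (0, c k)) (t, x) (0, c k) := by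
      simp only [Finset.mul_sum]
      rw [integral_finsetSum _ fun k _ => ?_]
      · refine Finset.sum_congr rfl fun k _ => ?_
        simp only [h4]
      · have := hh_integrable hf (slice1 hΦ t) (slice1_hcs hΦc t) (c k) (c k)
        simpa only [h4] using this
    rw [← h6]
    have h7 : ∑ k, ∫ x, f x * fderiv ℝ (fderiv ℝ fun x => Φ (t, x)) x (c k) (c k) =
        -(lam * ∫ x, f x * Φ (t, x)) := by
      rw [hc]
      exact h3
    rw [h7]
    ring
  have h3 : (fun z => FL μ f z * LL (dd T) Φ z) = fun z => FL μ f z *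
      fderiv ℝ (fun z => fderiv ℝ Φ z (1, 0)) z (1, 0) + FL μ f z * ∑ k,
      fderiv ℝ (fun z => fderiv ℝ Φ z (0, c k)) z (0, c k) := by
    funext z
    rw [hLL, mul_add]
  rw [h3, integral_add (i0 _) ?_, h1, h2]
  · ring
  · simp only [Finset.mul_sum]
    exact integrable_finsetSum _ fun k _ => i0 (0, c k)

end Pool.Agent.Lib.MP_9c48c1_an_h27
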