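import Mathlib
import Pool.Agent.Lib.MP_9c48c1_an.Defs
import Pool.Agent.Lib.MP_9c48c1_an_h27.TwoE

set_option autoImplicit false

/-! `p = 2`: extremal functions are smooth. -/

namespace Pool.Agent.Lib.MP_9c48c1_an_h27

open MeasureTheory Set Filter Topology Matrix Pool.Agent.Lib.MP_9c48c1_an
open scoped ContDiff

variable {n : ℕ}

lemma glue {f : E n → ℝ} {Ω : Set (E n)} (hΩ : IsOpen Ω)
    (hloc : ∀ x ∈ Ω, ∃ δ : ℝ, 0 < δ ∧ ∃ H : E n → ℝ, ContDiff ℝ ∞ H ∧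
      ∀ᵐ z, z ∈ Metric.ball x δ → f z = H z) :
    ∃ h : E n → ℝ, ContDiffOn ℝ ∞ h Ω ∧ ∀ᵐ z, z ∈ Ω → f z = h z := by
  classical
  choose! δ hδ H hH hfH using hloc
  have key : ∀ x ∈ Ω, ∀ y ∈ Metric.ball x (δ x) ∩ Ω, H y y = H x y := by
    intro x hx y hy
    have hU : IsOpen (Metric.ball x (δ x) ∩ Metric.ball y (δ y)) :=
      Metric.isOpen_ball.inter Metric.isOpen_ball
    have h1 : H y =ᵐ[volume.restrict (Metric.ball x (δ x) ∩ Metric.ball y (δ y))] H x := by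
      rw [Filter.EventuallyEq, ae_restrict_iff' hU.measurableSet]
      filter_upwards [hfH x hx, hfH y hy.2] with z h1 h2 hz
      rw [← h1 hz.1, ← h2 hz.2]
    have h2 := Measure.eqOn_open_of_ae_eq h1 hU (hH y hy.2).continuous.continuousOn
      (hH x hx).continuous.continuousOn
    exact h2 ⟨hy.1, Metric.mem_ball_self (hδ y hy.2)⟩
  refine ⟨fun x => H x x, ?_, ?_⟩
  · intro x hx
    have h1 : (fun x => H x x) =ᶠ[𝓝 x] H x := by
      filter_upwards [(Metric.isOpen_ball.inter hΩ).mem_nhds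
        ⟨Metric.mem_ball_self (hδ x hx), hx⟩] with y hy
      exact key x hx y hy
    exact ((hH x hx).contDiffAt.congr_of_eventuallyEq h1).contDiffWithinAt
  · have h1 : volume {z | z ∈ Ω ∧ f z ≠ H z z} = 0 := by
      refine measure_null_of_locally_null _ fun x hx => ?_
      refine ⟨{z | z ∈ Ω ∧ f z ≠ H z z} ∩ Metric.ball x (δ x), ?_, ?_⟩
      · exact inter_mem_nhdsWithin _ (Metric.ball_mem_nhds x (hδ x hx.1))
      · refine measure_mono_null ?_ (hfH x hx.1)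
        rintro z ⟨⟨hz1, hz2⟩, hz3⟩ hcon
        apply hz2
        rw [hcon hz3]
        exact (key x hx.1 z ⟨hz3, hz1⟩).symm
    refine measure_mono_null ?_ h1
    intro z hz
    simp only [mem_compl_iff, mem_ofPred_eq] at hz ⊢
    push Not at hz
    exact hz

theorem smooth_two (hn : 2 ≤ n) {Ω : Set (E n)} (hΩo : IsOpen Ω) (hΩ : Bornology.IsBounded Ω)
    {A : ℝ} (hA : IsBestConst 2 Ω A) {f : E n → ℝ} {g : E n → E n} (h : MemW0 2 Ω f g)
    (h0 : ¬ f =ᵐ[volume] 0) (heq : affEnergy 2 g = A * rhs 2 f g) :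
    ∃ h : E n → ℝ, ContDiffOn ℝ ∞ h Ω ∧ ∀ᵐ z, z ∈ Ω → f z = h z := by
  have hg2 : MemLp g 2 := by simpa using h.2.1
  have hnd := nonDeg_W0 (by norm_num) hΩ h h0
  have hfl := memLp_locInt h.1
  obtain ⟨T, hT⟩ := exists_factor hn hg2 hnd
  obtain ⟨lam, hlam⟩ : ∃ lam, lam = ((n : ℝ) - 1) / ∫ x, |f x| ^ (2 : ℝ) := ⟨_, rfl⟩
  have hlam0 : 0 ≤ lam := by
    rw [hlam]
    refine div_nonneg ?_ (integral_nonneg fun x => Real.rpow_nonneg (abs_nonneg _) _)
    have : (2 : ℝ) ≤ n := by exact_mod_cast hn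
    linarith
  obtain ⟨μ, hμ⟩ : ∃ μ, μ = Real.sqrt lam := ⟨_, rfl⟩
  have hμ2 : μ ^ 2 = lam := by rw [hμ, Real.sq_sqrt hlam0]
  have hw := weakSol_FL (Ω := Ω) hfl T hμ2 (by
    intro φ hφ hφc hs
    have h1 := weak_second hn hΩ hA.1 h h0 heq hφ hφc hs
    rw [← hlam] at h1
    rw [← h1]
    have h2 : ∀ k, ∫ x, f x * fderiv ℝ (fderiv ℝ φ) x (T (EuclideanSpace.single k (1 : ℝ)))
        (T (EuclideanSpace.single k (1 : ℝ))) = ∑ i, ∑ j,
        ((T (EuclideanSpace.single k (1 : ℝ))) i * (T (EuclideanSpace.single k (1 : ℝ))) j) *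
          hh f φ i j := fun k => hh_expand hfl hφ hφc _ _
    simp only [h2, hT, Finset.sum_mul]
    rw [Finset.sum_comm]
    refine Finset.sum_congr rfl fun i _ => ?_
    rw [Finset.sum_comm])
  refine glue hΩo fun x hx => ?_
  have hU : IsOpen ((univ : Set ℝ) ×ˢ Ω) := isOpen_univ.prod hΩo
  obtain ⟨δ, hδ, H, hH, hae⟩ := weyl (QT_QF T) (by simp [add_comm]) hU (FL_locInt μ hfl) hw
    (x₀ := ((0 : ℝ), x)) ⟨mem_univ _, hx⟩
  rw [Measure.volume_eq_prod] at hae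
  have h1 := Measure.ae_ae_of_ae_prod hae
  have h2 : ∃ᵐ t : ℝ, t ∈ Metric.ball (0 : ℝ) δ := by
    rw [frequently_ae_mem_iff]
    exact (Metric.measure_ball_pos _ _ hδ).ne'
  obtain ⟨t, ht1, ht2⟩ := (h2.and_eventually h1).exists
  refine ⟨δ, hδ, fun x => Real.exp (-(μ * t)) * H (t, x), ?_, ?_⟩
  · exact contDiff_const.mul (hH.comp (contDiff_const.prodMk contDiff_id))
  · filter_upwards [ht2] with z hz hzb
    have h3 : ((t, z) : ℝ × E n) ∈ Metric.ball ((0 : ℝ), x) δ := by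
      rw [← ball_prod_same]
      exact ⟨ht1, hzb⟩
    rw [← hz h3]
    unfold FL
    rw [← mul_assoc, ← Real.exp_add]
    simp

end Pool.Agent.Lib.MP_9c48c1_an_h27
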